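import Mathlib

set_option autoImplicit false

namespace Pool.Agent.helper336_cube

open Finset

section Mu

variable {V : Type*} [DecidableEq V]

/-- The (weighted, signed) matching polynomial of the graph induced on `S`. -/
noncomputable def mu (W : V → V → ℝ) (z : ℝ) (S : Finset V) : ℝ :=
  if h : S.Nonempty then
    z * mu W z (S.erase h.choose) -
      ∑ b ∈ S.erase h.choose, W h.choose b * mu W z ((S.erase h.choose).erase b)
  else 1
termination_by S.card
decreasing_by
  · exact Finset.card_erase_lt_of_mem h.choose_spec
  · exact lt_of_le_of_lt (Finset.card_erase_le) (Finset.card_erase_lt_of_mem h.choose_spec)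

lemma mu_empty (W : V → V → ℝ) (z : ℝ) : mu W z ∅ = 1 := by
  rw [mu]
  simp

lemma mu_choose (W : V → V → ℝ) (z : ℝ) (S : Finset V) (h : S.Nonempty) :
    mu W z S = z * mu W z (S.erase h.choose) -
      ∑ b ∈ S.erase h.choose, W h.choose b * mu W z ((S.erase h.choose).erase b) := by
  rw [mu]
  rw [dif_pos h]

lemma erase_comm3 (S : Finset V) (a b c : V) :
    ((S.erase a).erase b).erase c = ((S.erase b).erase c).erase a := by
  ext x
  simp only [Finset.mem_erase]
  tauto

/-- The recursion holds at every vertex. -/
theorem mu_rec (W : V → V → ℝ) (hW : ∀ a b, W a b = W b a) (z : ℝ) :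
    ∀ (n : ℕ) (S : Finset V), S.card ≤ n → ∀ a ∈ S,
      mu W z S = z * mu W z (S.erase a) -
        ∑ b ∈ S.erase a, W a b * mu W z ((S.erase a).erase b) := by
  intro n
  induction n with
  | zero =>
    intro S hS a ha
    have : S = ∅ := Finset.card_eq_zero.mp (Nat.le_zero.mp hS)
    subst this
    simp at ha
  | succ n ih =>
    intro S hS a ha
    have hne : S.Nonempty := ⟨a, ha⟩
    obtain ⟨m, hm⟩ : ∃ m, m = hne.choose := ⟨_, rfl⟩
    have hmS : m ∈ S := by rw [hm]; exact hne.choose_spec
    have hdef := mu_choose W z S hne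
    rw [← hm] at hdef
    by_cases ham : a = m
    · subst ham
      exact hdef
    · have ham' : m ≠ a := fun h => ham h.symm
      have ha_m : a ∈ S.erase m := Finset.mem_erase.mpr ⟨ham, ha⟩
      have hm_a : m ∈ S.erase a := Finset.mem_erase.mpr ⟨ham', hmS⟩
      have hcm : (S.erase m).card ≤ n := by
        have := Finset.card_erase_lt_of_mem hmS
        omega
      have hca : (S.erase a).card ≤ n := by
        have := Finset.card_erase_lt_of_mem ha
        omega
      set R : Finset V := (S.erase m).erase a with hR
      have hR' : (S.erase a).erase m = R := by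
        rw [hR, Finset.erase_right_comm]
      -- expand both sides
      have e1 : mu W z (S.erase m) = z * mu W z R - ∑ b ∈ R, W a b * mu W z (R.erase b) := by
        have := ih (S.erase m) hcm a ha_m
        rw [this]
      have e2 : mu W z (S.erase a) = z * mu W z R - ∑ b ∈ R, W m b * mu W z (R.erase b) := by
        have := ih (S.erase a) hca m hm_a
        rw [this, hR']
      have e3 : ∀ b ∈ R, mu W z ((S.erase m).erase b) =
          z * mu W z (R.erase b) - ∑ c ∈ R.erase b, W a c * mu W z ((R.erase b).erase c) := by
        intro b hb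
        have hb' : b ≠ a ∧ b ≠ m ∧ b ∈ S := by
          rw [hR] at hb
          simp only [Finset.mem_erase] at hb
          exact hb
        have h1 : ((S.erase m).erase b).card ≤ n := le_trans Finset.card_erase_le hcm
        have h2 : a ∈ (S.erase m).erase b :=
          Finset.mem_erase.mpr ⟨fun h => hb'.1 h.symm, ha_m⟩
        have h3 : ((S.erase m).erase b).erase a = R.erase b := by
          rw [hR, Finset.erase_right_comm]
        have := ih _ h1 a h2
        rw [this, h3]
      have e4 : ∀ b ∈ R, mu W z ((S.erase a).erase b) =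
          z * mu W z (R.erase b) - ∑ c ∈ R.erase b, W m c * mu W z ((R.erase b).erase c) := by
        intro b hb
        have hb' : b ≠ a ∧ b ≠ m ∧ b ∈ S := by
          rw [hR] at hb
          simp only [Finset.mem_erase] at hb
          exact hb
        have h1 : ((S.erase a).erase b).card ≤ n := le_trans Finset.card_erase_le hca
        have h2 : m ∈ (S.erase a).erase b :=
          Finset.mem_erase.mpr ⟨fun h => hb'.2.1 h.symm, hm_a⟩
        have h3 : ((S.erase a).erase b).erase m = R.erase b := by
          rw [← hR', Finset.erase_right_comm]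
        have := ih _ h1 m h2
        rw [this, h3]
      have s1 : ∑ b ∈ S.erase m, W m b * mu W z ((S.erase m).erase b) =
          W m a * mu W z R + ∑ b ∈ R, W m b * (z * mu W z (R.erase b) -
            ∑ c ∈ R.erase b, W a c * mu W z ((R.erase b).erase c)) := by
        rw [← Finset.add_sum_erase _ _ ha_m]
        congr 1
        refine Finset.sum_congr rfl ?_
        intro b hb
        rw [e3 b hb]
      have s2 : ∑ b ∈ S.erase a, W a b * mu W z ((S.erase a).erase b) =
          W a m * mu W z R + ∑ b ∈ R, W a b * (z * mu W z (R.erase b) -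
            ∑ c ∈ R.erase b, W m c * mu W z ((R.erase b).erase c)) := by
        rw [← Finset.add_sum_erase _ _ hm_a, hR']
        congr 1
        refine Finset.sum_congr rfl ?_
        intro b hb
        rw [e4 b hb]
      have key : ∑ b ∈ R, ∑ c ∈ R.erase b, W m b * (W a c * mu W z ((R.erase b).erase c)) =
          ∑ b ∈ R, ∑ c ∈ R.erase b, W a b * (W m c * mu W z ((R.erase b).erase c)) := by
        rw [Finset.sum_comm' (t' := R) (s' := fun c => R.erase c)]
        · refine Finset.sum_congr rfl ?_
          intro b _
          refine Finset.sum_congr rfl ?_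
          intro c _
          rw [Finset.erase_right_comm]
          ring
        · intro x y
          simp only [Finset.mem_erase]
          constructor
          · rintro ⟨h1, h2, h3⟩
            exact ⟨⟨fun h => h2 h.symm, h1⟩, h3⟩
          · rintro ⟨⟨h1, h2⟩, h3⟩
            exact ⟨h2, fun h => h1 h.symm, h3⟩
      have x1 : ∑ b ∈ R, W m b * (z * mu W z (R.erase b) -
            ∑ c ∈ R.erase b, W a c * mu W z ((R.erase b).erase c)) =
          z * (∑ b ∈ R, W m b * mu W z (R.erase b)) -
            ∑ b ∈ R, ∑ c ∈ R.erase b, W m b * (W a c * mu W z ((R.erase b).erase c)) := by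
        rw [Finset.mul_sum, ← Finset.sum_sub_distrib]
        refine Finset.sum_congr rfl ?_
        intro b _
        rw [← Finset.mul_sum]
        ring
      have x2 : ∑ b ∈ R, W a b * (z * mu W z (R.erase b) -
            ∑ c ∈ R.erase b, W m c * mu W z ((R.erase b).erase c)) =
          z * (∑ b ∈ R, W a b * mu W z (R.erase b)) -
            ∑ b ∈ R, ∑ c ∈ R.erase b, W a b * (W m c * mu W z ((R.erase b).erase c)) := by
        rw [Finset.mul_sum, ← Finset.sum_sub_distrib]
        refine Finset.sum_congr rfl ?_
        intro b _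
        rw [← Finset.mul_sum]
        ring
      rw [hdef, s1, s2, x1, x2, e1, e2, key, hW m a]
      ring

lemma mu_rec' (W : V → V → ℝ) (hW : ∀ a b, W a b = W b a) (z : ℝ) (S : Finset V)
    {a : V} (ha : a ∈ S) :
    mu W z S = z * mu W z (S.erase a) -
        ∑ b ∈ S.erase a, W a b * mu W z ((S.erase a).erase b) :=
  mu_rec W hW z S.card S le_rfl a ha

/-- Log-submodularity of the matching polynomial (no positivity needed). -/
theorem mu_logsub (W : V → V → ℝ) (hW : ∀ a b, W a b = W b a) (hW0 : ∀ a b, 0 ≤ W a b) (z : ℝ) :
    ∀ (n : ℕ) (S : Finset V), S.card ≤ n → ∀ a ∈ S, ∀ c ∈ S, a ≠ c →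
      mu W z S * mu W z ((S.erase a).erase c) ≤ mu W z (S.erase c) * mu W z (S.erase a) := by
  intro n
  induction n with
  | zero =>
    intro S hS a ha
    have : S = ∅ := Finset.card_eq_zero.mp (Nat.le_zero.mp hS)
    subst this
    simp at ha
  | succ n ih =>
    intro S hS a ha c hc hac
    have hca : (S.erase a).card ≤ n := by
      have := Finset.card_erase_lt_of_mem ha
      omega
    have ha_c : a ∈ S.erase c := Finset.mem_erase.mpr ⟨hac, ha⟩
    have hc_a : c ∈ S.erase a := Finset.mem_erase.mpr ⟨fun h => hac h.symm, hc⟩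
    set R : Finset V := (S.erase a).erase c with hR
    have hR' : (S.erase c).erase a = R := by rw [hR, Finset.erase_right_comm]
    have e1 := mu_rec' W hW z S ha
    have e2 := mu_rec' W hW z (S.erase c) ha_c
    rw [hR'] at e2
    rw [← Finset.add_sum_erase _ _ hc_a, ← hR] at e1
    have h3 : ∀ b ∈ R, mu W z (S.erase a) * mu W z (R.erase b) ≤
        mu W z ((S.erase a).erase b) * mu W z R := by
      intro b hb
      have hb' : b ≠ c ∧ b ∈ S.erase a := by
        rw [hR] at hb
        exact Finset.mem_erase.mp hb
      have := ih (S.erase a) hca c hc_a b hb'.2 (fun h => hb'.1 h.symm)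
      rw [← hR] at this
      exact this
    have h4 : (∑ b ∈ R, W a b * mu W z (R.erase b)) * mu W z (S.erase a) ≤
        (∑ b ∈ R, W a b * mu W z ((S.erase a).erase b)) * mu W z R := by
      rw [Finset.sum_mul, Finset.sum_mul]
      refine Finset.sum_le_sum ?_
      intro b hb
      have := mul_le_mul_of_nonneg_left (h3 b hb) (hW0 a b)
      nlinarith [this]
    have h5 : 0 ≤ W a c * (mu W z R * mu W z R) :=
      mul_nonneg (hW0 a c) (mul_self_nonneg _)
    rw [e1, e2]
    nlinarith [h4, h5]

/-- All induced matching polynomials are positive. -/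
def Good (W : V → V → ℝ) (z : ℝ) : Prop := ∀ S : Finset V, 0 < mu W z S

lemma mu_congr (W W' : V → V → ℝ) (z : ℝ) :
    ∀ (n : ℕ) (S : Finset V), S.card ≤ n →
      (∀ a ∈ S, ∀ b ∈ S, a ≠ b → W a b = W' a b) → mu W z S = mu W' z S := by
  intro n
  induction n with
  | zero =>
    intro S hS _
    have : S = ∅ := Finset.card_eq_zero.mp (Nat.le_zero.mp hS)
    subst this
    rw [mu_empty, mu_empty]
  | succ n ih =>
    intro S hS hc
    by_cases hne : S.Nonempty
    · rw [mu_choose W z S hne, mu_choose W' z S hne]
      have hmS : hne.choose ∈ S := hne.choose_spec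
      set m := hne.choose with hm
      have hcm : (S.erase m).card ≤ n := by
        have := Finset.card_erase_lt_of_mem hmS
        omega
      have h1 : mu W z (S.erase m) = mu W' z (S.erase m) :=
        ih _ hcm (fun a ha b hb hab => hc a (Finset.mem_of_mem_erase ha) b
          (Finset.mem_of_mem_erase hb) hab)
      rw [h1]
      congr 1
      refine Finset.sum_congr rfl ?_
      intro b hb
      have hb' := Finset.mem_erase.mp hb
      rw [hc m hmS b hb'.2 (fun h => hb'.1 h.symm)]
      congr 1
      refine ih _ (le_trans Finset.card_erase_le hcm) ?_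
      intro a ha c hcc hac
      exact hc a (Finset.mem_of_mem_erase (Finset.mem_of_mem_erase ha)) c
        (Finset.mem_of_mem_erase (Finset.mem_of_mem_erase hcc)) hac
    · rw [Finset.not_nonempty_iff_eq_empty] at hne
      subst hne
      rw [mu_empty, mu_empty]

lemma mu_congr' (W W' : V → V → ℝ) (z : ℝ) (S : Finset V)
    (h : ∀ a ∈ S, ∀ b ∈ S, a ≠ b → W a b = W' a b) : mu W z S = mu W' z S :=
  mu_congr W W' z S.card S le_rfl h

lemma Good.congr {W W' : V → V → ℝ} {z : ℝ} (hG : Good W z)
    (h : ∀ a b, a ≠ b → W a b = W' a b) : Good W' z := by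
  intro S
  rw [← mu_congr' W W' z S (fun a _ b _ hab => h a b hab)]
  exact hG S

theorem good_of_top [Fintype V] (W : V → V → ℝ) (hW : ∀ a b, W a b = W b a)
    (hW0 : ∀ a b, 0 ≤ W a b) (z : ℝ) (x : V)
    (hx : ∀ S : Finset V, x ∉ S → 0 < mu W z S) (htop : 0 < mu W z Finset.univ) :
    Good W z := by
  have key : ∀ (n : ℕ) (S : Finset V), x ∈ S → (Finset.univ \ S).card ≤ n → 0 < mu W z S := by
    intro n
    induction n with
    | zero =>
      intro S _ hS
      have h0 : Finset.univ \ S = ∅ := Finset.card_eq_zero.mp (Nat.le_zero.mp hS)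
      have : S = Finset.univ := by
        ext y
        simp only [Finset.mem_univ, iff_true]
        by_contra hy
        have : y ∈ Finset.univ \ S := by simp [hy]
        rw [h0] at this
        simp at this
      rw [this]
      exact htop
    | succ n ih =>
      intro S hxS hS
      by_cases hall : S = Finset.univ
      · rw [hall]; exact htop
      · obtain ⟨c, hc⟩ : ∃ c, c ∉ S := by
          by_contra hno
          push Not at hno
          exact hall (Finset.eq_univ_iff_forall.mpr hno)
        have hxc : x ≠ c := fun h => hc (h ▸ hxS)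
        have hS'x : x ∈ insert c S := Finset.mem_insert_of_mem hxS
        have hcard : (Finset.univ \ (insert c S)).card ≤ n := by
          have hlt : (Finset.univ \ (insert c S)).card < (Finset.univ \ S).card := by
            refine Finset.card_lt_card ?_
            refine Finset.ssubset_iff_subset_ne.mpr ⟨?_, ?_⟩
            · intro y hy
              simp only [Finset.mem_sdiff, Finset.mem_univ, true_and, Finset.mem_insert,
                not_or] at hy ⊢
              exact hy.2
            · intro heq
              have : c ∈ Finset.univ \ S := by simp [hc]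
              rw [← heq] at this
              simp at this
          omega
        have hpos := ih (insert c S) hS'x hcard
        have hls := mu_logsub W hW hW0 z (insert c S).card (insert c S) le_rfl x hS'x c
          (Finset.mem_insert_self c S) hxc
        rw [Finset.erase_insert hc] at hls
        have hp1 : 0 < mu W z ((insert c S).erase x) := hx _ (by simp)
        have hp2 : 0 < mu W z (((insert c S).erase x).erase c) := hx _ (by simp)
        have h3 : 0 < mu W z S * mu W z ((insert c S).erase x) :=
          lt_of_lt_of_le (mul_pos hpos hp2) hls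
        exact pos_of_mul_pos_left h3 hp1.le
  intro S
  by_cases hxS : x ∈ S
  · exact key _ S hxS le_rfl
  · exact hx S hxS

/-- Lemma B: derandomizing the choice at one vertex. -/
theorem good_choose [Fintype V] {β : Type*} (W : V → V → ℝ) (hW : ∀ a b, W a b = W b a)
    (z : ℝ) (hG : Good W z) (x : V)
    (Ω : Finset β) (p : β → ℝ) (hp0 : ∀ ω ∈ Ω, 0 ≤ p ω) (hp1 : ∑ ω ∈ Ω, p ω = 1)
    (F : β → V → V → ℝ) (hF : ∀ ω ∈ Ω, ∀ a b, F ω a b = F ω b a)
    (hF0 : ∀ ω ∈ Ω, ∀ a b, 0 ≤ F ω a b)
    (hoff : ∀ ω ∈ Ω, ∀ a b, a ≠ x → b ≠ x → a ≠ b → F ω a b = W a b)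
    (havg : ∀ b, b ≠ x → ∑ ω ∈ Ω, p ω * F ω x b ≤ W x b) :
    ∃ ω ∈ Ω, Good (F ω) z := by
  have hne : ∀ ω ∈ Ω, ∀ S : Finset V, x ∉ S → mu (F ω) z S = mu W z S := by
    intro ω hω S hxS
    refine mu_congr' _ _ z S ?_
    intro a ha b hb hab
    exact hoff ω hω a b (fun h => hxS (h ▸ ha)) (fun h => hxS (h ▸ hb)) hab
  have hexp : ∀ ω ∈ Ω, mu (F ω) z Finset.univ = z * mu W z (Finset.univ.erase x) -
      ∑ b ∈ Finset.univ.erase x, F ω x b * mu W z ((Finset.univ.erase x).erase b) := by
    intro ω hω
    rw [mu_rec' (F ω) (hF ω hω) z Finset.univ (Finset.mem_univ x)]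
    rw [hne ω hω _ (by simp)]
    congr 1
    refine Finset.sum_congr rfl ?_
    intro b _
    rw [hne ω hω _ (by simp)]
  have hsum : mu W z Finset.univ ≤ ∑ ω ∈ Ω, p ω * mu (F ω) z Finset.univ := by
    have h1 : ∑ ω ∈ Ω, p ω * mu (F ω) z Finset.univ =
        z * mu W z (Finset.univ.erase x) -
        ∑ b ∈ Finset.univ.erase x, (∑ ω ∈ Ω, p ω * F ω x b) *
          mu W z ((Finset.univ.erase x).erase b) := by
      have : ∑ ω ∈ Ω, p ω * mu (F ω) z Finset.univ =
          ∑ ω ∈ Ω, (p ω * (z * mu W z (Finset.univ.erase x)) -
            ∑ b ∈ Finset.univ.erase x, p ω * F ω x b *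
              mu W z ((Finset.univ.erase x).erase b)) := by
        refine Finset.sum_congr rfl ?_
        intro ω hω
        rw [hexp ω hω, mul_sub, Finset.mul_sum]
        congr 1
        refine Finset.sum_congr rfl ?_
        intro b _
        ring
      rw [this, Finset.sum_sub_distrib, ← Finset.sum_mul, hp1, one_mul, Finset.sum_comm]
      congr 1
      refine Finset.sum_congr rfl ?_
      intro b _
      rw [Finset.sum_mul]
    rw [h1, mu_rec' W hW z Finset.univ (Finset.mem_univ x)]
    have h2 : ∑ b ∈ Finset.univ.erase x, (∑ ω ∈ Ω, p ω * F ω x b) *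
          mu W z ((Finset.univ.erase x).erase b) ≤
        ∑ b ∈ Finset.univ.erase x, W x b * mu W z ((Finset.univ.erase x).erase b) := by
      refine Finset.sum_le_sum ?_
      intro b hb
      exact mul_le_mul_of_nonneg_right (havg b (Finset.ne_of_mem_erase hb)) (hG _).le
    linarith
  have hpos : 0 < ∑ ω ∈ Ω, p ω * mu (F ω) z Finset.univ := lt_of_lt_of_le (hG _) hsum
  obtain ⟨ω, hω, hωp⟩ : ∃ ω ∈ Ω, 0 < mu (F ω) z Finset.univ := by
    by_contra hno
    push Not at hno
    have : ∑ ω ∈ Ω, p ω * mu (F ω) z Finset.univ ≤ 0 := by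
      refine Finset.sum_nonpos ?_
      intro ω hω
      exact mul_nonpos_of_nonneg_of_nonpos (hp0 ω hω) (hno ω hω)
    linarith
  refine ⟨ω, hω, good_of_top (F ω) (hF ω hω) (hF0 ω hω) z x ?_ hωp⟩
  intro S hxS
  rw [hne ω hω S hxS]
  exact hG S

end Mu

section Compare

variable {V V' B : Type*} [DecidableEq V] [DecidableEq V'] [DecidableEq B]

/-- The part of `S` with label `b`, projected. -/
def part (π : V' → V) (ρ : V' → B) (S : Finset V') (b : B) : Finset V :=
  (S.filter (fun y => ρ y = b)).image π

lemma part_erase (π : V' → V) (ρ : V' → B) (hinj : ∀ x y, π x = π y → ρ x = ρ y → x = y)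
    (S : Finset V') (x : V') :
    part π ρ (S.erase x) (ρ x) = (part π ρ S (ρ x)).erase (π x) := by
  ext c
  simp only [part, Finset.mem_image, Finset.mem_filter, Finset.mem_erase]
  constructor
  · rintro ⟨y, ⟨⟨h1, h2⟩, h3⟩, h4⟩
    refine ⟨?_, y, ⟨h2, h3⟩, h4⟩
    intro hc
    exact h1 (hinj y x (h4.trans hc) h3)
  · rintro ⟨h1, y, ⟨h2, h3⟩, h4⟩
    refine ⟨y, ⟨⟨?_, h2⟩, h3⟩, h4⟩
    intro hc
    exact h1 (by rw [← h4, hc])

lemma ratio_le (U : V → V → ℝ) (hU : ∀ a b, U a b = U b a) (hU0 : ∀ a b, 0 ≤ U a b)
    (z : ℝ) (hG : Good U z) (S : Finset V) {a : V} (ha : a ∈ S) :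
    mu U z S / mu U z (S.erase a) ≤ z := by
  rw [div_le_iff₀ (hG _), mu_rec' U hU z S ha]
  have : 0 ≤ ∑ b ∈ S.erase a, U a b * mu U z ((S.erase a).erase b) :=
    Finset.sum_nonneg (fun b _ => mul_nonneg (hU0 a b) (hG _).le)
  linarith

theorem good_compare [Fintype V'] (U : V → V → ℝ) (U' : V' → V' → ℝ)
    (hU : ∀ a b, U a b = U b a) (hU0 : ∀ a b, 0 ≤ U a b)
    (hU' : ∀ a b, U' a b = U' b a) (hU'0 : ∀ a b, 0 ≤ U' a b)
    (π : V' → V) (ρ : V' → B) (hinj : ∀ x y, π x = π y → ρ x = ρ y → x = y)
    (z δ κ : ℝ) (hz1 : z ≤ 1) (hδ : 0 < δ) (hκ0 : 0 ≤ κ) (hκ : κ ≤ δ / 2)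
    (hG : Good U z)
    (h1 : ∀ x y, x ≠ y → ρ x = ρ y → U' x y ≤ (1 + κ) * U (π x) (π y))
    (h2 : ∀ x, ∑ y, (if ρ x = ρ y then 0 else U' x y) ≤ δ ^ 2 / 4) :
    Good U' (z + δ) := by
  have key : ∀ (n : ℕ) (S : Finset V'), S.card ≤ n → 0 < mu U' (z + δ) S ∧
      ∀ x ∈ S, (mu U z (part π ρ S (ρ x)) / mu U z ((part π ρ S (ρ x)).erase (π x)) + δ / 2) *
        mu U' (z + δ) (S.erase x) ≤ mu U' (z + δ) S := by
    intro n
    induction n with
    | zero =>
      intro S hS
      have : S = ∅ := Finset.card_eq_zero.mp (Nat.le_zero.mp hS)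
      subst this
      refine ⟨?_, ?_⟩
      · rw [mu_empty]; norm_num
      · intro x hx
        simp at hx
    | succ n ih =>
      intro S hS
      have hmain : ∀ x ∈ S, (mu U z (part π ρ S (ρ x)) /
          mu U z ((part π ρ S (ρ x)).erase (π x)) + δ / 2) *
          mu U' (z + δ) (S.erase x) ≤ mu U' (z + δ) S := by
        intro x hx
        have hcx : (S.erase x).card ≤ n := by
          have := Finset.card_erase_lt_of_mem hx
          omega
        obtain ⟨hpos, hrat⟩ := ih (S.erase x) hcx
        set A := part π ρ S (ρ x) with hA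
        have haA : π x ∈ A := by
          rw [hA]
          exact Finset.mem_image_of_mem π (Finset.mem_filter.mpr ⟨hx, rfl⟩)
        have hAe : part π ρ (S.erase x) (ρ x) = A.erase (π x) := part_erase π ρ hinj S x
        set M := mu U' (z + δ) (S.erase x) with hM
        have hposA : 0 < mu U z (A.erase (π x)) := hG _
        -- termwise bound
        have hterm : ∀ y ∈ S.erase x, U' x y * mu U' (z + δ) ((S.erase x).erase y) ≤
            M * ((if ρ y = ρ x then U (π x) (π y) * mu U z ((A.erase (π x)).erase (π y)) /
              mu U z (A.erase (π x)) else 0) +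
              (2 / δ) * (if ρ x = ρ y then 0 else U' x y)) := by
          intro y hy
          have hxy : x ≠ y := fun h => (Finset.ne_of_mem_erase hy) h.symm
          have hry := hrat y hy
          have hmy : 0 < mu U' (z + δ) ((S.erase x).erase y) :=
            (ih ((S.erase x).erase y) (le_trans Finset.card_erase_le hcx)).1
          by_cases hρ : ρ y = ρ x
          · rw [if_pos hρ, if_pos hρ.symm, mul_zero, add_zero]
            rw [hρ, hAe] at hry
            have hyA : π y ∈ A.erase (π x) := by
              rw [← hAe]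
              exact Finset.mem_image_of_mem π (Finset.mem_filter.mpr ⟨hy, hρ⟩)
            have hr1 := ratio_le U hU hU0 z hG (A.erase (π x)) hyA
            have hp1 : 0 < mu U z ((A.erase (π x)).erase (π y)) := hG _
            set r := mu U z (A.erase (π x)) / mu U z ((A.erase (π x)).erase (π y)) with hr
            have hrpos : 0 < r := div_pos hposA hp1
            have hinv : mu U z ((A.erase (π x)).erase (π y)) / mu U z (A.erase (π x)) = 1 / r := by
              rw [hr, one_div_div]
            have hU1 := h1 x y hxy hρ.symm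
            have hkr : (1 + κ) * r ≤ r + δ / 2 := by nlinarith
            -- (1+κ) m_y ≤ M / r
            have h5 : (1 + κ) * mu U' (z + δ) ((S.erase x).erase y) ≤ M * (1 / r) := by
              rw [mul_one_div, le_div_iff₀ hrpos]
              calc (1 + κ) * mu U' (z + δ) ((S.erase x).erase y) * r
                  = ((1 + κ) * r) * mu U' (z + δ) ((S.erase x).erase y) := by ring
                _ ≤ (r + δ / 2) * mu U' (z + δ) ((S.erase x).erase y) :=
                    mul_le_mul_of_nonneg_right hkr hmy.le
                _ ≤ M := hry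
            calc U' x y * mu U' (z + δ) ((S.erase x).erase y)
                ≤ ((1 + κ) * U (π x) (π y)) * mu U' (z + δ) ((S.erase x).erase y) :=
                  mul_le_mul_of_nonneg_right hU1 hmy.le
              _ = U (π x) (π y) * ((1 + κ) * mu U' (z + δ) ((S.erase x).erase y)) := by ring
              _ ≤ U (π x) (π y) * (M * (1 / r)) :=
                  mul_le_mul_of_nonneg_left h5 (hU0 _ _)
              _ = M * (U (π x) (π y) * mu U z ((A.erase (π x)).erase (π y)) /
                    mu U z (A.erase (π x))) := by
                  rw [mul_div_assoc, hinv]; ring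
          · have hρ' : ¬ ρ x = ρ y := fun h => hρ h.symm
            rw [if_neg hρ, if_neg hρ', zero_add]
            have hyA : π y ∈ part π ρ (S.erase x) (ρ y) :=
              Finset.mem_image_of_mem π (Finset.mem_filter.mpr ⟨hy, rfl⟩)
            have hrp : 0 < mu U z (part π ρ (S.erase x) (ρ y)) /
                mu U z ((part π ρ (S.erase x) (ρ y)).erase (π y)) := div_pos (hG _) (hG _)
            have h6 : δ / 2 * mu U' (z + δ) ((S.erase x).erase y) ≤ M := by
              refine le_trans ?_ hry
              refine mul_le_mul_of_nonneg_right ?_ hmy.le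
              linarith
            have h7 : mu U' (z + δ) ((S.erase x).erase y) ≤ M * (2 / δ) := by
              rw [mul_div_assoc', le_div_iff₀ hδ]
              linarith
            calc U' x y * mu U' (z + δ) ((S.erase x).erase y)
                ≤ U' x y * (M * (2 / δ)) := mul_le_mul_of_nonneg_left h7 (hU'0 _ _)
              _ = M * (2 / δ * U' x y) := by ring
        have hsum : ∑ y ∈ S.erase x, U' x y * mu U' (z + δ) ((S.erase x).erase y) ≤
            M * (z - mu U z A / mu U z (A.erase (π x)) + δ / 2) := by
          refine le_trans (Finset.sum_le_sum hterm) ?_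
          rw [← Finset.mul_sum]
          refine mul_le_mul_of_nonneg_left ?_ hpos.le
          rw [Finset.sum_add_distrib]
          refine add_le_add ?_ ?_
          · rw [← Finset.sum_filter]
            have hinjOn : Set.InjOn π (((S.erase x).filter (fun y => ρ y = ρ x) : Finset V') : Set V') := by
              intro y hy w hw hyw
              have hy' := (Finset.mem_filter.mp (Finset.mem_coe.mp hy)).2
              have hw' := (Finset.mem_filter.mp (Finset.mem_coe.mp hw)).2
              exact hinj y w hyw (hy'.trans hw'.symm)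
            have hsi := Finset.sum_image (f := fun c => U (π x) c *
              mu U z ((A.erase (π x)).erase c) / mu U z (A.erase (π x))) hinjOn
            rw [← hsi]
            have : ((S.erase x).filter (fun y => ρ y = ρ x)).image π = A.erase (π x) := hAe
            rw [this, ← Finset.sum_div, mu_rec' U hU z A haA]
            rw [sub_div, mul_div_assoc, div_self hposA.ne', mul_one]
            linarith
          · rw [← Finset.mul_sum]
            have h8 : ∑ y ∈ S.erase x, (if ρ x = ρ y then 0 else U' x y) ≤ δ ^ 2 / 4 := by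
              refine le_trans ?_ (h2 x)
              refine Finset.sum_le_sum_of_subset_of_nonneg (Finset.subset_univ _) ?_
              intro y _ _
              split_ifs
              · exact le_rfl
              · exact hU'0 _ _
            calc 2 / δ * ∑ y ∈ S.erase x, (if ρ x = ρ y then 0 else U' x y)
                ≤ 2 / δ * (δ ^ 2 / 4) := mul_le_mul_of_nonneg_left h8 (by positivity)
              _ = δ / 2 := by field_simp; ring
        rw [mu_rec' U' hU' (z + δ) S hx]
        nlinarith [hsum]
      refine ⟨?_, hmain⟩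
      by_cases hne : S.Nonempty
      · obtain ⟨x, hx⟩ := hne
        have hcx : (S.erase x).card ≤ n := by
          have := Finset.card_erase_lt_of_mem hx
          omega
        obtain ⟨hpos, _⟩ := ih (S.erase x) hcx
        refine lt_of_lt_of_le ?_ (hmain x hx)
        refine mul_pos ?_ hpos
        have : 0 < mu U z (part π ρ S (ρ x)) /
            mu U z ((part π ρ S (ρ x)).erase (π x)) := div_pos (hG _) (hG _)
        linarith
      · rw [Finset.not_nonempty_iff_eq_empty] at hne
        subst hne
        rw [mu_empty]; norm_num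
  intro S
  exact (key S.card S le_rfl).1

end Compare

end Pool.Agent.helper336_cube
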