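import Mathlib
import Pool.Agent.helper336_cube.Matching

set_option autoImplicit false

namespace Pool.Agent.helper336_cube

open Finset

section ChooseAll

variable {V β : Type*} [DecidableEq V] [DecidableEq β]

/-- The distribution at vertex `x` when the vertices of `A` have been fixed to `s`. -/
noncomputable def qd (p : V → β → ℝ) (A : Finset V) (s : V → β) (x : V) (ω : β) : ℝ :=
  if x ∈ A then (if ω = s x then 1 else 0) else p x ω

/-- Average weights. -/
noncomputable def avgW (Ω : V → Finset β) (p : V → β → ℝ) (G : V → V → β → β → ℝ)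
    (A : Finset V) (s : V → β) (x y : V) : ℝ :=
  ∑ ω ∈ Ω x, ∑ ω' ∈ Ω y, qd p A s x ω * qd p A s y ω' * G x y ω ω'

lemma qd_nonneg (Ω : V → Finset β) (p : V → β → ℝ) (hp0 : ∀ x, ∀ ω ∈ Ω x, 0 ≤ p x ω)
    (A : Finset V) (s : V → β)
    (x : V) (ω : β) (hω : ω ∈ Ω x) : 0 ≤ qd p A s x ω := by
  unfold qd
  split_ifs
  · exact zero_le_one
  · exact le_rfl
  · exact hp0 x ω hω

lemma avgW_symm (Ω : V → Finset β) (p : V → β → ℝ) (G : V → V → β → β → ℝ)
    (hG : ∀ x y ω ω', G x y ω ω' = G y x ω' ω) (A : Finset V) (s : V → β) (x y : V) :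
    avgW Ω p G A s x y = avgW Ω p G A s y x := by
  unfold avgW
  rw [Finset.sum_comm]
  refine Finset.sum_congr rfl ?_
  intro ω _
  refine Finset.sum_congr rfl ?_
  intro ω' _
  rw [hG x y]
  ring

lemma avgW_nonneg (Ω : V → Finset β) (p : V → β → ℝ) (hp0 : ∀ x, ∀ ω ∈ Ω x, 0 ≤ p x ω) (G : V → V → β → β → ℝ)
    (hG0 : ∀ x y ω ω', 0 ≤ G x y ω ω') (A : Finset V) (s : V → β) (x y : V) :
    0 ≤ avgW Ω p G A s x y := by
  unfold avgW
  refine Finset.sum_nonneg ?_
  intro ω hω
  refine Finset.sum_nonneg ?_
  intro ω' hω'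
  exact mul_nonneg (mul_nonneg (qd_nonneg Ω p hp0 A s x ω hω) (qd_nonneg Ω p hp0 A s y ω' hω'))
    (hG0 _ _ _ _)

/-- Iterated derandomization: choose all vertices. -/
theorem good_choose_all [Fintype V] (z : ℝ) (Ω : V → Finset β) (p : V → β → ℝ)
    (hp0 : ∀ x, ∀ ω ∈ Ω x, 0 ≤ p x ω) (hp1 : ∀ x, ∑ ω ∈ Ω x, p x ω = 1)
    (G : V → V → β → β → ℝ)
    (hG : ∀ x y ω ω', G x y ω ω' = G y x ω' ω) (hG0 : ∀ x y ω ω', 0 ≤ G x y ω ω')
    (hgood : Good (fun x y => ∑ ω ∈ Ω x, ∑ ω' ∈ Ω y, p x ω * p y ω' * G x y ω ω') z) :
    ∃ s : V → β, (∀ x, s x ∈ Ω x) ∧ Good (fun x y => G x y (s x) (s y)) z := by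
  have hΩ : ∀ x, ∃ ω, ω ∈ Ω x := by
    intro x
    by_contra hne
    push Not at hne
    have := hp1 x
    rw [Finset.eq_empty_of_forall_notMem hne] at this
    simp at this
  choose ω0 hω0 using hΩ
  have key : ∀ A : Finset V, ∃ s : V → β, (∀ x, s x ∈ Ω x) ∧ Good (avgW Ω p G A s) z := by
    intro A
    induction A using Finset.induction_on with
    | empty =>
      refine ⟨ω0, hω0, ?_⟩
      have : avgW Ω p G (∅ : Finset V) ω0 =
          (fun x y => ∑ ω ∈ Ω x, ∑ ω' ∈ Ω y, p x ω * p y ω' * G x y ω ω') := by
        funext x y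
        simp [avgW, qd]
      rw [this]
      exact hgood
    | insert x A hxA ih =>
      obtain ⟨s, hs, hgs⟩ := ih
      have hq : ∀ (a : V) (ω ω1 : β), a ≠ x →
          qd p (insert x A) (Function.update s x ω) a ω1 = qd p A s a ω1 := by
        intro a ω ω1 ha
        unfold qd
        rw [Function.update_of_ne ha]
        have : a ∈ insert x A ↔ a ∈ A := by
          rw [Finset.mem_insert]
          constructor
          · rintro (h | h)
            · exact absurd h ha
            · exact h
          · intro h; exact Or.inr h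
        simp only [this]
      have hqx : ∀ (ω ω1 : β), qd p (insert x A) (Function.update s x ω) x ω1 =
          if ω1 = ω then 1 else 0 := by
        intro ω ω1
        unfold qd
        rw [if_pos (Finset.mem_insert_self x A), Function.update_self]
      obtain ⟨ω, hω, hgω⟩ := good_choose (avgW Ω p G A s) (avgW_symm Ω p G hG A s) z hgs x (Ω x)
        (p x) (hp0 x) (hp1 x)
        (fun ω => avgW Ω p G (insert x A) (Function.update s x ω))
        (fun ω _ a b => avgW_symm Ω p G hG _ _ a b)
        (fun ω _ a b => avgW_nonneg Ω p hp0 G hG0 _ _ a b)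
        (by
          intro ω _ a b ha hb _
          unfold avgW
          refine Finset.sum_congr rfl ?_
          intro ω1 _
          refine Finset.sum_congr rfl ?_
          intro ω2 _
          rw [hq a ω ω1 ha, hq b ω ω2 hb])
        (by
          intro b hb
          refine le_of_eq ?_
          have h1 : ∀ ω ∈ Ω x, avgW Ω p G (insert x A) (Function.update s x ω) x b =
              ∑ ω' ∈ Ω b, qd p A s b ω' * G x b ω ω' := by
            intro ω hω
            unfold avgW
            have : ∀ ω1 ∈ Ω x, ∑ ω' ∈ Ω b, qd p (insert x A) (Function.update s x ω) x ω1 *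
                qd p (insert x A) (Function.update s x ω) b ω' * G x b ω1 ω' =
                if ω1 = ω then ∑ ω' ∈ Ω b, qd p A s b ω' * G x b ω1 ω' else 0 := by
              intro ω1 _
              rw [hqx]
              split_ifs with h
              · refine Finset.sum_congr rfl ?_
                intro ω' _
                rw [hq b ω ω' hb]
                ring
              · simp
            rw [Finset.sum_congr rfl this, Finset.sum_ite_eq' (Ω x) ω, if_pos hω]
          have h2 : ∑ ω ∈ Ω x, p x ω * avgW Ω p G (insert x A) (Function.update s x ω) x b =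
              ∑ ω ∈ Ω x, p x ω * ∑ ω' ∈ Ω b, qd p A s b ω' * G x b ω ω' := by
            refine Finset.sum_congr rfl ?_
            intro ω hω
            rw [h1 ω hω]
          rw [h2]
          unfold avgW
          refine Finset.sum_congr rfl ?_
          intro ω _
          rw [Finset.mul_sum]
          refine Finset.sum_congr rfl ?_
          intro ω' _
          have : qd p A s x ω = p x ω := by
            unfold qd
            rw [if_neg hxA]
          rw [this]
          ring)
      refine ⟨Function.update s x ω, ?_, hgω⟩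
      intro y
      by_cases hy : y = x
      · subst hy
        rw [Function.update_self]
        exact hω
      · rw [Function.update_of_ne hy]
        exact hs y
  obtain ⟨s, hs, hgs⟩ := key Finset.univ
  refine ⟨s, hs, ?_⟩
  have : avgW Ω p G Finset.univ s = (fun x y => G x y (s x) (s y)) := by
    funext x y
    unfold avgW
    have h1 : ∀ ω1 ∈ Ω x, ∑ ω' ∈ Ω y, qd p Finset.univ s x ω1 * qd p Finset.univ s y ω' *
        G x y ω1 ω' = if ω1 = s x then G x y ω1 (s y) else 0 := by
      intro ω1 _
      have h2 : ∀ ω' ∈ Ω y, qd p Finset.univ s x ω1 * qd p Finset.univ s y ω' * G x y ω1 ω' =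
          if ω' = s y then (if ω1 = s x then G x y ω1 ω' else 0) else 0 := by
        intro ω' _
        unfold qd
        simp only [Finset.mem_univ, if_true]
        split_ifs <;> simp
      rw [Finset.sum_congr rfl h2, Finset.sum_ite_eq' (Ω y) (s y), if_pos (hs y)]
    rw [Finset.sum_congr rfl h1, Finset.sum_ite_eq' (Ω x) (s x), if_pos (hs x)]
  rw [← this]
  exact hgs

end ChooseAll

end Pool.Agent.helper336_cube
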