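import Mathlib

set_option autoImplicit false

namespace Pool.Agent.helper336_cube

open Finset

/-- Quadratic upper bound for a small power. -/
lemma rpow_quad {α y : ℝ} (hα0 : 0 < α) (hα1 : α ≤ 1 / 2) (hy0 : 0 ≤ y) (hy4 : y ≤ 4) :
    y ^ α ≤ 1 + α * (y - 1) - α / 9 * (y - 1) ^ 2 := by
  set s := Real.sqrt y with hs
  have hs0 : 0 ≤ s := Real.sqrt_nonneg y
  have hs2 : s ^ 2 = y := Real.sq_sqrt hy0
  have hs22 : s ≤ 2 := by
    nlinarith
  have h1 : y ^ α = s ^ (2 * α) := by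
    rw [hs, Real.sqrt_eq_rpow, ← Real.rpow_mul hy0]
    congr 1
    ring
  have h2 : s ^ (2 * α) ≤ 1 + 2 * α * (s - 1) := by
    have := rpow_one_add_le_one_add_mul_self (s := s - 1) (p := 2 * α) (by linarith)
      (by linarith) (by linarith)
    have he : (1 : ℝ) + (s - 1) = s := by ring
    rw [he] at this
    exact this
  rw [h1]
  refine le_trans h2 ?_
  rw [← hs2]
  have h3 : 0 ≤ α * ((s - 1) ^ 2 * (9 - (s + 1) ^ 2)) := by
    refine mul_nonneg hα0.le (mul_nonneg (sq_nonneg _) ?_)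
    nlinarith
  nlinarith [h3]

lemma rpow_le_four {α y : ℝ} (hα0 : 0 < α) (hα1 : α ≤ 1 / 2) (hy0 : 0 ≤ y) (hy4 : y ≤ 4) :
    y ^ α ≤ 1 + 3 * α := by
  have h := rpow_quad hα0 hα1 hy0 hy4
  have h1 : 0 ≤ α / 9 * (y - 1) ^ 2 := by positivity
  nlinarith

/-- One child against the mean: first order gain against second order loss. -/
lemma child_bound {α lam a b c e h : ℝ} (hα0 : 0 < α) (hα1 : α ≤ 1 / 2) (hlam : 0 < lam)
    (ha : 0 ≤ a) (hb : 0 ≤ b) (hc : 0 ≤ c) (he : 0 ≤ e) (hsum : a + b + c + e = 4 * h) :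
    a ^ α ≤ (1 + 9 * α / lam) * h ^ α +
      lam * (h ^ α - (a ^ α + b ^ α + c ^ α + e ^ α) / 4) := by
  have hh : 0 ≤ h := by linarith
  rcases hh.eq_or_lt with h0 | hpos
  · have ha0 : a = 0 := by linarith
    have hb0 : b = 0 := by linarith
    have hc0 : c = 0 := by linarith
    have he0 : e = 0 := by linarith
    rw [ha0, hb0, hc0, he0, ← h0, Real.zero_rpow hα0.ne']
    simp
  · have hscale : ∀ x : ℝ, 0 ≤ x → x ^ α = h ^ α * (x / h) ^ α := by
      intro x hx
      rw [← Real.mul_rpow hpos.le (div_nonneg hx hpos.le), mul_div_cancel₀ _ hpos.ne']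
    have hbd : ∀ x : ℝ, 0 ≤ x → x ≤ 4 * h →
        (x / h) ^ α ≤ 1 + α * (x / h - 1) - α / 9 * (x / h - 1) ^ 2 := by
      intro x hx hx4
      exact rpow_quad hα0 hα1 (div_nonneg hx hpos.le) (by rw [div_le_iff₀ hpos]; exact hx4)
    have hA := hbd a ha (by linarith)
    have hB := hbd b hb (by linarith)
    have hC := hbd c hc (by linarith)
    have hE := hbd e he (by linarith)
    rw [hscale a ha, hscale b hb, hscale c hc, hscale e he]
    set ya := (a / h) ^ α
    set yb := (b / h) ^ α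
    set yc := (c / h) ^ α
    set ye := (e / h) ^ α
    set u := a / h with hu
    set v := b / h with hv
    set w := c / h with hw
    set x := e / h with hx
    have huvwx : u + v + w + x = 4 := by
      rw [hu, hv, hw, hx, ← add_div, ← add_div, ← add_div, hsum]
      field_simp
    have hφ : 0 < h ^ α := Real.rpow_pos_of_pos hpos α
    have hmean : (ya + yb + yc + ye) / 4 ≤ 1 - α / 36 * (u - 1) ^ 2 := by
      have q1 : 0 ≤ α * (v - 1) ^ 2 := by positivity
      have q2 : 0 ≤ α * (w - 1) ^ 2 := by positivity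
      have q3 : 0 ≤ α * (x - 1) ^ 2 := by positivity
      have q4 : α * (u + v + w + x) = α * 4 := by rw [huvwx]
      nlinarith
    have hya : ya ≤ 1 + α * (u - 1) := by
      have : 0 ≤ α / 9 * (u - 1) ^ 2 := by positivity
      linarith
    have hamgm : α * (u - 1) ≤ 9 * α / lam + lam * (α / 36 * (u - 1) ^ 2) := by
      have h1 : 0 ≤ (3 - lam * (u - 1) / 6) ^ 2 := sq_nonneg _
      have h2 : α * (u - 1) = α / lam * (lam * (u - 1)) := by field_simp
      have h3 : 9 * α / lam + lam * (α / 36 * (u - 1) ^ 2) =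
          α / lam * (9 + lam ^ 2 * (u - 1) ^ 2 / 36) := by field_simp
      rw [h2, h3]
      refine mul_le_mul_of_nonneg_left ?_ (by positivity)
      nlinarith
    have hfin : ya ≤ (1 + 9 * α / lam) + lam * (1 - (ya + yb + yc + ye) / 4) := by
      have : lam * (α / 36 * (u - 1) ^ 2) ≤ lam * (1 - (ya + yb + yc + ye) / 4) :=
        mul_le_mul_of_nonneg_left (by linarith) hlam.le
      linarith
    calc h ^ α * ya ≤ h ^ α * ((1 + 9 * α / lam) + lam * (1 - (ya + yb + yc + ye) / 4)) :=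
          mul_le_mul_of_nonneg_left hfin hφ.le
      _ = (1 + 9 * α / lam) * h ^ α +
          lam * (h ^ α - (h ^ α * ya + h ^ α * yb + h ^ α * yc + h ^ α * ye) / 4) := by ring

/-- Crude bound for one child. -/
lemma child_crude {α a b c e h : ℝ} (hα0 : 0 < α) (hα1 : α ≤ 1 / 2)
    (ha : 0 ≤ a) (hb : 0 ≤ b) (hc : 0 ≤ c) (he : 0 ≤ e) (hsum : a + b + c + e = 4 * h) :
    a ^ α ≤ (1 + 3 * α) * h ^ α := by
  have hh : 0 ≤ h := by linarith
  rcases hh.eq_or_lt with h0 | hpos
  · have ha0 : a = 0 := by linarith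
    rw [ha0, ← h0, Real.zero_rpow hα0.ne']
    simp
  · have hsc : a ^ α = h ^ α * (a / h) ^ α := by
      rw [← Real.mul_rpow hpos.le (div_nonneg ha hpos.le), mul_div_cancel₀ _ hpos.ne']
    rw [hsc, mul_comm (1 + 3 * α)]
    refine mul_le_mul_of_nonneg_left ?_ (Real.rpow_nonneg hpos.le α)
    exact rpow_le_four hα0 hα1 (div_nonneg ha hpos.le) (by rw [div_le_iff₀ hpos]; linarith)

/-- Midpoint concavity of a small power. -/
lemma rpow_mid {α x y : ℝ} (hα0 : 0 ≤ α) (hα1 : α ≤ 1) (hx : 0 ≤ x) (hy : 0 ≤ y) :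
    (x ^ α + y ^ α) / 2 ≤ ((x + y) / 2) ^ α := by
  have hc := Real.concaveOn_rpow hα0 hα1
  have := hc.2 (Set.mem_Ici.mpr hx) (Set.mem_Ici.mpr hy) (by norm_num : (0 : ℝ) ≤ 1 / 2)
    (by norm_num : (0 : ℝ) ≤ 1 / 2) (by norm_num)
  simp only [smul_eq_mul] at this
  have e1 : (1 : ℝ) / 2 * x + 1 / 2 * y = (x + y) / 2 := by ring
  rw [e1] at this
  linarith

lemma sum_range_two_mul {M : Type*} [AddCommMonoid M] (f : ℕ → M) (n : ℕ) :
    ∑ q ∈ Finset.range (2 * n), f q = ∑ q ∈ Finset.range n, (f (2 * q) + f (2 * q + 1)) := by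
  induction n with
  | zero => simp
  | succ n ih =>
    rw [Finset.sum_range_succ, ← ih]
    have : 2 * (n + 1) = 2 * n + 1 + 1 := by ring
    rw [this, Finset.sum_range_succ, Finset.sum_range_succ, add_assoc]

end Pool.Agent.helper336_cube
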