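import Mathlib
import Pool.Agent.helper336_cube.Analytic

set_option autoImplicit false

namespace Pool.Agent.helper336_cube

open Finset

/-- Average of the potential over pairs of descendants at depths `t`, `t'`. -/
noncomputable def aAvg (α : ℝ) (H : ℕ → ℕ → ℕ → ℕ → ℝ) (t t' : ℕ) : ℝ :=
  (∑ q ∈ Finset.range (2 ^ t), ∑ q' ∈ Finset.range (2 ^ t'), (H t q t' q') ^ α) /
    ((2 : ℝ) ^ t * 2 ^ t')

/-- Maximum of the potential over the four children of a pair of descendants. -/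
noncomputable def cmax (α : ℝ) (H : ℕ → ℕ → ℕ → ℕ → ℝ) (t q t' q' : ℕ) : ℝ :=
  max (max ((H (t + 1) (2 * q) (t' + 1) (2 * q')) ^ α)
        ((H (t + 1) (2 * q) (t' + 1) (2 * q' + 1)) ^ α))
      (max ((H (t + 1) (2 * q + 1) (t' + 1) (2 * q')) ^ α)
        ((H (t + 1) (2 * q + 1) (t' + 1) (2 * q' + 1)) ^ α))

/-- Average of `cmax`. -/
noncomputable def cAvg (α : ℝ) (H : ℕ → ℕ → ℕ → ℕ → ℝ) (t t' : ℕ) : ℝ :=
  (∑ q ∈ Finset.range (2 ^ t), ∑ q' ∈ Finset.range (2 ^ t'), cmax α H t q t' q') /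
    ((2 : ℝ) ^ t * 2 ^ t')

/-- The two-sided martingale property up to depth `T`. -/
structure Mart (T : ℕ) (H : ℕ → ℕ → ℕ → ℕ → ℝ) : Prop where
  nonneg : ∀ t q t' q', 0 ≤ H t q t' q'
  row : ∀ t, t < T → ∀ t', t' ≤ T → ∀ q q',
    H t q t' q' = (H (t + 1) (2 * q) t' q' + H (t + 1) (2 * q + 1) t' q') / 2
  col : ∀ t, t ≤ T → ∀ t', t' < T → ∀ q q',
    H t q t' q' = (H t q (t' + 1) (2 * q') + H t q (t' + 1) (2 * q' + 1)) / 2

lemma Mart.four {T : ℕ} {H : ℕ → ℕ → ℕ → ℕ → ℝ} (hH : Mart T H) {t t' : ℕ} (ht : t < T)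
    (ht' : t' < T) (q q' : ℕ) :
    H (t + 1) (2 * q) (t' + 1) (2 * q') + H (t + 1) (2 * q) (t' + 1) (2 * q' + 1) +
      H (t + 1) (2 * q + 1) (t' + 1) (2 * q') + H (t + 1) (2 * q + 1) (t' + 1) (2 * q' + 1) =
      4 * H t q t' q' := by
  rw [hH.row t ht t' ht'.le q q', hH.col (t + 1) ht t' ht' (2 * q) q',
    hH.col (t + 1) ht t' ht' (2 * q + 1) q']
  ring

lemma aAvg_nonneg {T : ℕ} {H : ℕ → ℕ → ℕ → ℕ → ℝ} (hH : Mart T H) (α : ℝ) (t t' : ℕ) :
    0 ≤ aAvg α H t t' := by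
  unfold aAvg
  refine div_nonneg ?_ (by positivity)
  refine Finset.sum_nonneg (fun q _ => Finset.sum_nonneg (fun q' _ => ?_))
  exact Real.rpow_nonneg (hH.nonneg _ _ _ _) _

lemma aAvg_succ_succ (α : ℝ) (H : ℕ → ℕ → ℕ → ℕ → ℝ) (t t' : ℕ) :
    aAvg α H (t + 1) (t' + 1) =
      (∑ q ∈ Finset.range (2 ^ t), ∑ q' ∈ Finset.range (2 ^ t'),
        ((H (t + 1) (2 * q) (t' + 1) (2 * q')) ^ α +
          (H (t + 1) (2 * q) (t' + 1) (2 * q' + 1)) ^ α +
          (H (t + 1) (2 * q + 1) (t' + 1) (2 * q')) ^ α +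
          (H (t + 1) (2 * q + 1) (t' + 1) (2 * q' + 1)) ^ α) / 4) / ((2 : ℝ) ^ t * 2 ^ t') := by
  unfold aAvg
  have e1 : 2 ^ (t + 1) = 2 * 2 ^ t := by ring
  have e2 : 2 ^ (t' + 1) = 2 * 2 ^ t' := by ring
  rw [e1, e2, sum_range_two_mul]
  have e3 : ∀ q ∈ Finset.range (2 ^ t),
      (∑ q' ∈ Finset.range (2 * 2 ^ t'), (H (t + 1) (2 * q) (t' + 1) q') ^ α) +
      (∑ q' ∈ Finset.range (2 * 2 ^ t'), (H (t + 1) (2 * q + 1) (t' + 1) q') ^ α) =
      4 * ∑ q' ∈ Finset.range (2 ^ t'),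
        ((H (t + 1) (2 * q) (t' + 1) (2 * q')) ^ α +
          (H (t + 1) (2 * q) (t' + 1) (2 * q' + 1)) ^ α +
          (H (t + 1) (2 * q + 1) (t' + 1) (2 * q')) ^ α +
          (H (t + 1) (2 * q + 1) (t' + 1) (2 * q' + 1)) ^ α) / 4 := by
    intro q _
    rw [sum_range_two_mul, sum_range_two_mul, ← Finset.sum_add_distrib, Finset.mul_sum]
    refine Finset.sum_congr rfl ?_
    intro q' _
    ring
  rw [Finset.sum_congr rfl e3, ← Finset.mul_sum]
  have p1 : (2 : ℝ) ^ t ≠ 0 := by positivity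
  have p2 : (2 : ℝ) ^ t' ≠ 0 := by positivity
  rw [pow_succ, pow_succ]
  field_simp
  ring

lemma cmax_le_of {α : ℝ} {H : ℕ → ℕ → ℕ → ℕ → ℝ} {t q t' q' : ℕ} {R : ℝ}
    (h1 : (H (t + 1) (2 * q) (t' + 1) (2 * q')) ^ α ≤ R)
    (h2 : (H (t + 1) (2 * q) (t' + 1) (2 * q' + 1)) ^ α ≤ R)
    (h3 : (H (t + 1) (2 * q + 1) (t' + 1) (2 * q')) ^ α ≤ R)
    (h4 : (H (t + 1) (2 * q + 1) (t' + 1) (2 * q' + 1)) ^ α ≤ R) :
    cmax α H t q t' q' ≤ R := by
  unfold cmax
  exact max_le (max_le h1 h2) (max_le h3 h4)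

lemma cAvg_le {T : ℕ} {H : ℕ → ℕ → ℕ → ℕ → ℝ} (hH : Mart T H) {α lam : ℝ} (hα0 : 0 < α)
    (hα1 : α ≤ 1 / 2) (hlam : 0 < lam) {t t' : ℕ} (ht : t < T) (ht' : t' < T) :
    cAvg α H t t' ≤ (1 + 9 * α / lam) * aAvg α H t t' +
      lam * (aAvg α H t t' - aAvg α H (t + 1) (t' + 1)) := by
  rw [aAvg_succ_succ]
  unfold cAvg aAvg
  rw [← sub_div, mul_div_assoc', mul_div_assoc', ← add_div]
  refine div_le_div_of_nonneg_right ?_ (by positivity)
  rw [← Finset.sum_sub_distrib, Finset.mul_sum, Finset.mul_sum, ← Finset.sum_add_distrib]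
  refine Finset.sum_le_sum ?_
  intro q _
  rw [← Finset.sum_sub_distrib, Finset.mul_sum, Finset.mul_sum, ← Finset.sum_add_distrib]
  refine Finset.sum_le_sum ?_
  intro q' _
  have h4 := hH.four ht ht' q q'
  have n1 := hH.nonneg (t + 1) (2 * q) (t' + 1) (2 * q')
  have n2 := hH.nonneg (t + 1) (2 * q) (t' + 1) (2 * q' + 1)
  have n3 := hH.nonneg (t + 1) (2 * q + 1) (t' + 1) (2 * q')
  have n4 := hH.nonneg (t + 1) (2 * q + 1) (t' + 1) (2 * q' + 1)
  refine cmax_le_of ?_ ?_ ?_ ?_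
  · exact child_bound hα0 hα1 hlam n1 n2 n3 n4 h4
  · refine le_of_le_of_eq (child_bound hα0 hα1 hlam n2 n1 n3 n4 (by linarith)) ?_
    ring
  · refine le_of_le_of_eq (child_bound hα0 hα1 hlam n3 n1 n2 n4 (by linarith)) ?_
    ring
  · refine le_of_le_of_eq (child_bound hα0 hα1 hlam n4 n1 n2 n3 (by linarith)) ?_
    ring

lemma cAvg_crude {T : ℕ} {H : ℕ → ℕ → ℕ → ℕ → ℝ} (hH : Mart T H) {α : ℝ} (hα0 : 0 < α)
    (hα1 : α ≤ 1 / 2) {t t' : ℕ} (ht : t < T) (ht' : t' < T) :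
    cAvg α H t t' ≤ (1 + 3 * α) * aAvg α H t t' := by
  unfold cAvg aAvg
  rw [mul_div_assoc']
  refine div_le_div_of_nonneg_right ?_ (by positivity)
  rw [Finset.mul_sum]
  refine Finset.sum_le_sum ?_
  intro q _
  rw [Finset.mul_sum]
  refine Finset.sum_le_sum ?_
  intro q' _
  have h4 := hH.four ht ht' q q'
  have n1 := hH.nonneg (t + 1) (2 * q) (t' + 1) (2 * q')
  have n2 := hH.nonneg (t + 1) (2 * q) (t' + 1) (2 * q' + 1)
  have n3 := hH.nonneg (t + 1) (2 * q + 1) (t' + 1) (2 * q')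
  have n4 := hH.nonneg (t + 1) (2 * q + 1) (t' + 1) (2 * q' + 1)
  refine cmax_le_of ?_ ?_ ?_ ?_
  · exact child_crude hα0 hα1 n1 n2 n3 n4 h4
  · exact child_crude hα0 hα1 n2 n1 n3 n4 (by linarith)
  · exact child_crude hα0 hα1 n3 n1 n2 n4 (by linarith)
  · exact child_crude hα0 hα1 n4 n1 n2 n3 (by linarith)

lemma aAvg_row {T : ℕ} {H : ℕ → ℕ → ℕ → ℕ → ℝ} (hH : Mart T H) {α : ℝ} (hα0 : 0 < α)
    (hα1 : α ≤ 1 / 2) {t t' : ℕ} (ht : t < T) (ht' : t' ≤ T) :
    aAvg α H (t + 1) t' ≤ aAvg α H t t' := by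
  unfold aAvg
  have e1 : 2 ^ (t + 1) = 2 * 2 ^ t := by ring
  rw [e1, sum_range_two_mul]
  have p1 : (0 : ℝ) < 2 ^ t := by positivity
  have p2 : (0 : ℝ) < 2 ^ t' := by positivity
  rw [pow_succ, div_le_div_iff₀ (by positivity) (by positivity)]
  have hs : ∑ q ∈ Finset.range (2 ^ t),
      ((∑ q' ∈ Finset.range (2 ^ t'), (H (t + 1) (2 * q) t' q') ^ α) +
        ∑ q' ∈ Finset.range (2 ^ t'), (H (t + 1) (2 * q + 1) t' q') ^ α) ≤
      2 * ∑ q ∈ Finset.range (2 ^ t), ∑ q' ∈ Finset.range (2 ^ t'), (H t q t' q') ^ α := by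
    rw [Finset.mul_sum]
    refine Finset.sum_le_sum ?_
    intro q _
    rw [← Finset.sum_add_distrib, Finset.mul_sum]
    refine Finset.sum_le_sum ?_
    intro q' _
    rw [hH.row t ht t' ht' q q']
    have := rpow_mid hα0.le (by linarith) (hH.nonneg (t + 1) (2 * q) t' q')
      (hH.nonneg (t + 1) (2 * q + 1) t' q')
    linarith
  calc _ ≤ (2 * ∑ q ∈ Finset.range (2 ^ t), ∑ q' ∈ Finset.range (2 ^ t'), (H t q t' q') ^ α) *
        (2 ^ t * 2 ^ t') := mul_le_mul_of_nonneg_right hs (by positivity)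
    _ = _ := by ring

lemma aAvg_col {T : ℕ} {H : ℕ → ℕ → ℕ → ℕ → ℝ} (hH : Mart T H) {α : ℝ} (hα0 : 0 < α)
    (hα1 : α ≤ 1 / 2) {t t' : ℕ} (ht : t ≤ T) (ht' : t' < T) :
    aAvg α H t (t' + 1) ≤ aAvg α H t t' := by
  unfold aAvg
  have e1 : 2 ^ (t' + 1) = 2 * 2 ^ t' := by ring
  rw [e1]
  have p1 : (0 : ℝ) < 2 ^ t := by positivity
  have p2 : (0 : ℝ) < 2 ^ t' := by positivity
  rw [pow_succ, div_le_div_iff₀ (by positivity) (by positivity)]
  have hs : ∑ q ∈ Finset.range (2 ^ t),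
      (∑ q' ∈ Finset.range (2 * 2 ^ t'), (H t q (t' + 1) q') ^ α) ≤
      2 * ∑ q ∈ Finset.range (2 ^ t), ∑ q' ∈ Finset.range (2 ^ t'), (H t q t' q') ^ α := by
    rw [Finset.mul_sum]
    refine Finset.sum_le_sum ?_
    intro q _
    rw [sum_range_two_mul, Finset.mul_sum]
    refine Finset.sum_le_sum ?_
    intro q' _
    rw [hH.col t ht t' ht' q q']
    have := rpow_mid hα0.le (by linarith) (hH.nonneg t q (t' + 1) (2 * q'))
      (hH.nonneg t q (t' + 1) (2 * q' + 1))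
    linarith
  calc _ ≤ (2 * ∑ q ∈ Finset.range (2 ^ t), ∑ q' ∈ Finset.range (2 ^ t'), (H t q t' q') ^ α) *
        (2 ^ t * 2 ^ t') := mul_le_mul_of_nonneg_right hs (by positivity)
    _ = _ := by ring

lemma aAvg_le_root {T : ℕ} {H : ℕ → ℕ → ℕ → ℕ → ℝ} (hH : Mart T H) {α : ℝ} (hα0 : 0 < α)
    (hα1 : α ≤ 1 / 2) : ∀ t, t ≤ T → ∀ t', t' ≤ T → aAvg α H t t' ≤ (H 0 0 0 0) ^ α := by
  have h0 : ∀ t', t' ≤ T → aAvg α H 0 t' ≤ (H 0 0 0 0) ^ α := by
    intro t'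
    induction t' with
    | zero => intro _; simp [aAvg]
    | succ t' ih =>
      intro h
      exact le_trans (aAvg_col hH hα0 hα1 (Nat.zero_le T) (by omega)) (ih (by omega))
  intro t
  induction t with
  | zero => intro _ t' ht'; exact h0 t' ht'
  | succ t ih =>
    intro ht t' ht'
    exact le_trans (aAvg_row hH hα0 hα1 (by omega) ht') (ih (by omega) t' ht')

/-- Closed-form lower bound for the tail sums. -/
noncomputable def Pf (x y : ℝ) : ℝ := x * y * (x - 1) * (y - 1) / (2 * (x + y))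

lemma Pf_step {x y : ℝ} (hx : x = 1 ∨ 2 ≤ x) (hy : y = 1 ∨ 2 ≤ y) :
    Pf x y ≤ (x - 1) * (y - 1) + Pf (x - 1) (y - 1) := by
  rcases hx with hx | hx
  · subst hx
    simp [Pf]
  rcases hy with hy | hy
  · subst hy
    simp [Pf]
  unfold Pf
  have h1 : 0 < x + y := by linarith
  have h2 : 0 < (x - 1) + (y - 1) := by linarith
  have h3 : (x - 1) * (y - 1) + (x - 1) * (y - 1) * ((x - 1) - 1) * ((y - 1) - 1) /
      (2 * ((x - 1) + (y - 1))) - x * y * (x - 1) * (y - 1) / (2 * (x + y)) =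
      (x - 1) * (y - 1) * (x * y) / ((x + y) * ((x - 1) + (y - 1))) := by
    field_simp
    ring
  have h4 : 0 ≤ (x - 1) * (y - 1) * (x * y) / ((x + y) * ((x - 1) + (y - 1))) := by
    refine div_nonneg ?_ (by positivity)
    refine mul_nonneg (mul_nonneg (by linarith) (by linarith)) (mul_nonneg (by linarith) (by linarith))
  linarith

lemma term_bound {T : ℕ} {H : ℕ → ℕ → ℕ → ℕ → ℝ} (hH : Mart T H) {α : ℝ} (hα0 : 0 < α)
    (hα1 : α ≤ 1 / 2) {t t' : ℕ} (ht : t < T) (ht' : t' < T) :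
    ((T : ℝ) - t) * ((T : ℝ) - t') * cAvg α H t t' ≤
      ((T : ℝ) - t) * ((T : ℝ) - t') * aAvg α H t t' +
      Pf ((T : ℝ) - t) ((T : ℝ) - t') * (aAvg α H t t' - aAvg α H (t + 1) (t' + 1)) +
      72 * α * (((T : ℝ) - t) + ((T : ℝ) - t')) * (H 0 0 0 0) ^ α := by
  have hA := aAvg_le_root hH hα0 hα1 t ht.le t' ht'.le
  have hA0 := aAvg_nonneg hH α t t'
  have hcr := cAvg_crude hH hα0 hα1 ht ht'
  set φ := (H 0 0 0 0) ^ α with hφ
  have hφ0 : 0 ≤ φ := le_trans hA0 hA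
  have ha1 : (1 : ℝ) ≤ (T : ℝ) - t := by
    have : (t : ℝ) + 1 ≤ T := by exact_mod_cast ht
    linarith
  have hb1 : (1 : ℝ) ≤ (T : ℝ) - t' := by
    have : (t' : ℝ) + 1 ≤ T := by exact_mod_cast ht'
    linarith
  have hcases : ((T : ℝ) - t = 1 ∨ (T : ℝ) - t' = 1) ∨ (2 ≤ (T : ℝ) - t ∧ 2 ≤ (T : ℝ) - t') := by
    rcases Nat.lt_or_ge (t + 1) T with h | h
    · rcases Nat.lt_or_ge (t' + 1) T with h' | h'
      · right
        have e1 : (t : ℝ) + 1 + 1 ≤ T := by exact_mod_cast h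
        have e2 : (t' : ℝ) + 1 + 1 ≤ T := by exact_mod_cast h'
        exact ⟨by linarith, by linarith⟩
      · left; right
        have e : T = t' + 1 := by omega
        rw [e]; push_cast; ring
    · left; left
      have e : T = t + 1 := by omega
      rw [e]; push_cast; ring
  rcases hcases with h | ⟨ha2, hb2⟩
  · have hP : Pf ((T : ℝ) - t) ((T : ℝ) - t') = 0 := by
      unfold Pf
      rcases h with h | h <;> rw [h] <;> simp
    rw [hP, zero_mul, add_zero]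
    have hab : ((T : ℝ) - t) * ((T : ℝ) - t') ≤ ((T : ℝ) - t) + ((T : ℝ) - t') := by
      rcases h with h | h <;> rw [h] <;> linarith
    have hab0 : 0 ≤ ((T : ℝ) - t) * ((T : ℝ) - t') := by positivity
    have step1 : ((T : ℝ) - t) * ((T : ℝ) - t') * cAvg α H t t' ≤
        ((T : ℝ) - t) * ((T : ℝ) - t') * ((1 + 3 * α) * aAvg α H t t') :=
      mul_le_mul_of_nonneg_left hcr hab0
    have step2 : ((T : ℝ) - t) * ((T : ℝ) - t') * (3 * α * aAvg α H t t') ≤
        (((T : ℝ) - t) + ((T : ℝ) - t')) * (72 * α * φ) := by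
      refine mul_le_mul hab ?_ (by positivity) (by linarith)
      nlinarith
    nlinarith [step1, step2]
  · set a := (T : ℝ) - t with ha
    set b := (T : ℝ) - t' with hb
    have hlam : 0 < (a - 1) * (b - 1) / (2 * (a + b)) := by
      refine div_pos (mul_pos (by linarith) (by linarith)) (by linarith)
    have hA2 := cAvg_le hH hα0 hα1 hlam ht ht'
    have hab0 : 0 ≤ a * b := by positivity
    have step1 := mul_le_mul_of_nonneg_left hA2 hab0
    have e1 : a * b * ((a - 1) * (b - 1) / (2 * (a + b))) = Pf a b := by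
      unfold Pf
      field_simp
    have e2 : a * b * (9 * α / ((a - 1) * (b - 1) / (2 * (a + b)))) ≤ 72 * α * (a + b) := by
      have q1 : 0 < a - 1 := by linarith
      have q2 : 0 < b - 1 := by linarith
      have : a * b * (9 * α / ((a - 1) * (b - 1) / (2 * (a + b)))) =
          18 * α * (a + b) * (a * b) / ((a - 1) * (b - 1)) := by
        field_simp
        ring
      rw [this, div_le_iff₀ (mul_pos q1 q2)]
      have h5 : a * b ≤ 4 * ((a - 1) * (b - 1)) := by nlinarith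
      have h6 : 0 ≤ 18 * α * (a + b) := by positivity
      calc 18 * α * (a + b) * (a * b) ≤ 18 * α * (a + b) * (4 * ((a - 1) * (b - 1))) :=
            mul_le_mul_of_nonneg_left h5 h6
        _ = 72 * α * (a + b) * ((a - 1) * (b - 1)) := by ring
    have e3 : a * b * (9 * α / ((a - 1) * (b - 1) / (2 * (a + b)))) * aAvg α H t t' ≤
        72 * α * (a + b) * φ := by
      refine mul_le_mul e2 hA hA0 (by positivity)
    calc a * b * cAvg α H t t'
        ≤ a * b * ((1 + 9 * α / ((a - 1) * (b - 1) / (2 * (a + b)))) * aAvg α H t t' +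
          (a - 1) * (b - 1) / (2 * (a + b)) * (aAvg α H t t' - aAvg α H (t + 1) (t' + 1))) := step1
      _ = a * b * aAvg α H t t' +
          a * b * ((a - 1) * (b - 1) / (2 * (a + b))) *
            (aAvg α H t t' - aAvg α H (t + 1) (t' + 1)) +
          a * b * (9 * α / ((a - 1) * (b - 1) / (2 * (a + b)))) * aAvg α H t t' := by ring
      _ ≤ a * b * aAvg α H t t' + Pf a b * (aAvg α H t t' - aAvg α H (t + 1) (t' + 1)) +
          72 * α * (a + b) * φ := by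
          rw [e1]
          linarith

lemma sum_shift_le (T : ℕ) (g : ℕ → ℕ → ℝ) (hg : ∀ t t', 0 ≤ g t t')
    (h1 : ∀ t', g T t' = 0) (h2 : ∀ t, g t T = 0) :
    ∑ t ∈ Finset.range T, ∑ t' ∈ Finset.range T, g (t + 1) (t' + 1) ≤
      ∑ t ∈ Finset.range T, ∑ t' ∈ Finset.range T, g t t' := by
  have inner : ∀ t, ∑ t' ∈ Finset.range T, g t (t' + 1) ≤ ∑ t' ∈ Finset.range T, g t t' := by
    intro t
    have e := Finset.sum_range_succ' (fun t' => g t t') T
    rw [Finset.sum_range_succ] at e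
    rw [h2 t, add_zero] at e
    have := hg t 0
    linarith
  have e := Finset.sum_range_succ' (fun t => ∑ t' ∈ Finset.range T, g t t') T
  rw [Finset.sum_range_succ] at e
  have z1 : ∑ t' ∈ Finset.range T, g T t' = 0 := Finset.sum_eq_zero (fun t' _ => h1 t')
  rw [z1, add_zero] at e
  have p0 : 0 ≤ ∑ t' ∈ Finset.range T, g 0 t' := Finset.sum_nonneg (fun t' _ => hg 0 t')
  have : ∑ t ∈ Finset.range T, ∑ t' ∈ Finset.range T, g (t + 1) (t' + 1) ≤
      ∑ t ∈ Finset.range T, ∑ t' ∈ Finset.range T, g (t + 1) t' :=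
    Finset.sum_le_sum (fun t _ => inner (t + 1))
  linarith

lemma sum_lin (T : ℕ) : ∑ t ∈ Finset.range T, ((T : ℝ) - t) = (T : ℝ) * (T + 1) / 2 := by
  induction T with
  | zero => simp
  | succ T ih =>
    rw [Finset.sum_range_succ]
    have : ∑ t ∈ Finset.range T, (((T + 1 : ℕ) : ℝ) - t) =
        ∑ t ∈ Finset.range T, (((T : ℝ) - t) + 1) := by
      refine Finset.sum_congr rfl ?_
      intro t _
      push_cast; ring
    rw [this, Finset.sum_add_distrib, ih]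
    simp
    ring

lemma Pf_nonneg {x y : ℝ} (hx : 1 ≤ x) (hy : 1 ≤ y) : 0 ≤ Pf x y := by
  unfold Pf
  refine div_nonneg ?_ (by linarith)
  refine mul_nonneg (mul_nonneg (by positivity) (by linarith)) (by linarith)

lemma telescoped {T : ℕ} {H : ℕ → ℕ → ℕ → ℕ → ℝ} (hH : Mart T H) {α : ℝ} (hα0 : 0 < α)
    (hα1 : α ≤ 1 / 2) :
    ∑ t ∈ Finset.range T, ∑ t' ∈ Finset.range T,
      (((T : ℝ) - t) * ((T : ℝ) - t') * aAvg α H t t' +
      Pf ((T : ℝ) - t) ((T : ℝ) - t') * (aAvg α H t t' - aAvg α H (t + 1) (t' + 1))) ≤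
    ∑ t ∈ Finset.range T, ∑ t' ∈ Finset.range T,
      ((T : ℝ) - t) * ((T : ℝ) - t') * (H 0 0 0 0) ^ α := by
  set φ := (H 0 0 0 0) ^ α with hφ
  set g : ℕ → ℕ → ℝ := fun t t' => if t < T ∧ t' < T then
    (((T : ℝ) - t) * ((T : ℝ) - t') + Pf ((T : ℝ) - t) ((T : ℝ) - t')) * (φ - aAvg α H t t')
    else 0 with hg
  have hge : ∀ t, t < T → (1 : ℝ) ≤ (T : ℝ) - t := by
    intro t ht
    have : (t : ℝ) + 1 ≤ T := by exact_mod_cast ht
    linarith
  have hgnn : ∀ t t', 0 ≤ g t t' := by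
    intro t t'
    simp only [hg]
    split_ifs with h
    · have h1 := hge t h.1
      have h2 := hge t' h.2
      have h3 := Pf_nonneg h1 h2
      have h4 := aAvg_le_root hH hα0 hα1 t h.1.le t' h.2.le
      refine mul_nonneg (add_nonneg (mul_nonneg (by linarith) (by linarith)) h3) (by linarith)
    · exact le_rfl
  have hshift := sum_shift_le T g hgnn (by intro t'; simp [hg]) (by intro t; simp [hg])
  have hP : ∀ t, t < T → ∀ t', t' < T → Pf ((T : ℝ) - t) ((T : ℝ) - t') *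
      (φ - aAvg α H (t + 1) (t' + 1)) ≤ g (t + 1) (t' + 1) := by
    intro t ht t' ht'
    by_cases h : t + 1 < T ∧ t' + 1 < T
    · have hB := aAvg_le_root hH hα0 hα1 (t + 1) h.1.le (t' + 1) h.2.le
      simp only [hg]
      rw [if_pos h]
      refine mul_le_mul_of_nonneg_right ?_ (by linarith)
      have e1 : (t : ℝ) + 1 + 1 ≤ T := by exact_mod_cast h.1
      have e2 : (t' : ℝ) + 1 + 1 ≤ T := by exact_mod_cast h.2
      have := Pf_step (x := (T : ℝ) - t) (y := (T : ℝ) - t') (Or.inr (by linarith))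
        (Or.inr (by linarith))
      have c1 : (T : ℝ) - ((t + 1 : ℕ) : ℝ) = (T : ℝ) - t - 1 := by push_cast; ring
      have c2 : (T : ℝ) - ((t' + 1 : ℕ) : ℝ) = (T : ℝ) - t' - 1 := by push_cast; ring
      rw [c1, c2]
      exact this
    · have h0 : Pf ((T : ℝ) - t) ((T : ℝ) - t') = 0 := by
        unfold Pf
        have : T = t + 1 ∨ T = t' + 1 := by omega
        rcases this with e | e
        · have : (T : ℝ) - t = 1 := by rw [e]; push_cast; ring
          rw [this]; simp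
        · have : (T : ℝ) - t' = 1 := by rw [e]; push_cast; ring
          rw [this]; simp
      rw [h0, zero_mul]
      exact hgnn _ _
  have hlhs : ∑ t ∈ Finset.range T, ∑ t' ∈ Finset.range T,
      (((T : ℝ) - t) * ((T : ℝ) - t') * aAvg α H t t' +
      Pf ((T : ℝ) - t) ((T : ℝ) - t') * (aAvg α H t t' - aAvg α H (t + 1) (t' + 1))) ≤
      ∑ t ∈ Finset.range T, ∑ t' ∈ Finset.range T,
        (((T : ℝ) - t) * ((T : ℝ) - t') * φ + (g (t + 1) (t' + 1) - g t t')) := by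
    refine Finset.sum_le_sum ?_
    intro t ht
    refine Finset.sum_le_sum ?_
    intro t' ht'
    have ht1 := Finset.mem_range.mp ht
    have ht2 := Finset.mem_range.mp ht'
    have hp := hP t ht1 t' ht2
    have hgt : g t t' = (((T : ℝ) - t) * ((T : ℝ) - t') + Pf ((T : ℝ) - t) ((T : ℝ) - t')) *
        (φ - aAvg α H t t') := by
      simp only [hg]
      rw [if_pos ⟨ht1, ht2⟩]
    rw [hgt]
    nlinarith [hp]
  refine le_trans hlhs ?_
  have hsplit : ∑ t ∈ Finset.range T, ∑ t' ∈ Finset.range T,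
        (((T : ℝ) - t) * ((T : ℝ) - t') * φ + (g (t + 1) (t' + 1) - g t t')) =
      ∑ t ∈ Finset.range T, ∑ t' ∈ Finset.range T, ((T : ℝ) - t) * ((T : ℝ) - t') * φ +
      (∑ t ∈ Finset.range T, ∑ t' ∈ Finset.range T, g (t + 1) (t' + 1) -
        ∑ t ∈ Finset.range T, ∑ t' ∈ Finset.range T, g t t') := by
    rw [← Finset.sum_sub_distrib, ← Finset.sum_add_distrib]
    refine Finset.sum_congr rfl ?_
    intro t _
    rw [← Finset.sum_sub_distrib, ← Finset.sum_add_distrib]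
  rw [hsplit]
  linarith

/-- The scale weights. -/
noncomputable def wt (T t : ℕ) : ℝ := 2 * ((T : ℝ) - t) / ((T : ℝ) * (T + 1))

lemma wt_nonneg {T t : ℕ} (h : t < T) : 0 ≤ wt T t := by
  unfold wt
  have : (t : ℝ) + 1 ≤ T := by exact_mod_cast h
  refine div_nonneg (by linarith) (by positivity)

lemma wt_sum {T : ℕ} (hT : 1 ≤ T) : ∑ t ∈ Finset.range T, wt T t = 1 := by
  unfold wt
  rw [← Finset.sum_div, ← Finset.mul_sum, sum_lin]
  have : (T : ℝ) ≠ 0 := by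
    have : 0 < T := hT
    exact_mod_cast this.ne'
  field_simp

theorem avg_bound {T : ℕ} (hT : 1 ≤ T) {H : ℕ → ℕ → ℕ → ℕ → ℝ} (hH : Mart T H) {α : ℝ}
    (hα0 : 0 < α) (hα1 : α ≤ 1 / 2) :
    ∑ t ∈ Finset.range T, ∑ t' ∈ Finset.range T, wt T t * wt T t' * cAvg α H t t' ≤
      (1 + 288 * α / T) * (H 0 0 0 0) ^ α := by
  have hT0 : (0 : ℝ) < T := by
    have : 0 < T := hT
    exact_mod_cast this
  set φ := (H 0 0 0 0) ^ α with hφ
  have hφ0 : 0 ≤ φ := Real.rpow_nonneg (hH.nonneg _ _ _ _) _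
  have h1 : ∑ t ∈ Finset.range T, ∑ t' ∈ Finset.range T, wt T t * wt T t' * cAvg α H t t' =
      (∑ t ∈ Finset.range T, ∑ t' ∈ Finset.range T,
        ((T : ℝ) - t) * ((T : ℝ) - t') * cAvg α H t t') * (4 / ((T : ℝ) * (T + 1)) ^ 2) := by
    rw [Finset.sum_mul]
    refine Finset.sum_congr rfl ?_
    intro t _
    rw [Finset.sum_mul]
    refine Finset.sum_congr rfl ?_
    intro t' _
    unfold wt
    field_simp
    ring
  have h2 : ∑ t ∈ Finset.range T, ∑ t' ∈ Finset.range T,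
        ((T : ℝ) - t) * ((T : ℝ) - t') * cAvg α H t t' ≤
      ∑ t ∈ Finset.range T, ∑ t' ∈ Finset.range T,
        ((((T : ℝ) - t) * ((T : ℝ) - t') * aAvg α H t t' +
      Pf ((T : ℝ) - t) ((T : ℝ) - t') * (aAvg α H t t' - aAvg α H (t + 1) (t' + 1))) +
      72 * α * (((T : ℝ) - t) + ((T : ℝ) - t')) * φ) := by
    refine Finset.sum_le_sum ?_
    intro t ht
    refine Finset.sum_le_sum ?_
    intro t' ht'
    exact term_bound hH hα0 hα1 (Finset.mem_range.mp ht) (Finset.mem_range.mp ht')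
  have h3 : ∑ t ∈ Finset.range T, ∑ t' ∈ Finset.range T,
        ((((T : ℝ) - t) * ((T : ℝ) - t') * aAvg α H t t' +
      Pf ((T : ℝ) - t) ((T : ℝ) - t') * (aAvg α H t t' - aAvg α H (t + 1) (t' + 1))) +
      72 * α * (((T : ℝ) - t) + ((T : ℝ) - t')) * φ) =
      (∑ t ∈ Finset.range T, ∑ t' ∈ Finset.range T,
        (((T : ℝ) - t) * ((T : ℝ) - t') * aAvg α H t t' +
      Pf ((T : ℝ) - t) ((T : ℝ) - t') * (aAvg α H t t' - aAvg α H (t + 1) (t' + 1)))) +
      72 * α * φ * ∑ t ∈ Finset.range T, ∑ t' ∈ Finset.range T,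
        (((T : ℝ) - t) + ((T : ℝ) - t')) := by
    rw [Finset.mul_sum, ← Finset.sum_add_distrib]
    refine Finset.sum_congr rfl ?_
    intro t _
    rw [Finset.mul_sum, ← Finset.sum_add_distrib]
    refine Finset.sum_congr rfl ?_
    intro t' _
    ring
  have h4 := telescoped hH hα0 hα1
  have h5 : ∑ t ∈ Finset.range T, ∑ t' ∈ Finset.range T, (((T : ℝ) - t) + ((T : ℝ) - t')) =
      (T : ℝ) ^ 2 * (T + 1) := by
    have : ∀ t ∈ Finset.range T, ∑ t' ∈ Finset.range T, (((T : ℝ) - t) + ((T : ℝ) - t')) =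
        T * ((T : ℝ) - t) + (T : ℝ) * (T + 1) / 2 := by
      intro t _
      rw [Finset.sum_add_distrib, sum_lin]
      simp only [Finset.sum_const, Finset.card_range, nsmul_eq_mul]
    rw [Finset.sum_congr rfl this, Finset.sum_add_distrib, ← Finset.mul_sum, sum_lin]
    simp
    ring
  have h6 : ∑ t ∈ Finset.range T, ∑ t' ∈ Finset.range T,
      ((T : ℝ) - t) * ((T : ℝ) - t') * φ = ((T : ℝ) * (T + 1) / 2) ^ 2 * φ := by
    have : ∀ t ∈ Finset.range T, ∑ t' ∈ Finset.range T, ((T : ℝ) - t) * ((T : ℝ) - t') * φ =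
        ((T : ℝ) - t) * ((T : ℝ) * (T + 1) / 2 * φ) := by
      intro t _
      rw [← Finset.sum_mul, ← Finset.mul_sum, sum_lin]
      ring
    rw [Finset.sum_congr rfl this, ← Finset.sum_mul, sum_lin]
    ring
  rw [h1]
  have h7 : ∑ t ∈ Finset.range T, ∑ t' ∈ Finset.range T,
        ((T : ℝ) - t) * ((T : ℝ) - t') * cAvg α H t t' ≤
      ((T : ℝ) * (T + 1) / 2) ^ 2 * φ + 72 * α * φ * ((T : ℝ) ^ 2 * (T + 1)) := by
    refine le_trans h2 ?_
    rw [h3, h5]
    rw [h6] at h4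
    linarith
  have h8 : 0 ≤ 4 / ((T : ℝ) * (T + 1)) ^ 2 := by positivity
  refine le_trans (mul_le_mul_of_nonneg_right h7 h8) ?_
  have h9 : (((T : ℝ) * (T + 1) / 2) ^ 2 * φ + 72 * α * φ * ((T : ℝ) ^ 2 * (T + 1))) *
      (4 / ((T : ℝ) * (T + 1)) ^ 2) = (1 + 288 * α / (T + 1)) * φ := by
    field_simp
    ring
  rw [h9]
  refine mul_le_mul_of_nonneg_right ?_ hφ0
  have : 288 * α / ((T : ℝ) + 1) ≤ 288 * α / T := by
    refine div_le_div_of_nonneg_left (by positivity) hT0 (by linarith)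
  linarith

end Pool.Agent.helper336_cube
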