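import Mathlib
import Pool.Agent.helper336_cube.Averaging

set_option autoImplicit false

namespace Pool.Agent.helper336_cube

open Finset

/-- Average of the kernel over the product of two dyadic windows.  A window `(j, a)` is the
interval of the integers from `a * 2 ^ j` to `(a + 1) * 2 ^ j - 1`. -/
noncomputable def dens (K : ℕ → ℕ → ℝ) (w w' : ℕ × ℕ) : ℝ :=
  (∑ r ∈ Finset.range (2 ^ w.1), ∑ r' ∈ Finset.range (2 ^ w'.1),
    K (w.2 * 2 ^ w.1 + r) (w'.2 * 2 ^ w'.1 + r')) / ((2 : ℝ) ^ w.1 * 2 ^ w'.1)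

lemma dens_nonneg (K : ℕ → ℕ → ℝ) (hK : ∀ i j, 0 ≤ K i j) (w w' : ℕ × ℕ) : 0 ≤ dens K w w' := by
  unfold dens
  exact div_nonneg (Finset.sum_nonneg fun _ _ => Finset.sum_nonneg fun _ _ => hK _ _)
    (by positivity)

lemma dens_symm (K K' : ℕ → ℕ → ℝ) (h : ∀ i j, K i j = K' j i) (w w' : ℕ × ℕ) :
    dens K w w' = dens K' w' w := by
  unfold dens
  rw [Finset.sum_comm, mul_comm ((2 : ℝ) ^ w.1)]
  congr 1
  refine Finset.sum_congr rfl fun _ _ => Finset.sum_congr rfl fun _ _ => h _ _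

lemma dens_zero (K : ℕ → ℕ → ℝ) (h : ∀ i j, K i j = 0) (w w' : ℕ × ℕ) : dens K w w' = 0 := by
  unfold dens
  rw [Finset.sum_eq_zero, zero_div]
  intro _ _
  exact Finset.sum_eq_zero fun _ _ => h _ _

lemma sum_window {M : Type*} [AddCommMonoid M] (f : ℕ → M) (j a : ℕ) :
    ∑ r ∈ Finset.range (2 ^ (j + 1)), f (a * 2 ^ (j + 1) + r) =
      ∑ r ∈ Finset.range (2 ^ j), f ((2 * a) * 2 ^ j + r) +
        ∑ r ∈ Finset.range (2 ^ j), f ((2 * a + 1) * 2 ^ j + r) := by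
  have e : 2 ^ (j + 1) = 2 ^ j + 2 ^ j := by ring
  rw [e, Finset.sum_range_add]
  congr 1
  · refine Finset.sum_congr rfl fun r _ => ?_
    congr 1; ring
  · refine Finset.sum_congr rfl fun r _ => ?_
    congr 1; ring

lemma dens_row (K : ℕ → ℕ → ℝ) (j a : ℕ) (w' : ℕ × ℕ) :
    dens K (j + 1, a) w' = (dens K (j, 2 * a) w' + dens K (j, 2 * a + 1) w') / 2 := by
  unfold dens
  simp only
  rw [sum_window (fun i => ∑ r' ∈ Finset.range (2 ^ w'.1), K i (w'.2 * 2 ^ w'.1 + r'))]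
  rw [pow_succ]
  field_simp

lemma dens_col (K : ℕ → ℕ → ℝ) (w : ℕ × ℕ) (j a : ℕ) :
    dens K w (j + 1, a) = (dens K w (j, 2 * a) + dens K w (j, 2 * a + 1)) / 2 := by
  rw [dens_symm K (fun i j => K j i) (fun _ _ => rfl), dens_row,
    dens_symm (fun i j => K j i) K (fun _ _ => rfl) (j, 2 * a),
    dens_symm (fun i j => K j i) K (fun _ _ => rfl) (j, 2 * a + 1)]

/-- The `q`-th descendant at relative depth `t` of a window. -/
def desc (w : ℕ × ℕ) (t q : ℕ) : ℕ × ℕ := (w.1 - t, w.2 * 2 ^ t + q)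

lemma mart_dens (K : ℕ → ℕ → ℝ) (hK : ∀ i j, 0 ≤ K i j) (T : ℕ) (w w' : ℕ × ℕ) (hw : T ≤ w.1)
    (hw' : T ≤ w'.1) :
    Mart T (fun t q t' q' => dens K (desc w t q) (desc w' t' q')) where
  nonneg := fun _ _ _ _ => dens_nonneg K hK _ _
  row := by
    intro t ht t' _ q q'
    have e : desc w t q = (w.1 - (t + 1) + 1, w.2 * 2 ^ t + q) := by
      unfold desc
      congr 1
      omega
    have e1 : desc w (t + 1) (2 * q) = (w.1 - (t + 1), 2 * (w.2 * 2 ^ t + q)) := by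
      unfold desc
      congr 1
      ring
    have e2 : desc w (t + 1) (2 * q + 1) = (w.1 - (t + 1), 2 * (w.2 * 2 ^ t + q) + 1) := by
      unfold desc
      congr 1
      ring
    rw [e, e1, e2, dens_row]
  col := by
    intro t _ t' ht' q q'
    have e : desc w' t' q' = (w'.1 - (t' + 1) + 1, w'.2 * 2 ^ t' + q') := by
      unfold desc
      congr 1
      omega
    have e1 : desc w' (t' + 1) (2 * q') = (w'.1 - (t' + 1), 2 * (w'.2 * 2 ^ t' + q')) := by
      unfold desc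
      congr 1
      ring
    have e2 : desc w' (t' + 1) (2 * q' + 1) =
        (w'.1 - (t' + 1), 2 * (w'.2 * 2 ^ t' + q') + 1) := by
      unfold desc
      congr 1
      ring
    rw [e, e1, e2, dens_col]

lemma desc_zero (w : ℕ × ℕ) : desc w 0 0 = w := by
  unfold desc
  simp

/-- Kernel between sides: `false` is the row side, `true` the column side. -/
def sideK (K : ℕ → ℕ → ℝ) : Bool → Bool → ℕ → ℕ → ℝ
  | false, true => K
  | true, false => fun i j => K j i
  | false, false => fun _ _ => 0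
  | true, true => fun _ _ => 0

lemma sideK_nonneg (K : ℕ → ℕ → ℝ) (hK : ∀ i j, 0 ≤ K i j) (s s' : Bool) (i j : ℕ) :
    0 ≤ sideK K s s' i j := by
  cases s <;> cases s' <;> simp [sideK, hK]

lemma sideK_symm (K : ℕ → ℕ → ℝ) (s s' : Bool) (i j : ℕ) :
    sideK K s s' i j = sideK K s' s j i := by
  cases s <;> cases s' <;> simp [sideK]

lemma sideK_same (K : ℕ → ℕ → ℝ) (s : Bool) (i j : ℕ) : sideK K s s i j = 0 := by
  cases s <;> simp [sideK]

/-- Density between windows on given sides. -/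
noncomputable def dens2 (K : ℕ → ℕ → ℝ) (s s' : Bool) (w w' : ℕ × ℕ) : ℝ :=
  dens (sideK K s s') w w'

lemma dens2_nonneg (K : ℕ → ℕ → ℝ) (hK : ∀ i j, 0 ≤ K i j) (s s' : Bool) (w w' : ℕ × ℕ) :
    0 ≤ dens2 K s s' w w' := dens_nonneg _ (sideK_nonneg K hK s s') _ _

lemma dens2_symm (K : ℕ → ℕ → ℝ) (s s' : Bool) (w w' : ℕ × ℕ) :
    dens2 K s s' w w' = dens2 K s' s w' w := dens_symm _ _ (sideK_symm K s s') _ _

lemma dens2_same (K : ℕ → ℕ → ℝ) (s : Bool) (w w' : ℕ × ℕ) : dens2 K s s w w' = 0 :=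
  dens_zero _ (sideK_same K s) _ _

end Pool.Agent.helper336_cube
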