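import Mathlib
import Pool.Agent.helper336_cube.Choose
import Pool.Agent.helper336_cube.Windows

set_option autoImplicit false

namespace Pool.Agent.helper336_cube

open Finset

/-- Vertices at level `k`: a cube vertex and a side. -/
abbrev VV (k : ℕ) := (Fin k → Bool) × Bool

/-- Weight coefficient according to the distance. -/
noncomputable def cc (D : ℝ) (n : ℕ) : ℝ := if n = 0 then D else if n = 1 then 1 else 0

lemma cc_nonneg {D : ℝ} (hD : 0 ≤ D) (n : ℕ) : 0 ≤ cc D n := by
  unfold cc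
  split_ifs
  · exact hD
  · exact zero_le_one
  · exact le_rfl

/-- Level weights. -/
noncomputable def lw (K : ℕ → ℕ → ℝ) (α D : ℝ) {k : ℕ} (Win : VV k → ℕ × ℕ) (x y : VV k) : ℝ :=
  cc D (hammingDist x.1 y.1) * (dens2 K x.2 y.2 (Win x) (Win y)) ^ α

/-- Coarse weights, depending on the choices of descendants. -/
noncomputable def gw (K : ℕ → ℕ → ℝ) (α D : ℝ) {k : ℕ} (Win : VV k → ℕ × ℕ) (x y : VV k)
    (ω ω' : (_ : ℕ) × ℕ) : ℝ :=
  cc D (hammingDist x.1 y.1) *
    cmax α (fun t q t' q' => dens2 K x.2 y.2 (desc (Win x) t q) (desc (Win y) t' q'))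
      ω.1 ω.2 ω'.1 ω'.2

/-- The sample space of scales and paths. -/
def Om (T : ℕ) : Finset ((_ : ℕ) × ℕ) :=
  (Finset.range T).sigma (fun t => Finset.range (2 ^ t))

/-- The probabilities. -/
noncomputable def pOm (T : ℕ) (ω : (_ : ℕ) × ℕ) : ℝ := wt T ω.1 / 2 ^ ω.1

lemma mem_Om {T : ℕ} {ω : (_ : ℕ) × ℕ} : ω ∈ Om T ↔ ω.1 < T ∧ ω.2 < 2 ^ ω.1 := by
  unfold Om
  rw [Finset.mem_sigma, Finset.mem_range, Finset.mem_range]

lemma pOm_nonneg (T : ℕ) (ω : (_ : ℕ) × ℕ) (hω : ω ∈ Om T) : 0 ≤ pOm T ω := by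
  unfold pOm
  exact div_nonneg (wt_nonneg (mem_Om.mp hω).1) (by positivity)

lemma pOm_sum {T : ℕ} (hT : 1 ≤ T) : ∑ ω ∈ Om T, pOm T ω = 1 := by
  unfold Om pOm
  rw [Finset.sum_sigma]
  simp only [Finset.sum_const, Finset.card_range, nsmul_eq_mul]
  rw [← wt_sum hT]
  refine Finset.sum_congr rfl ?_
  intro t _
  push_cast
  field_simp

lemma sum_Om (T : ℕ) (C : ℕ → ℕ → ℕ → ℕ → ℝ) :
    ∑ ω ∈ Om T, ∑ ω' ∈ Om T, pOm T ω * pOm T ω' * C ω.1 ω.2 ω'.1 ω'.2 =
    ∑ t ∈ Finset.range T, ∑ t' ∈ Finset.range T, wt T t * wt T t' *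
      ((∑ q ∈ Finset.range (2 ^ t), ∑ q' ∈ Finset.range (2 ^ t'), C t q t' q') /
        ((2 : ℝ) ^ t * 2 ^ t')) := by
  unfold Om pOm
  rw [Finset.sum_sigma]
  refine Finset.sum_congr rfl ?_
  intro t _
  have h1 : ∀ q ∈ Finset.range (2 ^ t),
      ∑ ω' ∈ (Finset.range T).sigma (fun t => Finset.range (2 ^ t)),
        wt T t / 2 ^ t * (wt T ω'.1 / 2 ^ ω'.1) * C t q ω'.1 ω'.2 =
      ∑ t' ∈ Finset.range T, ∑ q' ∈ Finset.range (2 ^ t'),
        wt T t / 2 ^ t * (wt T t' / 2 ^ t') * C t q t' q' := by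
    intro q _
    rw [Finset.sum_sigma]
  rw [Finset.sum_congr rfl h1, Finset.sum_comm]
  refine Finset.sum_congr rfl ?_
  intro t' _
  rw [Finset.sum_div, Finset.mul_sum]
  refine Finset.sum_congr rfl ?_
  intro q _
  rw [Finset.sum_div, Finset.mul_sum]
  refine Finset.sum_congr rfl ?_
  intro q' _
  field_simp

lemma cmax_nonneg {α : ℝ} {H : ℕ → ℕ → ℕ → ℕ → ℝ} (hH : ∀ t q t' q', 0 ≤ H t q t' q')
    (t q t' q' : ℕ) : 0 ≤ cmax α H t q t' q' := by
  unfold cmax
  exact le_max_of_le_left (le_max_of_le_left (Real.rpow_nonneg (hH _ _ _ _) _))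

lemma cmax_swap (α : ℝ) (H H' : ℕ → ℕ → ℕ → ℕ → ℝ) (h : ∀ t q t' q', H t q t' q' = H' t' q' t q)
    (t q t' q' : ℕ) : cmax α H t q t' q' = cmax α H' t' q' t q := by
  unfold cmax
  rw [max_max_max_comm]
  simp only [h]

lemma le_cmax {α : ℝ} {H : ℕ → ℕ → ℕ → ℕ → ℝ} (t q t' q' : ℕ) (b b' : Bool) :
    (H (t + 1) (2 * q + b.toNat) (t' + 1) (2 * q' + b'.toNat)) ^ α ≤ cmax α H t q t' q' := by
  unfold cmax
  cases b <;> cases b' <;> simp

lemma good_pair {V : Type*} [DecidableEq V] {W : V → V → ℝ} (hW : ∀ a b, W a b = W b a) {z : ℝ}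
    (hG : Good W z) {a b : V} (hab : a ≠ b) : W a b < z ^ 2 := by
  have h1 := hG {a, b}
  have ha : a ∈ ({a, b} : Finset V) := by simp
  rw [mu_rec' W hW z {a, b} ha] at h1
  have e1 : ({a, b} : Finset V).erase a = {b} := by
    rw [Finset.erase_insert]
    simpa using hab
  rw [e1] at h1
  have hb : b ∈ ({b} : Finset V) := by simp
  rw [mu_rec' W hW z {b} hb] at h1
  simp only [Finset.erase_singleton, mu_empty, Finset.sum_empty, Finset.sum_singleton] at h1
  nlinarith

section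

variable {K : ℕ → ℕ → ℝ} {α D : ℝ}

lemma lw_symm {k : ℕ} (Win : VV k → ℕ × ℕ) (x y : VV k) :
    lw K α D Win x y = lw K α D Win y x := by
  unfold lw
  rw [hammingDist_comm, dens2_symm]

lemma lw_nonneg (hK : ∀ i j, 0 ≤ K i j) (hD : 0 ≤ D) {k : ℕ} (Win : VV k → ℕ × ℕ) (x y : VV k) :
    0 ≤ lw K α D Win x y :=
  mul_nonneg (cc_nonneg hD _) (Real.rpow_nonneg (dens2_nonneg K hK _ _ _ _) _)

lemma gw_symm {k : ℕ} (Win : VV k → ℕ × ℕ) (x y : VV k) (ω ω' : (_ : ℕ) × ℕ) :
    gw K α D Win x y ω ω' = gw K α D Win y x ω' ω := by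
  unfold gw
  rw [hammingDist_comm, cmax_swap]
  intro t q t' q'
  exact dens2_symm K _ _ _ _

lemma gw_nonneg (hK : ∀ i j, 0 ≤ K i j) (hD : 0 ≤ D) {k : ℕ} (Win : VV k → ℕ × ℕ) (x y : VV k)
    (ω ω' : (_ : ℕ) × ℕ) : 0 ≤ gw K α D Win x y ω ω' :=
  mul_nonneg (cc_nonneg hD _) (cmax_nonneg (fun _ _ _ _ => dens2_nonneg K hK _ _ _ _) _ _ _ _)

/-- The averaged coarse weights are at most `(1 + 288 α / T)` times the level weights. -/
lemma avg_gw_le (hK : ∀ i j, 0 ≤ K i j) (hD : 0 ≤ D) (hα0 : 0 < α) (hα1 : α ≤ 1 / 2) {T : ℕ}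
    (hT : 1 ≤ T) {k : ℕ} (Win : VV k → ℕ × ℕ) (hWin : ∀ x, T ≤ (Win x).1) (x y : VV k) :
    ∑ ω ∈ Om T, ∑ ω' ∈ Om T, pOm T ω * pOm T ω' * gw K α D Win x y ω ω' ≤
      (1 + 288 * α / T) * lw K α D Win x y := by
  have h1 : ∑ ω ∈ Om T, ∑ ω' ∈ Om T, pOm T ω * pOm T ω' * gw K α D Win x y ω ω' =
      cc D (hammingDist x.1 y.1) * ∑ ω ∈ Om T, ∑ ω' ∈ Om T, pOm T ω * pOm T ω' *
        (fun t q t' q' => cmax α (fun t q t' q' =>
          dens2 K x.2 y.2 (desc (Win x) t q) (desc (Win y) t' q')) t q t' q')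
        ω.1 ω.2 ω'.1 ω'.2 := by
    rw [Finset.mul_sum]
    refine Finset.sum_congr rfl ?_
    intro ω _
    rw [Finset.mul_sum]
    refine Finset.sum_congr rfl ?_
    intro ω' _
    unfold gw
    ring
  rw [h1, sum_Om]
  have hM := mart_dens (sideK K x.2 y.2) (sideK_nonneg K hK _ _) T (Win x) (Win y) (hWin x) (hWin y)
  have h2 := avg_bound hT hM hα0 hα1
  simp only [desc_zero] at h2
  unfold lw
  have h3 := mul_le_mul_of_nonneg_left h2 (cc_nonneg hD (hammingDist x.1 y.1))
  refine le_trans h3 (le_of_eq ?_)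
  unfold dens2
  ring

/-- New windows after a step. -/
def newWin {k : ℕ} (Win : VV k → ℕ × ℕ) (s : VV k → (_ : ℕ) × ℕ) (x : VV (k + 1)) : ℕ × ℕ :=
  desc (Win (Fin.init x.1, x.2)) ((s (Fin.init x.1, x.2)).1 + 1)
    (2 * (s (Fin.init x.1, x.2)).2 + (x.1 (Fin.last k)).toNat)

lemma hd_split {k : ℕ} (u v : Fin (k + 1) → Bool) :
    hammingDist u v = hammingDist (Fin.init u : Fin k → Bool) (Fin.init v) +
      (if u (Fin.last k) = v (Fin.last k) then 0 else 1) := by
  unfold hammingDist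
  rw [Finset.card_filter, Finset.card_filter, Fin.sum_univ_castSucc]
  congr 1
  by_cases h : u (Fin.last k) = v (Fin.last k)
  · simp [h]
  · simp [h]

/-- One level of the induction.  The coefficient `c` decreases by the factor
`1 + 288 α / T` at each level, which absorbs the growth of the potential. -/
theorem level_step (hK : ∀ i j, 0 ≤ K i j) (hD : 0 < D) (hα0 : 0 < α) (hα1 : α ≤ 1 / 2) {T : ℕ}
    (hT : 1 ≤ T) {k : ℕ} (Win : VV k → ℕ × ℕ) (hWin : ∀ x, T ≤ (Win x).1) {z δ c : ℝ}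
    (hδ : 0 < δ) (hz : 0 ≤ z) (hz1 : z + 2 * δ ≤ 1) (hc : 0 ≤ c)
    (hDδ : 1 / D ≤ δ ^ 2 / 4)
    (hG : Good (fun x y => c * (1 + 288 * α / T) * lw K α D Win x y) z) :
    ∃ s : VV k → (_ : ℕ) × ℕ, (∀ x, s x ∈ Om T) ∧
      Good (fun x y => c * lw K α D (newWin Win s) x y) (z + 2 * δ) := by
  have hT0 : (0 : ℝ) < T := by
    have : 0 < T := hT
    exact_mod_cast this
  have hκ0 : 0 ≤ 1 + 288 * α / T := by positivity
  -- step 1: averaged coarse weights are good
  have hgood1 : Good (fun x y => ∑ ω ∈ Om T, ∑ ω' ∈ Om T, pOm T ω * pOm T ω' *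
      (c * gw K α D Win x y ω ω')) (z + δ) := by
    refine good_compare (B := Unit) (fun x y => c * (1 + 288 * α / T) * lw K α D Win x y) _
      (fun a b => by rw [lw_symm])
      (fun a b => mul_nonneg (mul_nonneg hc hκ0) (lw_nonneg hK hD.le Win a b))
      ?_ ?_ (fun x => x) (fun _ => ()) (fun x y h _ => h) z δ 0 (by linarith) hδ
      le_rfl (by linarith) hG ?_ ?_
    · intro a b
      rw [Finset.sum_comm]
      refine Finset.sum_congr rfl fun ω _ => Finset.sum_congr rfl fun ω' _ => ?_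
      rw [gw_symm Win a b]
      ring
    · intro a b
      refine Finset.sum_nonneg fun ω hω => Finset.sum_nonneg fun ω' hω' => ?_
      exact mul_nonneg (mul_nonneg (pOm_nonneg T ω hω) (pOm_nonneg T ω' hω'))
        (mul_nonneg hc (gw_nonneg hK hD.le Win a b ω ω'))
    · intro x y _ _
      have h1 := avg_gw_le hK hD.le hα0 hα1 hT Win hWin x y
      have h2 : ∑ ω ∈ Om T, ∑ ω' ∈ Om T, pOm T ω * pOm T ω' * (c * gw K α D Win x y ω ω') =
          c * ∑ ω ∈ Om T, ∑ ω' ∈ Om T, pOm T ω * pOm T ω' * gw K α D Win x y ω ω' := by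
        rw [Finset.mul_sum]
        refine Finset.sum_congr rfl fun ω _ => ?_
        rw [Finset.mul_sum]
        refine Finset.sum_congr rfl fun ω' _ => ?_
        ring
      rw [h2, add_zero, one_mul, mul_assoc]
      exact mul_le_mul_of_nonneg_left h1 hc
    · intro x
      simp only [if_true, Finset.sum_const_zero]
      positivity
  -- step 2: choose
  obtain ⟨s, hs, hgs⟩ := good_choose_all (z + δ) (fun _ => Om T) (fun _ => pOm T)
    (fun _ => pOm_nonneg T) (fun _ => pOm_sum hT)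
    (fun x y ω ω' => c * gw K α D Win x y ω ω')
    (fun x y ω ω' => by rw [gw_symm])
    (fun x y ω ω' => mul_nonneg hc (gw_nonneg hK hD.le Win x y ω ω')) hgood1
  refine ⟨s, hs, ?_⟩
  have hsymm2 : ∀ a b : VV k, c * gw K α D Win a b (s a) (s b) =
      c * gw K α D Win b a (s b) (s a) :=
    fun a b => by rw [gw_symm Win a b (s a) (s b)]
  -- the potential of new windows is at most cmax
  have hle : ∀ x y : VV (k + 1),
      (dens2 K x.2 y.2 (newWin Win s x) (newWin Win s y)) ^ α ≤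
      cmax α (fun t q t' q' => dens2 K x.2 y.2 (desc (Win (Fin.init x.1, x.2)) t q)
        (desc (Win (Fin.init y.1, y.2)) t' q'))
        (s (Fin.init x.1, x.2)).1 (s (Fin.init x.1, x.2)).2
        (s (Fin.init y.1, y.2)).1 (s (Fin.init y.1, y.2)).2 := by
    intro x y
    exact le_cmax (H := fun t q t' q' => dens2 K x.2 y.2 (desc (Win (Fin.init x.1, x.2)) t q)
        (desc (Win (Fin.init y.1, y.2)) t' q')) _ _ _ _ (x.1 (Fin.last k)) (y.1 (Fin.last k))
  have he : z + 2 * δ = z + δ + δ := by ring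
  rw [he]
  refine good_compare (B := Bool) (fun x y => c * gw K α D Win x y (s x) (s y))
    (fun x y => c * lw K α D (newWin Win s) x y) hsymm2
    (fun a b => mul_nonneg hc (gw_nonneg hK hD.le Win a b _ _))
    (fun a b => by rw [lw_symm]) (fun a b => mul_nonneg hc (lw_nonneg hK hD.le _ a b))
    (fun x => (Fin.init x.1, x.2))
    (fun x => x.1 (Fin.last k)) ?_ (z + δ) δ 0 (by linarith) hδ le_rfl (by linarith) hgs ?_ ?_
  · intro x y hxy hl
    have h1 : (Fin.init x.1 : Fin k → Bool) = Fin.init y.1 := (Prod.mk.inj hxy).1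
    have h2 : x.2 = y.2 := (Prod.mk.inj hxy).2
    refine Prod.ext ?_ h2
    rw [← Fin.snoc_init_self x.1, ← Fin.snoc_init_self y.1, h1, hl]
  · intro x y _ hl
    rw [add_zero, one_mul]
    refine mul_le_mul_of_nonneg_left ?_ hc
    unfold lw gw
    rw [hd_split x.1 y.1, if_pos hl, add_zero]
    exact mul_le_mul_of_nonneg_left (hle x y) (cc_nonneg hD.le _)
  · intro x
    -- the only possibly nonzero cross term
    set y0 : VV (k + 1) := (Fin.snoc (Fin.init x.1 : Fin k → Bool) (!(x.1 (Fin.last k))), !x.2)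
      with hy0
    have hzero : ∀ y : VV (k + 1), y ≠ y0 →
        (if x.1 (Fin.last k) = y.1 (Fin.last k) then 0
          else c * lw K α D (newWin Win s) x y) = 0 := by
      intro y hy
      split_ifs with hl
      · rfl
      · unfold lw
        rw [hd_split x.1 y.1, if_neg hl]
        by_cases hin : (Fin.init x.1 : Fin k → Bool) = Fin.init y.1
        · have hside : x.2 = y.2 := by
            by_contra hne
            apply hy
            rw [hy0]
            have hbit : y.1 (Fin.last k) = !(x.1 (Fin.last k)) := by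
              cases h1 : x.1 (Fin.last k) <;> cases h2 : y.1 (Fin.last k) <;> simp_all
            refine Prod.ext ?_ ?_
            · calc y.1 = Fin.snoc (Fin.init y.1 : Fin k → Bool) (y.1 (Fin.last k)) :=
                    (Fin.snoc_init_self _).symm
                _ = Fin.snoc (Fin.init x.1 : Fin k → Bool) (!(x.1 (Fin.last k))) := by
                    rw [hin, hbit]
            · change y.2 = !x.2
              cases h1 : x.2 <;> cases h2 : y.2 <;> simp_all
          rw [hside, dens2_same, Real.zero_rpow hα0.ne', mul_zero, mul_zero]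
        · have h1 : hammingDist (Fin.init x.1 : Fin k → Bool) (Fin.init y.1) ≠ 0 := by
            rw [Ne, hammingDist_eq_zero]
            exact hin
          have : cc D (hammingDist (Fin.init x.1 : Fin k → Bool) (Fin.init y.1) + 1) = 0 := by
            unfold cc
            rw [if_neg (by omega), if_neg (by omega)]
          rw [this, zero_mul, mul_zero]
    have hsum : ∑ y, (if x.1 (Fin.last k) = y.1 (Fin.last k) then 0
        else c * lw K α D (newWin Win s) x y) =
        (if x.1 (Fin.last k) = y0.1 (Fin.last k) then 0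
          else c * lw K α D (newWin Win s) x y0) := by
      refine Finset.sum_eq_single y0 ?_ ?_
      · intro y _ hy
        exact hzero y hy
      · intro h
        exact absurd (Finset.mem_univ _) h
    rw [hsum]
    have hl0 : ¬ x.1 (Fin.last k) = y0.1 (Fin.last k) := by
      rw [hy0]
      simp
    rw [if_neg hl0]
    refine le_trans ?_ hDδ
    have hinit : (Fin.init y0.1 : Fin k → Bool) = Fin.init x.1 := by
      rw [hy0]
      simp
    have hcc : lw K α D (newWin Win s) x y0 =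
        (dens2 K x.2 y0.2 (newWin Win s x) (newWin Win s y0)) ^ α := by
      unfold lw
      rw [hd_split x.1 y0.1, if_neg hl0, hinit, hammingDist_self]
      unfold cc
      simp
    rw [hcc]
    refine le_trans (mul_le_mul_of_nonneg_left (hle x y0) hc) ?_
    -- compare with the diagonal coarse weight
    have hne : ((Fin.init x.1 : Fin k → Bool), x.2) ≠ (Fin.init y0.1, y0.2) := by
      intro h
      have : x.2 = y0.2 := (Prod.mk.inj h).2
      rw [hy0] at this
      simp at this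
    have hp := good_pair hsymm2 hgs hne
    have hz2 : (z + δ) ^ 2 ≤ 1 := by
      have h1 : 0 ≤ z + δ := by linarith
      have h2 : z + δ ≤ 1 := by linarith
      nlinarith
    unfold gw at hp
    simp only at hp
    rw [hinit, hammingDist_self] at hp
    have hc0 : cc D 0 = D := by simp [cc]
    rw [hc0] at hp
    rw [le_div_iff₀ hD]
    rw [hinit]
    linarith

end

end Pool.Agent.helper336_cube
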