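import Mathlib
import Pool.Agent.helper336_cube.Levels

set_option autoImplicit false

namespace Pool.Agent.helper336_cube

open Finset

/-- The numerical value of a binary word, last digit least significant. -/
def vl : (k : ℕ) → (Fin k → Bool) → ℕ
  | 0, _ => 0
  | k + 1, u => 2 * vl k (Fin.init u) + (u (Fin.last k)).toNat

lemma vl_succ (k : ℕ) (u : Fin (k + 1) → Bool) :
    vl (k + 1) u = 2 * vl k (Fin.init u) + (u (Fin.last k)).toNat := rfl

lemma vl_lt : ∀ (k : ℕ) (u : Fin k → Bool), vl k u < 2 ^ k := by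
  intro k
  induction k with
  | zero => intro u; simp [vl]
  | succ k ih =>
    intro u
    rw [vl_succ, pow_succ]
    have h1 := ih (Fin.init u)
    have h2 : (u (Fin.last k)).toNat ≤ 1 := Bool.toNat_le _
    omega

lemma vl_inj : ∀ (k : ℕ) (u v : Fin k → Bool), vl k u = vl k v → u = v := by
  intro k
  induction k with
  | zero => intro u v _; exact Subsingleton.elim _ _
  | succ k ih =>
    intro u v h
    rw [vl_succ, vl_succ] at h
    have h1 : (u (Fin.last k)).toNat ≤ 1 := Bool.toNat_le _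
    have h2 : (v (Fin.last k)).toNat ≤ 1 := Bool.toNat_le _
    have h3 : vl k (Fin.init u) = vl k (Fin.init v) := by omega
    have h4 : (u (Fin.last k)).toNat = (v (Fin.last k)).toNat := by omega
    have h5 := ih _ _ h3
    have h6 : u (Fin.last k) = v (Fin.last k) := by
      cases hu : u (Fin.last k) <;> cases hv : v (Fin.last k) <;> simp_all
    rw [← Fin.snoc_init_self u, ← Fin.snoc_init_self v, h5, h6]

/-- Left end of a window. -/
def lo (w : ℕ × ℕ) : ℕ := w.2 * 2 ^ w.1

/-- Right end (exclusive) of a window. -/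
def hi (w : ℕ × ℕ) : ℕ := (w.2 + 1) * 2 ^ w.1

lemma lo_desc (w : ℕ × ℕ) (t q : ℕ) (ht : t ≤ w.1) : lo w ≤ lo (desc w t q) := by
  unfold lo desc
  simp only
  have e : 2 ^ w.1 = 2 ^ t * 2 ^ (w.1 - t) := by
    rw [← pow_add]; congr 1; omega
  rw [e, ← mul_assoc]
  exact Nat.mul_le_mul_right _ (Nat.le_add_right _ _)

lemma hi_desc (w : ℕ × ℕ) (t q : ℕ) (ht : t ≤ w.1) (hq : q < 2 ^ t) : hi (desc w t q) ≤ hi w := by
  unfold hi desc
  simp only
  have e : 2 ^ w.1 = 2 ^ t * 2 ^ (w.1 - t) := by
    rw [← pow_add]; congr 1; omega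
  rw [e, ← mul_assoc]
  refine Nat.mul_le_mul_right _ ?_
  have : (w.2 + 1) * 2 ^ t = w.2 * 2 ^ t + 2 ^ t := by ring
  omega

/-- Good weights for a two-element vertex set. -/
lemma good_small {V : Type*} [DecidableEq V] {W : V → V → ℝ} (hW : ∀ a b, W a b = W b a) {z : ℝ}
    (hz : 0 < z) (hcard : ∀ S : Finset V, S.card ≤ 2) (hlt : ∀ a b, a ≠ b → W a b < z ^ 2) :
    Good W z := by
  intro S
  have h2 := hcard S
  have hc : S.card = 0 ∨ S.card = 1 ∨ S.card = 2 := by omega
  rcases hc with h | h | h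
  · rw [Finset.card_eq_zero] at h
    subst h
    rw [mu_empty]
    norm_num
  · obtain ⟨a, rfl⟩ := Finset.card_eq_one.mp h
    rw [mu_rec' W hW z {a} (Finset.mem_singleton_self a)]
    simp only [Finset.erase_singleton, mu_empty, Finset.sum_empty]
    linarith
  · obtain ⟨a, b, hab, rfl⟩ := Finset.card_eq_two.mp h
    rw [mu_rec' W hW z {a, b} (Finset.mem_insert_self a {b})]
    have e1 : ({a, b} : Finset V).erase a = {b} := by
      rw [Finset.erase_insert]
      simpa using hab
    rw [e1, mu_rec' W hW z {b} (Finset.mem_singleton_self b)]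
    simp only [Finset.erase_singleton, mu_empty, Finset.sum_empty, Finset.sum_singleton]
    have := hlt a b hab
    nlinarith

section

variable {K : ℕ → ℕ → ℝ} {α D : ℝ}

/-- The induction over levels, with the order invariants.  The weights carry the coefficient
`(1 + 288 * α / T) ^ (d - k)`, which pays for the growth of the densities at the later levels. -/
theorem levels (hK : ∀ i j, 0 ≤ K i j) (hD : 0 < D) (hα0 : 0 < α) (hα1 : α ≤ 1 / 2) {T d : ℕ}
    (hT : 1 ≤ T) (L : Bool → ℕ) (hL : ∀ b, d * T ≤ L b) {z δ : ℝ}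
    (hδ : 0 < δ) (hz : 0 < z) (hz1 : z + 2 * d * δ ≤ 1)
    (hDδ : 1 / D ≤ δ ^ 2 / 4)
    (hε : (1 + 288 * α / T) ^ d * (D * (dens K (L false, 0) (L true, 0)) ^ α) < z ^ 2) :
    ∀ k, k ≤ d → ∃ Win : VV k → ℕ × ℕ,
      Good (fun x y => (1 + 288 * α / T) ^ (d - k) * lw K α D Win x y) (z + 2 * k * δ) ∧
      (∀ x, (d - k) * T ≤ (Win x).1) ∧
      (∀ u v s, vl k u < vl k v → hi (Win (u, s)) ≤ lo (Win (v, s))) ∧
      (∀ x, hi (Win x) ≤ 2 ^ L x.2) := by
  have hκ0 : 0 ≤ 1 + 288 * α / T := by positivity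
  intro k
  induction k with
  | zero =>
    intro _
    refine ⟨fun x => (L x.2, 0), ?_, ?_, ?_, ?_⟩
    · refine good_small (fun a b => by rw [lw_symm]) (by simpa using hz) ?_ ?_
      · intro S
        refine le_trans (Finset.card_le_univ S) ?_
        simp [VV]
      · intro a b hab
        have h1 : a.1 = b.1 := Subsingleton.elim _ _
        have h2 : a.2 ≠ b.2 := by
          intro h
          exact hab (Prod.ext h1 h)
        have e0 : z + 2 * ((0 : ℕ) : ℝ) * δ = z := by simp
        rw [e0, Nat.sub_zero]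
        unfold lw
        rw [h1, hammingDist_self]
        have hc0 : cc D 0 = D := by simp [cc]
        rw [hc0]
        have h3 : dens2 K a.2 b.2 (L a.2, 0) (L b.2, 0) = dens K (L false, 0) (L true, 0) := by
          cases ha : a.2 <;> cases hb : b.2
          · rw [ha, hb] at h2; exact absurd rfl h2
          · rfl
          · rw [dens2_symm]; rfl
          · rw [ha, hb] at h2; exact absurd rfl h2
        rw [h3]
        exact hε
    · intro x
      simpa using hL x.2
    · intro u v s h
      simp [vl] at h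
    · intro x
      simp [hi]
  | succ k ih =>
    intro hk
    obtain ⟨Win, hG, hh, ho, hc⟩ := ih (by omega)
    have hhT : ∀ x, T ≤ (Win x).1 := by
      intro x
      refine le_trans ?_ (hh x)
      have : 1 ≤ d - k := by omega
      nlinarith
    have hkd : (k : ℝ) + 1 ≤ d := by exact_mod_cast hk
    have hkd2 : z + 2 * k * δ + 2 * δ ≤ 1 := by nlinarith
    have hzk : 0 ≤ z + 2 * k * δ := by positivity
    have hco : (1 + 288 * α / T) ^ (d - k) =
        (1 + 288 * α / T) ^ (d - (k + 1)) * (1 + 288 * α / T) := by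
      rw [← pow_succ]
      congr 1
      omega
    rw [hco] at hG
    obtain ⟨s, hs, hG'⟩ := level_step hK hD hα0 hα1 hT Win hhT hδ hzk hkd2
      (pow_nonneg hκ0 (d - (k + 1))) hDδ hG
    have hs1 : ∀ x, (s x).1 + 1 ≤ (Win x).1 := by
      intro x
      have h1 := (mem_Om.mp (hs x)).1
      have h2 := hhT x
      omega
    have hs2 : ∀ (x : VV k) (b : Bool), 2 * (s x).2 + b.toNat < 2 ^ ((s x).1 + 1) := by
      intro x b
      have h1 := (mem_Om.mp (hs x)).2
      have h2 : b.toNat ≤ 1 := Bool.toNat_le _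
      rw [pow_succ]
      omega
    refine ⟨newWin Win s, ?_, ?_, ?_, ?_⟩
    · have e : z + 2 * ((k + 1 : ℕ) : ℝ) * δ = z + 2 * k * δ + 2 * δ := by
        push_cast; ring
      rw [e]
      exact hG'
    · intro x
      unfold newWin desc
      simp only
      have h1 := hh (Fin.init x.1, x.2)
      have h2 := (mem_Om.mp (hs (Fin.init x.1, x.2))).1
      have h3 : (d - k) * T = (d - (k + 1)) * T + T := by
        have : d - k = (d - (k + 1)) + 1 := by omega
        rw [this]; ring
      omega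
    · intro u v sd huv
      rw [vl_succ, vl_succ] at huv
      have hu1 : (u (Fin.last k)).toNat ≤ 1 := Bool.toNat_le _
      have hv1 : (v (Fin.last k)).toNat ≤ 1 := Bool.toNat_le _
      rcases Nat.lt_or_ge (vl k (Fin.init u)) (vl k (Fin.init v)) with h | h
      · have h1 := ho (Fin.init u) (Fin.init v) sd h
        have h2 : hi (newWin Win s (u, sd)) ≤ hi (Win (Fin.init u, sd)) :=
          hi_desc _ _ _ (hs1 _) (hs2 _ _)
        have h3 : lo (Win (Fin.init v, sd)) ≤ lo (newWin Win s (v, sd)) :=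
          lo_desc _ _ _ (hs1 _)
        omega
      · have heq : vl k (Fin.init u) = vl k (Fin.init v) := by omega
        have hin := vl_inj k _ _ heq
        have hbu : (u (Fin.last k)).toNat = 0 := by omega
        have hbv : (v (Fin.last k)).toNat = 1 := by omega
        unfold newWin desc hi lo
        simp only
        rw [hin, hbu, hbv]
        refine Nat.mul_le_mul_right _ (le_of_eq ?_)
        ring
    · intro x
      refine le_trans ?_ (hc (Fin.init x.1, x.2))
      exact hi_desc _ _ _ (hs1 _) (hs2 _ _)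

/-- Final selection of leaves. -/
theorem leaves (hK : ∀ i j, 0 ≤ K i j) (hK1 : ∀ i j, K i j ≤ 1) (hD : 0 < D) (hα0 : 0 < α)
    (hα1 : α ≤ 1 / 2) {k : ℕ} (Win : VV k → ℕ × ℕ) {z δ : ℝ} (hδ : 0 < δ) (hz0 : 0 ≤ z)
    (hz : z + δ ≤ 1) (hG : Good (lw K α D Win) z) :
    ∃ s : VV k → ℕ, (∀ x, s x < 2 ^ (Win x).1) ∧
      ∀ u v : Fin k → Bool, hammingDist u v = 1 →
        K (lo (Win (u, false)) + s (u, false)) (lo (Win (v, true)) + s (v, true)) < 1 := by
  set G : VV k → VV k → ℕ → ℕ → ℝ := fun x y r r' =>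
    cc D (hammingDist x.1 y.1) * sideK K x.2 y.2 (lo (Win x) + r) (lo (Win y) + r') with hGdef
  have hGs : ∀ x y r r', G x y r r' = G y x r' r := by
    intro x y r r'
    simp only [hGdef]
    rw [hammingDist_comm, sideK_symm]
  have hG0 : ∀ x y r r', 0 ≤ G x y r r' := fun x y r r' =>
    mul_nonneg (cc_nonneg hD.le _) (sideK_nonneg K hK _ _ _ _)
  have hp1 : ∀ x : VV k, ∑ _r ∈ Finset.range (2 ^ (Win x).1), (1 : ℝ) / 2 ^ (Win x).1 = 1 := by
    intro x
    rw [Finset.sum_const, Finset.card_range, nsmul_eq_mul]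
    push_cast
    field_simp
  have havg : ∀ x y, ∑ r ∈ Finset.range (2 ^ (Win x).1), ∑ r' ∈ Finset.range (2 ^ (Win y).1),
      (1 : ℝ) / 2 ^ (Win x).1 * (1 / 2 ^ (Win y).1) * G x y r r' =
      cc D (hammingDist x.1 y.1) * dens2 K x.2 y.2 (Win x) (Win y) := by
    intro x y
    unfold dens2 dens
    rw [← mul_div_assoc (cc D (hammingDist x.1 y.1)), Finset.mul_sum, Finset.sum_div]
    refine Finset.sum_congr rfl fun r _ => ?_
    rw [Finset.mul_sum, Finset.sum_div]
    refine Finset.sum_congr rfl fun r' _ => ?_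
    simp only [hGdef, lo]
    field_simp
  have hd1 : ∀ s s' w w', dens2 K s s' w w' ≤ 1 := by
    intro s s' w w'
    unfold dens2 dens
    rw [div_le_one (by positivity)]
    have hb : ∀ i j, sideK K s s' i j ≤ 1 := by
      intro i j
      cases s <;> cases s' <;> simp [sideK, hK1]
    calc ∑ r ∈ Finset.range (2 ^ w.1), ∑ r' ∈ Finset.range (2 ^ w'.1),
          sideK K s s' (w.2 * 2 ^ w.1 + r) (w'.2 * 2 ^ w'.1 + r')
        ≤ ∑ r ∈ Finset.range (2 ^ w.1), ∑ r' ∈ Finset.range (2 ^ w'.1), (1 : ℝ) :=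
          Finset.sum_le_sum fun _ _ => Finset.sum_le_sum fun _ _ => hb _ _
      _ = (2 : ℝ) ^ w.1 * 2 ^ w'.1 := by simp
  have hgood1 : Good (fun x y => ∑ r ∈ Finset.range (2 ^ (Win x).1),
      ∑ r' ∈ Finset.range (2 ^ (Win y).1),
      (1 : ℝ) / 2 ^ (Win x).1 * (1 / 2 ^ (Win y).1) * G x y r r') (z + δ) := by
    refine good_compare (B := Unit) (lw K α D Win) _ (lw_symm Win) (lw_nonneg hK hD.le Win)
      ?_ ?_ (fun x => x) (fun _ => ()) (fun x y h _ => h) z δ 0 (by linarith) hδ
      le_rfl (by linarith) hG ?_ ?_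
    · intro a b
      simp only [havg]
      rw [hammingDist_comm, dens2_symm]
    · intro a b
      simp only [havg]
      exact mul_nonneg (cc_nonneg hD.le _) (dens2_nonneg K hK _ _ _ _)
    · intro x y _ _
      simp only [havg]
      rw [add_zero, one_mul]
      unfold lw
      refine mul_le_mul_of_nonneg_left ?_ (cc_nonneg hD.le _)
      have h0 := dens2_nonneg K hK x.2 y.2 (Win x) (Win y)
      have h1 := hd1 x.2 y.2 (Win x) (Win y)
      rcases h0.eq_or_lt with h | h
      · rw [← h, Real.zero_rpow hα0.ne']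
      · calc dens2 K x.2 y.2 (Win x) (Win y) = (dens2 K x.2 y.2 (Win x) (Win y)) ^ (1 : ℝ) :=
              (Real.rpow_one _).symm
          _ ≤ (dens2 K x.2 y.2 (Win x) (Win y)) ^ α :=
              Real.rpow_le_rpow_of_exponent_ge h h1 (by linarith)
    · intro x
      simp only [if_true, Finset.sum_const_zero]
      positivity
  obtain ⟨s, hs, hgs⟩ := good_choose_all (z + δ) (fun x => Finset.range (2 ^ (Win x).1))
    (fun x _ => (1 : ℝ) / 2 ^ (Win x).1) (fun x _ _ => by positivity) hp1 G hGs hG0 hgood1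
  refine ⟨s, fun x => Finset.mem_range.mp (hs x), ?_⟩
  intro u v huv
  have hne : ((u, false) : VV k) ≠ (v, true) := by
    intro h
    have := (Prod.mk.inj h).2
    simp at this
  have hp := good_pair (fun a b => hGs a b (s a) (s b)) hgs hne
  have hz2 : (z + δ) ^ 2 ≤ 1 := by
    have h1 : 0 ≤ z + δ := by linarith
    nlinarith
  simp only [hGdef] at hp
  rw [huv] at hp
  have hc1 : cc D 1 = 1 := by simp [cc]
  rw [hc1, one_mul] at hp
  simp only [sideK] at hp
  linarith

end

end Pool.Agent.helper336_cube
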