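import Mathlib
import Pool.Agent.helper336_cube.Transversal

set_option autoImplicit false

namespace Pool.Agent.helper336_cube

open Finset

/-- The one-sided theorem: in a very sparse bad relation there is an ordered copy of the
cube (rows and columns in lexicographic order) avoiding all bad pairs. -/
theorem transversal (d T e m : ℕ) (hT : 1 ≤ T) (hm : 144 * d ≤ m * T)
    (he : 4 * m + 4 * Nat.log 2 (d + 1) + 20 ≤ e)
    (L0 L1 : ℕ) (hL0 : d * T ≤ L0) (hL1 : d * T ≤ L1) (bad : ℕ → ℕ → Bool)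
    (hbad : ∀ j, j < 2 ^ L1 →
      2 ^ e * ((Finset.range (2 ^ L0)).filter (fun i => bad i j = true)).card ≤ 2 ^ L0) :
    ∃ i j : (Fin d → Bool) → ℕ, (∀ u, i u < 2 ^ L0) ∧ (∀ u, j u < 2 ^ L1) ∧
      (∀ u v, vl d u < vl d v → i u < i v) ∧ (∀ u v, vl d u < vl d v → j u < j v) ∧
      ∀ u v, hammingDist u v = 1 → bad (i u) (j v) = false := by
  set K : ℕ → ℕ → ℝ := fun i j => if bad i j = true then 1 else 0 with hKdef
  have hK : ∀ i j, 0 ≤ K i j := by
    intro i j
    simp only [hKdef]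
    split_ifs <;> norm_num
  have hK1 : ∀ i j, K i j ≤ 1 := by
    intro i j
    simp only [hKdef]
    split_ifs <;> norm_num
  have hT0 : (0 : ℝ) < T := by
    have : 0 < T := hT
    exact_mod_cast this
  have hd1 : (0 : ℝ) < (d : ℝ) + 1 := by positivity
  set α : ℝ := 1 / 2 with hα
  have hα0 : 0 < α := by norm_num [hα]
  have hα1 : α ≤ 1 / 2 := le_rfl
  set D : ℝ := 64 * ((d : ℝ) + 1) ^ 2 with hD
  have hD0 : 0 < D := by positivity
  set δ : ℝ := 1 / (4 * ((d : ℝ) + 1)) with hδdef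
  have hδ0 : 0 < δ := by positivity
  -- the density
  have hdens : dens K (L0, 0) (L1, 0) ≤ 1 / 2 ^ e := by
    unfold dens
    simp only [Nat.zero_mul, Nat.zero_add]
    rw [div_le_div_iff₀ (by positivity) (by positivity), one_mul, Finset.sum_comm, Finset.sum_mul]
    have hterm : ∀ j ∈ Finset.range (2 ^ L1),
        (∑ r ∈ Finset.range (2 ^ L0), K r j) * 2 ^ e ≤ 2 ^ L0 := by
      intro j hj
      have h1 := hbad j (Finset.mem_range.mp hj)
      have h2 : ∑ r ∈ Finset.range (2 ^ L0), K r j =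
          (((Finset.range (2 ^ L0)).filter (fun i => bad i j = true)).card : ℝ) := by
        simp only [hKdef]
        rw [Finset.sum_ite, Finset.sum_const_zero, add_zero, Finset.sum_const, nsmul_eq_mul,
          mul_one]
      rw [h2]
      have h3 : ((2 ^ e * ((Finset.range (2 ^ L0)).filter (fun i => bad i j = true)).card : ℕ) : ℝ)
          ≤ ((2 ^ L0 : ℕ) : ℝ) := by exact_mod_cast h1
      push_cast at h3
      linarith
    refine le_trans (Finset.sum_le_sum hterm) ?_
    rw [Finset.sum_const, Finset.card_range, nsmul_eq_mul]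
    push_cast
    rw [mul_comm]
  have hdens0 : 0 ≤ dens K (L0, 0) (L1, 0) := dens_nonneg K hK _ _
  have hgrow : (1 + 288 * α / T) ^ d ≤ (2 : ℝ) ^ (2 * m) := by
    have h1 : 1 + 288 * α / T ≤ Real.exp (288 * α / T) := by
      have := Real.add_one_le_exp (288 * α / T)
      linarith
    have h2 : (1 + 288 * α / T) ^ d ≤ Real.exp (288 * α / T) ^ d :=
      pow_le_pow_left₀ (by positivity) h1 d
    have h3 : Real.exp (288 * α / T) ^ d = Real.exp (d * (288 * α / T)) := by
      rw [← Real.exp_nat_mul]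
    have h4 : (d : ℝ) * (288 * α / T) ≤ m := by
      have h5 : (144 * d : ℝ) ≤ m * T := by exact_mod_cast hm
      have h6 : (d : ℝ) * (288 * α / T) = 144 * d / T := by
        rw [hα]; ring
      rw [h6, div_le_iff₀ hT0]
      exact h5
    have h5 : Real.exp (m : ℝ) = Real.exp 1 ^ m := by
      rw [← Real.exp_nat_mul, mul_one]
    have h6 : Real.exp 1 ≤ 4 := by
      have := Real.exp_one_lt_d9
      linarith
    calc (1 + 288 * α / T) ^ d ≤ Real.exp (288 * α / T) ^ d := h2
      _ = Real.exp (d * (288 * α / T)) := h3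
      _ ≤ Real.exp m := Real.exp_le_exp.mpr h4
      _ = Real.exp 1 ^ m := h5
      _ ≤ (4 : ℝ) ^ m := pow_le_pow_left₀ (Real.exp_pos 1).le h6 m
      _ = (2 : ℝ) ^ (2 * m) := by rw [pow_mul]; norm_num
  have hε : (1 + 288 * α / T) ^ d * (D * (dens K (L0, 0) (L1, 0)) ^ α) < (1 / 2 : ℝ) ^ 2 := by
    have h1 : (dens K (L0, 0) (L1, 0)) ^ α ≤ ((1 : ℝ) / 2 ^ e) ^ α :=
      Real.rpow_le_rpow hdens0 hdens hα0.le
    have h2 : ((1 : ℝ) / 2 ^ e) ^ α = (2 : ℝ) ^ (-(e * α)) := by
      rw [one_div, ← Real.rpow_natCast, ← Real.rpow_neg (by norm_num),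
        ← Real.rpow_mul (by norm_num)]
      congr 1
      ring
    have h3 : (2 * m + (10 + 2 * Nat.log 2 (d + 1)) : ℝ) ≤ e * α := by
      have : ((4 * m + 4 * Nat.log 2 (d + 1) + 20 : ℕ) : ℝ) ≤ (e : ℝ) := by exact_mod_cast he
      push_cast at this
      rw [hα]
      linarith
    have h4 : ((d : ℝ) + 1) < 2 ^ (Nat.log 2 (d + 1) + 1) := by
      have : d + 1 < 2 ^ (Nat.log 2 (d + 1) + 1) := Nat.lt_pow_succ_log_self (by norm_num) _
      exact_mod_cast this
    have h5 : (2 : ℝ) ^ (-(e * α)) ≤ (2 : ℝ) ^ (-(2 * m + (10 + 2 * Nat.log 2 (d + 1)) : ℝ)) :=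
      Real.rpow_le_rpow_of_exponent_le (by norm_num) (by linarith)
    have h6 : (2 : ℝ) ^ (-(2 * m + (10 + 2 * Nat.log 2 (d + 1)) : ℝ)) =
        1 / (2 ^ (2 * m) * (256 * (2 ^ (Nat.log 2 (d + 1) + 1)) ^ 2)) := by
      rw [Real.rpow_neg (by norm_num), one_div]
      congr 1
      have : (2 * m + (10 + 2 * Nat.log 2 (d + 1)) : ℝ) =
          ((2 * m + (10 + 2 * Nat.log 2 (d + 1)) : ℕ) : ℝ) := by
        push_cast; ring
      rw [this, Real.rpow_natCast]
      ring
    have h7 : (1 + 288 * α / T) ^ d * (D * (dens K (L0, 0) (L1, 0)) ^ α) ≤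
        (2 : ℝ) ^ (2 * m) *
          (D * (1 / (2 ^ (2 * m) * (256 * (2 ^ (Nat.log 2 (d + 1) + 1)) ^ 2)))) := by
      refine mul_le_mul hgrow (mul_le_mul_of_nonneg_left ?_ hD0.le) ?_ (by positivity)
      · rw [← h6]
        exact le_trans h1 (h2 ▸ h5)
      · exact mul_nonneg hD0.le (Real.rpow_nonneg hdens0 _)
    refine lt_of_le_of_lt h7 ?_
    have h8 : ((d : ℝ) + 1) ^ 2 < (2 ^ (Nat.log 2 (d + 1) + 1)) ^ 2 :=
      pow_lt_pow_left₀ h4 hd1.le (by norm_num)
    have h9 : (2 : ℝ) ^ (2 * m) *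
        (D * (1 / (2 ^ (2 * m) * (256 * (2 ^ (Nat.log 2 (d + 1) + 1)) ^ 2)))) =
        D / (256 * (2 ^ (Nat.log 2 (d + 1) + 1)) ^ 2) := by
      field_simp
    rw [h9, hD, div_lt_iff₀ (by positivity)]
    linarith
  set L : Bool → ℕ := fun b => if b then L1 else L0 with hL
  have hLb : ∀ b, d * T ≤ L b := by
    intro b
    cases b
    · exact hL0
    · exact hL1
  have hDδ : 1 / D ≤ δ ^ 2 / 4 := by
    rw [hD, hδdef]
    refine le_of_eq ?_
    field_simp
    norm_num
  have hz1 : (1 / 2 : ℝ) + 2 * d * δ ≤ 1 := by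
    have : 2 * (d : ℝ) * δ ≤ 1 / 2 := by
      rw [hδdef, mul_one_div, div_le_div_iff₀ (by positivity) (by norm_num)]
      linarith
    linarith
  obtain ⟨Win, hG0, _, ho, hc⟩ := levels hK hD0 hα0 hα1 hT L hLb hδ0 (by norm_num) hz1 hDδ hε
    d le_rfl
  have hG : Good (lw K α D Win) (1 / 2 + 2 * (d : ℝ) * δ) := by
    simp only [Nat.sub_self, pow_zero, one_mul] at hG0
    exact hG0
  have hz2 : (1 / 2 : ℝ) + 2 * d * δ + δ ≤ 1 := by
    have : 2 * (d : ℝ) * δ + δ ≤ 1 / 2 := by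
      have e1 : 2 * (d : ℝ) * δ + δ = (2 * d + 1) / (4 * ((d : ℝ) + 1)) := by
        rw [hδdef]; field_simp
      rw [e1, div_le_div_iff₀ (by positivity) (by norm_num)]
      linarith
    linarith
  obtain ⟨s, hs, hlt⟩ := leaves hK hK1 hD0 hα0 hα1 Win hδ0 (by positivity) hz2 hG
  have hin : ∀ x, lo (Win x) + s x < hi (Win x) := by
    intro x
    have h1 := hs x
    unfold lo hi
    rw [Nat.add_mul, one_mul]
    omega
  refine ⟨fun u => lo (Win (u, false)) + s (u, false), fun u => lo (Win (u, true)) + s (u, true),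
    ?_, ?_, ?_, ?_, ?_⟩
  · intro u
    exact lt_of_lt_of_le (hin _) (hc (u, false))
  · intro u
    exact lt_of_lt_of_le (hin _) (hc (u, true))
  · intro u v huv
    exact lt_of_lt_of_le (hin _) (le_trans (ho u v false huv) (Nat.le_add_right _ _))
  · intro u v huv
    exact lt_of_lt_of_le (hin _) (le_trans (ho u v true huv) (Nat.le_add_right _ _))
  · intro u v huv
    have h1 := hlt u v huv
    simp only [hKdef] at h1
    by_contra hne
    have hbt : bad (lo (Win (u, false)) + s (u, false)) (lo (Win (v, true)) + s (v, true)) = true := by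
      simpa using hne
    rw [if_pos hbt] at h1
    exact lt_irrefl _ h1

end Pool.Agent.helper336_cube
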