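import Mathlib
import Pool.Agent.helper336_cube.Final

set_option autoImplicit false

namespace Pool.Agent.helper336_cube

open Finset

/-- The parity of a word. -/
def pr : (k : ℕ) → (Fin k → Bool) → Bool
  | 0, _ => false
  | k + 1, u => xor (pr k (Fin.init u)) (u (Fin.last k))

lemma pr_succ (k : ℕ) (u : Fin (k + 1) → Bool) :
    pr (k + 1) u = xor (pr k (Fin.init u)) (u (Fin.last k)) := rfl

lemma pr_ne : ∀ (k : ℕ) (u v : Fin k → Bool), hammingDist u v = 1 → pr k u ≠ pr k v := by
  intro k
  induction k with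
  | zero =>
    intro u v h
    rw [Subsingleton.elim u v, hammingDist_self] at h
    omega
  | succ k ih =>
    intro u v h
    rw [hd_split] at h
    rw [pr_succ, pr_succ]
    by_cases hl : u (Fin.last k) = v (Fin.last k)
    · rw [if_pos hl, add_zero] at h
      have := ih _ _ h
      rw [hl]
      intro he
      apply this
      cases h1 : pr k (Fin.init u) <;> cases h2 : pr k (Fin.init v) <;>
        cases h3 : v (Fin.last k) <;> simp_all
    · rw [if_neg hl] at h
      have h0 : hammingDist (Fin.init u : Fin k → Bool) (Fin.init v) = 0 := by omega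
      rw [hammingDist_eq_zero] at h0
      rw [h0]
      intro he
      apply hl
      cases h1 : u (Fin.last k) <;> cases h2 : v (Fin.last k) <;>
        cases h3 : pr k (Fin.init v) <;> simp_all

/-- The rank: even words first, each half in lexicographic order. -/
def rk (d : ℕ) (u : Fin d → Bool) : ℕ := (if pr d u then 2 ^ d else 0) + vl d u

lemma rk_even {d : ℕ} {u : Fin d → Bool} (h : pr d u = false) : rk d u = vl d u := by
  unfold rk
  rw [h]
  simp

lemma rk_odd {d : ℕ} {u : Fin d → Bool} (h : pr d u = true) : rk d u = 2 ^ d + vl d u := by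
  unfold rk
  rw [h]
  simp

lemma rk_inj (d : ℕ) : Function.Injective (rk d) := by
  intro u v h
  have hu := vl_lt d u
  have hv := vl_lt d v
  apply vl_inj d
  cases h1 : pr d u <;> cases h2 : pr d v
  · rw [rk_even h1, rk_even h2] at h; exact h
  · rw [rk_even h1, rk_odd h2] at h; omega
  · rw [rk_odd h1, rk_even h2] at h; omega
  · rw [rk_odd h1, rk_odd h2] at h; omega

lemma exists_order (d : ℕ) : ∃ σ : Fin (2 ^ d) ≃ (Fin d → Bool),
    ∀ p q, p < q → rk d (σ p) < rk d (σ q) := by
  have hc : Fintype.card (Fin d → Bool) = 2 ^ d := by simp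
  set e : Fin (2 ^ d) ≃ (Fin d → Bool) := (Fintype.equivFinOfCardEq hc).symm with he
  refine ⟨(Tuple.sort (rk d ∘ e)).trans e, ?_⟩
  have hm := Tuple.monotone_sort (rk d ∘ e)
  have hinj : Function.Injective ((rk d ∘ e) ∘ (Tuple.sort (rk d ∘ e))) :=
    ((rk_inj d).comp e.injective).comp (Tuple.sort (rk d ∘ e)).injective
  have hs := hm.strictMono_of_injective hinj
  intro p q hpq
  exact hs hpq

lemma rk_lt_iff {d : ℕ} {σ : Fin (2 ^ d) ≃ (Fin d → Bool)}
    (hσ : ∀ p q, p < q → rk d (σ p) < rk d (σ q)) {u v : Fin d → Bool}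
    (h : rk d u < rk d v) : σ.symm u < σ.symm v := by
  by_contra hne
  rcases lt_or_eq_of_le (not_lt.mp hne) with h1 | h1
  · have := hσ _ _ h1
    rw [Equiv.apply_symm_apply, Equiv.apply_symm_apply] at this
    omega
  · have : u = v := σ.symm.injective h1.symm
    rw [this] at h
    omega

/-- Neighbours of a vertex. -/
def nb {d : ℕ} (u : Fin d → Bool) : Finset (Fin d → Bool) :=
  Finset.univ.filter (fun v => hammingDist u v = 1)

lemma mem_nb {d : ℕ} {u v : Fin d → Bool} : v ∈ nb u ↔ hammingDist u v = 1 := by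
  simp [nb]

lemma card_nb {d : ℕ} (u : Fin d → Bool) : (nb u).card ≤ d := by
  have hsub : nb u ⊆ (Finset.univ : Finset (Fin d)).image
      (fun i => Function.update u i (!(u i))) := by
    intro v hv
    rw [mem_nb] at hv
    unfold hammingDist at hv
    obtain ⟨i0, hi0⟩ := Finset.card_eq_one.mp hv
    rw [Finset.mem_image]
    refine ⟨i0, Finset.mem_univ _, ?_⟩
    funext j
    by_cases hj : j = i0
    · subst hj
      rw [Function.update_self]
      have : j ∈ (Finset.univ.filter (fun i => u i ≠ v i) : Finset (Fin d)) := by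
        rw [hi0]; simp
      have h2 := (Finset.mem_filter.mp this).2
      cases h3 : u j <;> cases h4 : v j <;> simp_all
    · rw [Function.update_of_ne hj]
      by_contra hne
      have : j ∈ (Finset.univ.filter (fun i => u i ≠ v i) : Finset (Fin d)) := by
        simp [hne]
      rw [hi0, Finset.mem_singleton] at this
      exact hj this
  calc (nb u).card ≤ _ := Finset.card_le_card hsub
    _ ≤ (Finset.univ : Finset (Fin d)).card := Finset.card_image_le
    _ = d := by simp

/-- The colouring extended to all naturals. -/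
def ext {N : ℕ} (f : Fin N → Fin N → Bool) (i j : ℕ) : Bool :=
  if h : i < N ∧ j < N then f ⟨i, h.1⟩ ⟨j, h.2⟩ else false

/-- What we want to find. -/
def HasCopy {d N : ℕ} (σ : Fin (2 ^ d) ≃ (Fin d → Bool)) (f : Fin N → Fin N → Bool) : Prop :=
  ∃ g : Fin (2 ^ d) → Fin N, StrictMono g ∧
    ∃ b : Bool, ∀ i j : Fin (2 ^ d), i < j → hammingDist (σ i) (σ j) = 1 → f (g i) (g j) = b

lemma hasCopy_of {d N : ℕ} {σ : Fin (2 ^ d) ≃ (Fin d → Bool)}
    (hσ : ∀ p q, p < q → rk d (σ p) < rk d (σ q)) (f : Fin N → Fin N → Bool)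
    (gv : (Fin d → Bool) → ℕ) (hN : ∀ v, gv v < N)
    (hmono : ∀ u v, rk d u < rk d v → gv u < gv v) (b : Bool)
    (hb : ∀ u v, pr d u = false → pr d v = true → hammingDist u v = 1 →
      ext f (gv u) (gv v) = b) : HasCopy σ f := by
  refine ⟨fun p => ⟨gv (σ p), hN _⟩, ?_, b, ?_⟩
  · intro p q hpq
    exact hmono _ _ (hσ p q hpq)
  · intro p q hpq hd
    have hne := pr_ne d _ _ hd
    have hrk := hσ p q hpq
    have hlt1 := vl_lt d (σ p)
    have hlt2 := vl_lt d (σ q)
    have hcase : pr d (σ p) = false ∧ pr d (σ q) = true := by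
      cases h1 : pr d (σ p) <;> cases h2 : pr d (σ q)
      · rw [h1, h2] at hne; exact absurd rfl hne
      · exact ⟨rfl, rfl⟩
      · rw [rk_odd h1, rk_even h2] at hrk; omega
      · rw [h1, h2] at hne; exact absurd rfl hne
    have := hb _ _ hcase.1 hcase.2 hd
    unfold ext at this
    rw [dif_pos ⟨hN _, hN _⟩] at this
    exact this

end Pool.Agent.helper336_cube
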