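import Mathlib

set_option autoImplicit false

namespace Pool.Agent.helper336_cube

/-- The relative levers and mixed term of a two by two array of nonnegative densities. -/
structure PF (R C H : ℝ) : Prop where
  pp : 0 ≤ 1 + R + C + H
  pm : 0 ≤ 1 + R - C - H
  mp : 0 ≤ 1 - R + C - H
  mm : 0 ≤ 1 - R - C + H

lemma PF.swap {R C H : ℝ} (h : PF R C H) : PF C R H :=
  ⟨by linarith [h.pp], by linarith [h.mp], by linarith [h.pm], by linarith [h.mm]⟩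

lemma PF.neg {R C H : ℝ} (h : PF R C H) : PF (-R) (-C) H :=
  ⟨by linarith [h.mm], by linarith [h.mp], by linarith [h.pm], by linarith [h.pp]⟩

lemma PF.flip {R C H : ℝ} (h : PF R C H) : PF R (-C) (-H) :=
  ⟨by linarith [h.pm], by linarith [h.pp], by linarith [h.mm], by linarith [h.mp]⟩

lemma PF.R_le {R C H : ℝ} (h : PF R C H) : R ≤ 1 := by linarith [h.mp, h.mm]
lemma PF.R_ge {R C H : ℝ} (h : PF R C H) : -1 ≤ R := by linarith [h.pp, h.pm]
lemma PF.C_le {R C H : ℝ} (h : PF R C H) : C ≤ 1 := by linarith [h.pm, h.mm]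
lemma PF.C_ge {R C H : ℝ} (h : PF R C H) : -1 ≤ C := by linarith [h.pp, h.mp]
lemma PF.H_le {R C H : ℝ} (h : PF R C H) : H ≤ 1 := by linarith [h.pm, h.mp]
lemma PF.H_ge {R C H : ℝ} (h : PF R C H) : -1 ≤ H := by linarith [h.pp, h.mm]

/-- Single moves. -/
lemma sqrt_single {r : ℝ} (h1 : -1 ≤ r) (h2 : r ≤ 1) :
    Real.sqrt (1 + r) ≤ 1 + r / 2 - r ^ 2 / 12 := by
  have h0 : 0 ≤ 1 + r := by linarith
  obtain ⟨t, ht⟩ : ∃ t, t = Real.sqrt (1 + r) := ⟨_, rfl⟩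
  have ht0 : 0 ≤ t := by rw [ht]; exact Real.sqrt_nonneg _
  have ht2 : t * t = 1 + r := by rw [ht]; exact Real.mul_self_sqrt h0
  rw [← ht]
  have hr : r = t * t - 1 := by linarith
  have ht3 : t ≤ 1.42 := by nlinarith
  rw [hr]
  have h3 : (t + 1) ^ 2 ≤ 6 := by nlinarith
  nlinarith [mul_nonneg (sq_nonneg (t - 1)) (sub_nonneg.mpr h3)]

lemma sqrt_lin {r : ℝ} (h1 : -1 ≤ r) :
    Real.sqrt (1 + r) ≤ 1 + r / 2 := by
  have h0 : 0 ≤ 1 + r := by linarith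
  have ht0 := Real.sqrt_nonneg (1 + r)
  have ht2 := Real.mul_self_sqrt h0
  nlinarith [sq_nonneg (Real.sqrt (1 + r) - 1)]

/-- Coordinated moves: the mixed term is shared equally. -/
lemma sqrt_shared {R C H : ℝ} (h : PF R C H) :
    Real.sqrt (1 + R + C + H) ≤ (1 + R / 2 + H / 4 + R ^ 2) * (1 + C / 2 + H / 4 + C ^ 2) := by
  obtain ⟨t, ht⟩ : ∃ t, t = Real.sqrt (1 + R + C + H) := ⟨_, rfl⟩
  have ht0 : 0 ≤ t := by rw [ht]; exact Real.sqrt_nonneg _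
  have ht2 : t * t = 1 + R + C + H := by rw [ht]; exact Real.mul_self_sqrt h.pp
  rw [← ht]
  have hH : H = t * t - 1 - R - C := by linarith
  have hR1 := h.R_le
  have hR2 := h.R_ge
  have hC1 := h.C_le
  have hC2 := h.C_ge
  have e1 : (1 + R / 2 + H / 4 + R ^ 2) * (1 + C / 2 + H / 4 + C ^ 2) - t =
      (t - 1) ^ 2 * (t ^ 2 + 2 * t + 9) / 16 +
      (((3 + t ^ 2) / 4) * (R ^ 2 + C ^ 2) - (R - C) ^ 2 / 16 -
        (R - C) ^ 2 * (R + C) / 4 + R ^ 2 * C ^ 2) := by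
    rw [hH]
    ring
  have h1 : 0 ≤ (t - 1) ^ 2 * (t ^ 2 + 2 * t + 9) / 16 := by positivity
  have h2 : (R - C) ^ 2 * (R + C) ≤ 2 * (R ^ 2 + C ^ 2) := by
    have a1 : R ^ 3 ≤ R ^ 2 := by nlinarith [sq_nonneg R]
    have a2 : C ^ 3 ≤ C ^ 2 := by nlinarith [sq_nonneg C]
    have a3 : -(R * C ^ 2) ≤ C ^ 2 := by nlinarith [sq_nonneg C]
    have a4 : -(C * R ^ 2) ≤ R ^ 2 := by nlinarith [sq_nonneg R]
    nlinarith
  have h3 : (R - C) ^ 2 ≤ 2 * (R ^ 2 + C ^ 2) := by nlinarith [sq_nonneg (R + C)]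
  have h4 : 0 ≤ t ^ 2 * (R ^ 2 + C ^ 2) := by positivity
  have h5 : 0 ≤ R ^ 2 * C ^ 2 := by positivity
  nlinarith [sq_nonneg R, sq_nonneg C]

/-- Splitting: the second vertex pays for the mixed term. -/
lemma sqrt_paid {R C H : ℝ} (h : PF R C H) :
    Real.sqrt (1 + R + C + H) ≤ (1 + R / 2 + R ^ 2) * (1 + C / 2 + H / 2 + C ^ 2) := by
  obtain ⟨t, ht⟩ : ∃ t, t = Real.sqrt (1 + R + C + H) := ⟨_, rfl⟩
  have ht0 : 0 ≤ t := by rw [ht]; exact Real.sqrt_nonneg _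
  have ht2 : t * t = 1 + R + C + H := by rw [ht]; exact Real.mul_self_sqrt h.pp
  rw [← ht]
  have hH : H = t * t - 1 - R - C := by linarith
  have hR1 := h.R_le
  have hR2 := h.R_ge
  obtain ⟨A, hA⟩ : ∃ A, A = 1 + R / 2 + R ^ 2 := ⟨_, rfl⟩
  have hA0 : 15 / 16 ≤ A := by
    rw [hA]
    nlinarith [sq_nonneg (R + 1 / 4)]
  have hApos : 0 < A := by linarith
  have e1 : 2 * A * ((1 + R / 2 + R ^ 2) * (1 + C / 2 + H / 2 + C ^ 2) - t) =
      (A * t - 1) ^ 2 + R ^ 2 * (5 / 4 - 5 / 4 * R - R ^ 3) + 2 * A ^ 2 * C ^ 2 := by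
    rw [hH, hA]
    ring
  rcases le_or_gt R (7 / 10) with hc | hc
  · have h1 : 0 ≤ 5 / 4 - 5 / 4 * R - R ^ 3 := by
      nlinarith [sq_nonneg (R - 7 / 10), sq_nonneg R, sq_nonneg (R + 7/10)]
    have h2 : 0 ≤ 2 * A * ((1 + R / 2 + R ^ 2) * (1 + C / 2 + H / 2 + C ^ 2) - t) := by
      rw [e1]
      positivity
    have h3 : 0 ≤ (1 + R / 2 + R ^ 2) * (1 + C / 2 + H / 2 + C ^ 2) - t := by
      by_contra hneg
      push Not at hneg
      nlinarith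
    linarith
  · have hA1 : 184 / 100 ≤ A := by
      rw [hA]
      nlinarith
    have hCu : C ≤ t * t / 2 - R := by linarith [h.mm]
    have eF : (1 + R / 2 + R ^ 2) * (1 + C / 2 + H / 2 + C ^ 2) =
        A * ((1 - R) / 2 + t * t / 2 + C ^ 2) := by
      rw [hH, hA]
      ring
    rw [eF]
    rcases le_or_gt (t * t / 2) R with hr | hr
    · have hC2 : (R - t * t / 2) ^ 2 ≤ C ^ 2 := by
        have : 0 ≤ R - t * t / 2 := by linarith
        nlinarith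
      have hg : t * t / 4 + 7 / 16 ≤ (1 - R) / 2 + t * t / 2 + C ^ 2 := by
        nlinarith [sq_nonneg (R - t * t / 2 - 1 / 4)]
      have h1 : 184 / 100 * (t * t / 4 + 7 / 16) ≤ A * ((1 - R) / 2 + t * t / 2 + C ^ 2) := by
        refine mul_le_mul hA1 hg (by positivity) hApos.le
      refine le_trans ?_ h1
      nlinarith [sq_nonneg (t - 108 / 100)]
    · have ht3 : 118 / 100 ≤ t := by nlinarith
      have h1 : t * t / 2 ≤ (1 - R) / 2 + t * t / 2 + C ^ 2 := by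
        nlinarith [sq_nonneg C]
      have h2 : 184 / 100 * (t * t / 2) ≤ A * ((1 - R) / 2 + t * t / 2 + C ^ 2) :=
        mul_le_mul hA1 h1 (by positivity) hApos.le
      refine le_trans ?_ h2
      nlinarith

end Pool.Agent.helper336_cube
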