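import Mathlib
import Pool.Agent.helper336_cube.Ineq

set_option autoImplicit false

namespace Pool.Agent.helper336_cube

open Finset

/-- The sign of a child: left children count positively. -/
def sg (b : Bool) : ℝ := if b then -1 else 1

@[simp] lemma sg_false : sg false = 1 := rfl
@[simp] lemma sg_true : sg true = -1 := rfl

/-- The two children of a node `(depth, index)`. -/
def ch (a : ℕ × ℕ) (b : Bool) : ℕ × ℕ := (a.1 + 1, 2 * a.2 + b.toNat)

/-- The data of one level: densities of all pairs of sub-windows. -/
structure OL (V : Type*) where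
  F : V → V → ℕ × ℕ → ℕ × ℕ → ℝ
  Cf : V → V → ℝ
  side : V → Bool
  av : V → ℕ
  F_nonneg : ∀ v u a b, 0 ≤ F v u a b
  F_symm : ∀ v u a b, F v u a b = F u v b a
  F_same : ∀ v u a b, side v = side u → F v u a b = 0
  F_harm : ∀ v u a b, a.1 < av v → F v u a b = (F v u (ch a false) b + F v u (ch a true) b) / 2
  C_nonneg : ∀ v u, 0 ≤ Cf v u
  C_symm : ∀ v u, Cf v u = Cf u v

namespace OL

variable {V : Type*} (S : OL V)

lemma F_harm' (v u : V) (a b : ℕ × ℕ) (hb : b.1 < S.av u) :
    S.F v u a b = (S.F v u a (ch b false) + S.F v u a (ch b true)) / 2 := by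
  rw [S.F_symm v u a b, S.F_harm u v b a hb, S.F_symm u v, S.F_symm u v]

/-- The relative lever of `v` on the pair `(v, u)`. -/
noncomputable def lev (n : V → ℕ × ℕ) (v u : V) : ℝ :=
  (S.F v u (ch (n v) false) (n u) - S.F v u (ch (n v) true) (n u)) / (2 * S.F v u (n v) (n u))

/-- The relative mixed term of the pair `(v, u)`. -/
noncomputable def mix (n : V → ℕ × ℕ) (v u : V) : ℝ :=
  (S.F v u (ch (n v) false) (ch (n u) false) + S.F v u (ch (n v) true) (ch (n u) true) -
    S.F v u (ch (n v) false) (ch (n u) true) - S.F v u (ch (n v) true) (ch (n u) false)) /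
    (4 * S.F v u (n v) (n u))

lemma mix_symm (n : V → ℕ × ℕ) (v u : V) : S.mix n v u = S.mix n u v := by
  unfold mix
  rw [S.F_symm v u (n v) (n u), S.F_symm v u (ch (n v) false) (ch (n u) false),
    S.F_symm v u (ch (n v) true) (ch (n u) true), S.F_symm v u (ch (n v) false) (ch (n u) true),
    S.F_symm v u (ch (n v) true) (ch (n u) false)]
  congr 1
  ring

lemma lev_same (n : V → ℕ × ℕ) (v u : V) (h : S.side v = S.side u) : S.lev n v u = 0 := by
  unfold lev
  rw [S.F_same v u (n v) (n u) h]
  simp

lemma mix_same (n : V → ℕ × ℕ) (v u : V) (h : S.side v = S.side u) : S.mix n v u = 0 := by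
  unfold mix
  rw [S.F_same v u (n v) (n u) h]
  simp

variable {S} {n : V → ℕ × ℕ}

lemma F_child (hn : ∀ v, (n v).1 < S.av v) (v u : V) (a : Bool) :
    S.F v u (ch (n v) a) (n u) = S.F v u (n v) (n u) * (1 + sg a * S.lev n v u) := by
  have h := S.F_harm v u (n v) (n u) (hn v)
  have h0 := S.F_nonneg v u (ch (n v) false) (n u)
  have h1 := S.F_nonneg v u (ch (n v) true) (n u)
  rcases (S.F_nonneg v u (n v) (n u)).eq_or_lt with hD | hD
  · rw [← hD, zero_mul]
    cases a <;> linarith
  · unfold lev
    have hne : S.F v u (n v) (n u) ≠ 0 := hD.ne'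
    cases a
    · simp only [sg_false]
      field_simp
      linarith
    · simp only [sg_true]
      field_simp
      linarith

lemma F_quad (hn : ∀ v, (n v).1 < S.av v) (v u : V) (a b : Bool) :
    S.F v u (ch (n v) a) (ch (n u) b) = S.F v u (n v) (n u) *
      (1 + sg a * S.lev n v u + sg b * S.lev n u v + sg a * sg b * S.mix n v u) := by
  have h1 := F_child hn v u false
  have h2 := F_child hn v u true
  have h3 := F_child hn u v false
  have h4 := F_child hn u v true
  rw [S.F_symm u v (ch (n u) false) (n v), S.F_symm u v (n u) (n v)] at h3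
  rw [S.F_symm u v (ch (n u) true) (n v), S.F_symm u v (n u) (n v)] at h4
  have e1 := S.F_harm' v u (ch (n v) false) (n u) (hn u)
  have e2 := S.F_harm' v u (ch (n v) true) (n u) (hn u)
  have e3 := S.F_harm v u (n v) (ch (n u) false) (hn v)
  have e4 := S.F_harm v u (n v) (ch (n u) true) (hn v)
  have e5 := S.F_harm v u (n v) (n u) (hn v)
  have p1 := S.F_nonneg v u (ch (n v) false) (ch (n u) false)
  have p2 := S.F_nonneg v u (ch (n v) false) (ch (n u) true)
  have p3 := S.F_nonneg v u (ch (n v) true) (ch (n u) false)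
  have p4 := S.F_nonneg v u (ch (n v) true) (ch (n u) true)
  rcases (S.F_nonneg v u (n v) (n u)).eq_or_lt with hD | hD
  · rw [← hD, zero_mul]
    cases a <;> cases b <;> linarith
  · have hm : S.F v u (n v) (n u) * S.mix n v u =
        (S.F v u (ch (n v) false) (ch (n u) false) + S.F v u (ch (n v) true) (ch (n u) true) -
        S.F v u (ch (n v) false) (ch (n u) true) - S.F v u (ch (n v) true) (ch (n u) false)) / 4 := by
      unfold mix
      have hne : S.F v u (n v) (n u) ≠ 0 := hD.ne'
      field_simp
    simp only [sg_false, sg_true] at h1 h2 h3 h4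
    cases a <;> cases b <;> simp only [sg_false, sg_true] <;> nlinarith

lemma lev_mix_pf (hn : ∀ v, (n v).1 < S.av v) (v u : V) :
    PF (S.lev n v u) (S.lev n u v) (S.mix n v u) := by
  rcases (S.F_nonneg v u (n v) (n u)).eq_or_lt with hD | hD
  · have h1 : S.lev n v u = 0 := by
      unfold lev
      rw [← hD]; simp
    have h2 : S.lev n u v = 0 := by
      unfold lev
      rw [S.F_symm u v (n u) (n v), ← hD]; simp
    have h3 : S.mix n v u = 0 := by
      unfold mix
      rw [← hD]; simp
    rw [h1, h2, h3]
    constructor <;> norm_num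
  · have key : ∀ a b : Bool,
        0 ≤ 1 + sg a * S.lev n v u + sg b * S.lev n u v + sg a * sg b * S.mix n v u := by
      intro a b
      have h := F_quad hn v u a b
      have h0 := S.F_nonneg v u (ch (n v) a) (ch (n u) b)
      rw [h] at h0
      exact nonneg_of_mul_nonneg_right h0 hD
    have k1 := key false false
    have k2 := key false true
    have k3 := key true false
    have k4 := key true true
    simp only [sg_false, sg_true] at k1 k2 k3 k4
    constructor <;> linarith

end OL

/-- The slack function. -/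
noncomputable def gf (ε η : ℝ) : ℕ → ℝ
  | 0 => 0
  | m + 1 => gf ε η m + (ε * gf ε η m + η)

lemma gf_succ (ε η : ℝ) (m : ℕ) : gf ε η (m + 1) = gf ε η m + (ε * gf ε η m + η) := rfl

lemma gf_nonneg {ε η : ℝ} (hε : 0 ≤ ε) (hη : 0 ≤ η) (m : ℕ) : 0 ≤ gf ε η m := by
  induction m with
  | zero => exact le_rfl
  | succ m ih => rw [gf_succ]; positivity

lemma gf_mono {ε η : ℝ} (hε : 0 ≤ ε) (hη : 0 ≤ η) : Monotone (gf ε η) := by
  refine monotone_nat_of_le_succ fun m => ?_
  rw [gf_succ]
  have := gf_nonneg hε hη m
  nlinarith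

/-- The threshold. -/
noncomputable def tau (ε η : ℝ) (m : ℕ) : ℝ := ε * gf ε η m + η

lemma tau_nonneg {ε η : ℝ} (hε : 0 ≤ ε) (hη : 0 ≤ η) (m : ℕ) : 0 ≤ tau ε η m := by
  unfold tau
  have := gf_nonneg hε hη m
  positivity

lemma le_of_sum {ε η : ℝ} {M k : ℕ} {s : ℝ} (hε : 0 ≤ ε) (hη : 0 ≤ η) (hM : 1 < gf ε η (M + 1))
    (hs : 0 ≤ s) (h : s ≤ 1 - gf ε η k) : k ≤ M := by
  by_contra hk
  push Not at hk
  have h1 := gf_mono hε hη (Nat.succ_le_of_lt hk)
  have h2 : gf ε η (M + 1) ≤ gf ε η k := h1
  linarith

section State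

variable {V : Type*} [Fintype V] [DecidableEq V]

/-- A state: nodes, and weights owned by the vertices, one for each ordered pair. -/
structure St (S : OL V) (ε η : ℝ) (M : ℕ) (μ m q : V → ℕ) (w : V → V → ℝ) : Prop where
  le : ∀ v, μ v + m v ≤ M
  q_lt : ∀ v, q v < 2 ^ m v
  w_nonneg : ∀ v u, 0 ≤ w v u
  sum_le : ∀ v, ∑ u, w v u ≤ 1 - gf ε η (μ v + m v)
  prod : ∀ v u, S.Cf v u * Real.sqrt (S.F v u (m v, q v) (m u, q u)) ≤ w v u * w u v

variable {S : OL V} {ε η : ℝ} {M : ℕ} {μ m q : V → ℕ} {w : V → V → ℝ}

/-- A single move. -/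
lemma single_move (hε : 0 ≤ ε) (hη : 0 ≤ η) (hM : 1 < gf ε η (M + 1))
    (hav : ∀ v, M < μ v + S.av v) (h : St S ε η M μ m q w) (v0 : V)
    (hbad : tau ε η (μ v0 + m v0) ≤ |∑ u, w v0 u * S.lev (fun v => (m v, q v)) v0 u| / 2 +
      (∑ u, w v0 u * (S.lev (fun v => (m v, q v)) v0 u) ^ 2) / 12) :
    ∃ m' q' w', St S ε η M μ m' q' w' ∧ (∀ v, m v ≤ m' v) ∧ ∃ v, m v < m' v := by
  set n : V → ℕ × ℕ := fun v => (m v, q v) with hn
  have hnav : ∀ v, (n v).1 < S.av v := by
    intro v
    have h1 := h.le v
    have h2 := hav v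
    simp only [hn]
    omega
  obtain ⟨a, ha⟩ : ∃ a : Bool, sg a * ∑ u, w v0 u * S.lev n v0 u =
      -|∑ u, w v0 u * S.lev n v0 u| := by
    rcases le_total 0 (∑ u, w v0 u * S.lev n v0 u) with hL | hL
    · exact ⟨true, by rw [sg_true, abs_of_nonneg hL]; ring⟩
    · exact ⟨false, by rw [sg_false, abs_of_nonpos hL]; ring⟩
  have hr : ∀ u, -1 ≤ sg a * S.lev n v0 u ∧ sg a * S.lev n v0 u ≤ 1 := by
    intro u
    have hp := OL.lev_mix_pf hnav v0 u
    have h1 := hp.R_le
    have h2 := hp.R_ge
    cases a
    · simp only [sg_false]; constructor <;> linarith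
    · simp only [sg_true]; constructor <;> linarith
  have hsq : ∀ u, (sg a * S.lev n v0 u) ^ 2 = (S.lev n v0 u) ^ 2 := by
    intro u
    cases a <;> simp [sg_false, sg_true]
  set w' : V → V → ℝ := fun v u =>
    if v = v0 then w v u * Real.sqrt (1 + sg a * S.lev n v u) else w v u with hw'
  have hsum0 : ∑ u, w' v0 u ≤ 1 - gf ε η (μ v0 + (m v0 + 1)) := by
    have h1 : ∑ u, w' v0 u ≤ ∑ u, (w v0 u + sg a * (w v0 u * S.lev n v0 u) / 2 -
        (w v0 u * (S.lev n v0 u) ^ 2) / 12) := by
      refine Finset.sum_le_sum fun u _ => ?_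
      simp only [hw', if_true]
      have h2 := sqrt_single (hr u).1 (hr u).2
      rw [hsq] at h2
      have h3 := mul_le_mul_of_nonneg_left h2 (h.w_nonneg v0 u)
      refine le_trans h3 (le_of_eq ?_)
      ring
    have h4 : ∑ u, (w v0 u + sg a * (w v0 u * S.lev n v0 u) / 2 -
        (w v0 u * (S.lev n v0 u) ^ 2) / 12) =
        ∑ u, w v0 u + (sg a * ∑ u, w v0 u * S.lev n v0 u) / 2 -
        (∑ u, w v0 u * (S.lev n v0 u) ^ 2) / 12 := by
      rw [Finset.sum_sub_distrib, Finset.sum_add_distrib, ← Finset.sum_div, ← Finset.sum_div,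
        ← Finset.mul_sum]
    rw [h4, ha] at h1
    have h5 := h.sum_le v0
    have h6 : gf ε η (μ v0 + (m v0 + 1)) = gf ε η (μ v0 + m v0) + tau ε η (μ v0 + m v0) := by
      rw [← Nat.add_assoc, gf_succ]
      rfl
    rw [h6]
    linarith
  have hw'0 : ∀ v u, 0 ≤ w' v u := by
    intro v u
    simp only [hw']
    split_ifs
    · exact mul_nonneg (h.w_nonneg v u) (Real.sqrt_nonneg _)
    · exact h.w_nonneg v u
  refine ⟨Function.update m v0 (m v0 + 1), Function.update q v0 (2 * q v0 + a.toNat), w', ?_, ?_, ?_⟩
  · constructor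
    · intro v
      by_cases hv : v = v0
      · subst hv
        rw [Function.update_self]
        exact le_of_sum hε hη hM (Finset.sum_nonneg fun u _ => hw'0 v u) hsum0
      · rw [Function.update_of_ne hv]
        exact h.le v
    · intro v
      by_cases hv : v = v0
      · subst hv
        rw [Function.update_self, Function.update_self, pow_succ]
        have h1 := h.q_lt v
        have h2 : a.toNat ≤ 1 := Bool.toNat_le _
        omega
      · rw [Function.update_of_ne hv, Function.update_of_ne hv]
        exact h.q_lt v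
    · exact hw'0
    · intro v
      by_cases hv : v = v0
      · subst hv
        rw [Function.update_self]
        exact hsum0
      · rw [Function.update_of_ne hv]
        have : ∑ u, w' v u = ∑ u, w v u := by
          refine Finset.sum_congr rfl fun u _ => ?_
          simp only [hw']
          rw [if_neg hv]
        rw [this]
        exact h.sum_le v
    · have key : ∀ u, u ≠ v0 → S.Cf v0 u * Real.sqrt (S.F v0 u (ch (n v0) a) (n u)) ≤
          w' v0 u * w' u v0 := by
        intro u hu
        rw [OL.F_child hnav, Real.sqrt_mul (S.F_nonneg _ _ _ _)]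
        simp only [hw', if_true]
        rw [if_neg hu]
        have h1 := h.prod v0 u
        have h2 := mul_le_mul_of_nonneg_right h1 (Real.sqrt_nonneg (1 + sg a * S.lev n v0 u))
        calc S.Cf v0 u * (Real.sqrt (S.F v0 u (n v0) (n u)) *
              Real.sqrt (1 + sg a * S.lev n v0 u))
            = S.Cf v0 u * Real.sqrt (S.F v0 u (m v0, q v0) (m u, q u)) *
              Real.sqrt (1 + sg a * S.lev n v0 u) := by simp only [hn]; ring
          _ ≤ _ := h2
          _ = _ := by ring
      intro v u
      by_cases hv : v = v0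
      · by_cases hu : u = v0
        · subst hv
          subst hu
          rw [S.F_same u u _ _ rfl, Real.sqrt_zero, mul_zero]
          exact mul_nonneg (hw'0 _ _) (hw'0 _ _)
        · subst hv
          rw [Function.update_self, Function.update_self, Function.update_of_ne hu,
            Function.update_of_ne hu]
          exact key u hu
      · by_cases hu : u = v0
        · subst hu
          rw [Function.update_self, Function.update_self, Function.update_of_ne hv,
            Function.update_of_ne hv, S.F_symm, S.C_symm, mul_comm (w' v u)]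
          exact key v hv
        · rw [Function.update_of_ne hu, Function.update_of_ne hu, Function.update_of_ne hv,
            Function.update_of_ne hv]
          have h1 := h.prod v u
          simp only [hw']
          rw [if_neg hv, if_neg hu]
          exact h1
  · intro v
    by_cases hv : v = v0
    · subst hv
      rw [Function.update_self]
      omega
    · rw [Function.update_of_ne hv]
  · exact ⟨v0, by rw [Function.update_self]; omega⟩


/-- A coordinated move of a core. -/
lemma core_move (hε : 0 ≤ ε) (hη : 0 ≤ η) (hM : 1 < gf ε η (M + 1))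
    (hav : ∀ v, M < μ v + S.av v) (h : St S ε η M μ m q w)
    (hgood : ∀ v, |∑ u, w v u * S.lev (fun v => (m v, q v)) v u| / 2 +
      (∑ u, w v u * (S.lev (fun v => (m v, q v)) v u) ^ 2) / 12 ≤ tau ε η (μ v + m v))
    (U : Finset V) (hU : U.Nonempty)
    (hcore : ∀ v ∈ U, 52 * tau ε η (μ v + m v) ≤
      ∑ u ∈ U, w v u * S.mix (fun v => (m v, q v)) v u) :
    ∃ m' q' w', St S ε η M μ m' q' w' ∧ (∀ v, m v ≤ m' v) ∧ ∃ v, m v < m' v := by
  set n : V → ℕ × ℕ := fun v => (m v, q v) with hn
  have hnav : ∀ v, (n v).1 < S.av v := by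
    intro v
    have h1 := h.le v
    have h2 := hav v
    simp only [hn]
    omega
  set fac : V → V → ℝ := fun v u =>
    if v ∈ U then 1 + sg (S.side v) * S.lev n v u / 2 + (S.lev n v u) ^ 2 +
      (if u ∈ U then -(S.mix n v u) / 4 else 0) else 1 with hfac
  have hfac0 : ∀ v u, 0 ≤ fac v u := by
    intro v u
    have hp := OL.lev_mix_pf hnav v u
    have h1 := hp.R_le
    have h2 := hp.R_ge
    have h3 := hp.H_le
    simp only [hfac]
    split_ifs
    · cases S.side v
      · simp only [sg_false]; nlinarith [sq_nonneg (S.lev n v u)]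
      · simp only [sg_true]; nlinarith [sq_nonneg (S.lev n v u)]
    · cases S.side v
      · simp only [sg_false]; nlinarith [sq_nonneg (S.lev n v u)]
      · simp only [sg_true]; nlinarith [sq_nonneg (S.lev n v u)]
    · exact zero_le_one
  set w' : V → V → ℝ := fun v u => w v u * fac v u with hw'
  have hw'0 : ∀ v u, 0 ≤ w' v u := fun v u => mul_nonneg (h.w_nonneg v u) (hfac0 v u)
  have hsumU : ∀ v ∈ U, ∑ u, w' v u ≤ 1 - gf ε η (μ v + (m v + 1)) := by
    intro v hv
    have h1 : ∑ u, w' v u = ∑ u, w v u + sg (S.side v) * (∑ u, w v u * S.lev n v u) / 2 +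
        ∑ u, w v u * (S.lev n v u) ^ 2 - (∑ u ∈ U, w v u * S.mix n v u) / 4 := by
      have e1 : ∑ u ∈ U, w v u * S.mix n v u =
          ∑ u, (if u ∈ U then w v u * S.mix n v u else 0) := by
        rw [Finset.sum_ite_mem, Finset.univ_inter]
      rw [e1, Finset.sum_div, mul_div_assoc, Finset.sum_div, Finset.mul_sum,
        ← Finset.sum_add_distrib, ← Finset.sum_add_distrib, ← Finset.sum_sub_distrib]
      refine Finset.sum_congr rfl fun u _ => ?_
      simp only [hw', hfac]
      rw [if_pos hv]
      split_ifs <;> ring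
    have h2 : sg (S.side v) * (∑ u, w v u * S.lev n v u) / 2 ≤
        |∑ u, w v u * S.lev n v u| / 2 := by
      have h3 := le_abs_self (∑ u, w v u * S.lev n v u)
      have h4 := neg_abs_le (∑ u, w v u * S.lev n v u)
      cases S.side v
      · simp only [sg_false]; linarith
      · simp only [sg_true]; linarith
    have h5 := h.sum_le v
    have h6 := hgood v
    have h7 := hcore v hv
    have h8 : gf ε η (μ v + (m v + 1)) = gf ε η (μ v + m v) + tau ε η (μ v + m v) := by
      rw [← Nat.add_assoc, gf_succ]
      rfl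
    have h9 := abs_nonneg (∑ u, w v u * S.lev n v u)
    rw [h1, h8]
    linarith
  refine ⟨fun v => if v ∈ U then m v + 1 else m v,
    fun v => if v ∈ U then 2 * q v + (S.side v).toNat else q v, w', ?_, ?_, ?_⟩
  · constructor
    · intro v
      by_cases hv : v ∈ U
      · simp only [hv, if_true]
        exact le_of_sum hε hη hM (Finset.sum_nonneg fun u _ => hw'0 v u) (hsumU v hv)
      · simp only [hv, if_false]
        exact h.le v
    · intro v
      by_cases hv : v ∈ U
      · simp only [hv, if_true]
        rw [pow_succ]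
        have h1 := h.q_lt v
        have h2 : (S.side v).toNat ≤ 1 := Bool.toNat_le _
        omega
      · simp only [hv, if_false]
        exact h.q_lt v
    · exact hw'0
    · intro v
      by_cases hv : v ∈ U
      · simp only [hv, if_true]
        exact hsumU v hv
      · simp only [hv, if_false]
        have : ∑ u, w' v u = ∑ u, w v u := by
          refine Finset.sum_congr rfl fun u _ => ?_
          simp only [hw', hfac]
          rw [if_neg hv, mul_one]
        rw [this]
        exact h.sum_le v
    · -- products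
      have main : ∀ v u x, 0 ≤ x → Real.sqrt x ≤ fac v u * fac u v →
          S.Cf v u * Real.sqrt (S.F v u (n v) (n u) * x) ≤ w' v u * w' u v := by
        intro v u x hx hxf
        rw [Real.sqrt_mul (S.F_nonneg _ _ _ _)]
        have h1 := h.prod v u
        have h2 : 0 ≤ w v u * w u v := mul_nonneg (h.w_nonneg _ _) (h.w_nonneg _ _)
        calc S.Cf v u * (Real.sqrt (S.F v u (n v) (n u)) * Real.sqrt x)
            = S.Cf v u * Real.sqrt (S.F v u (m v, q v) (m u, q u)) * Real.sqrt x := by
              simp only [hn]; ring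
          _ ≤ (w v u * w u v) * (fac v u * fac u v) :=
              mul_le_mul h1 hxf (Real.sqrt_nonneg _) h2
          _ = w' v u * w' u v := by simp only [hw']; ring
      have hside : ∀ v u, v ∈ U → u ∉ U →
          S.Cf v u * Real.sqrt (S.F v u (ch (n v) (S.side v)) (n u)) ≤ w' v u * w' u v := by
        intro v u hv hu
        rw [OL.F_child hnav]
        have hp := OL.lev_mix_pf hnav v u
        have h1 := hp.R_le
        have h2 := hp.R_ge
        refine main v u _ ?_ ?_
        · cases S.side v
          · simp only [sg_false]; linarith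
          · simp only [sg_true]; linarith
        · simp only [hfac]
          rw [if_pos hv, if_neg hu, if_neg hu, mul_one, add_zero]
          cases S.side v
          · simp only [sg_false]
            have := sqrt_lin (r := 1 * S.lev n v u) (by linarith)
            nlinarith [sq_nonneg (S.lev n v u)]
          · simp only [sg_true]
            have := sqrt_lin (r := -1 * S.lev n v u) (by linarith)
            nlinarith [sq_nonneg (S.lev n v u)]
      intro v u
      by_cases hv : v ∈ U <;> by_cases hu : u ∈ U
      · simp only [hv, hu, if_true]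
        change S.Cf v u * Real.sqrt (S.F v u (ch (n v) (S.side v)) (ch (n u) (S.side u))) ≤ _
        by_cases hs : S.side v = S.side u
        · rw [S.F_same v u _ _ hs, Real.sqrt_zero, mul_zero]
          exact mul_nonneg (hw'0 _ _) (hw'0 _ _)
        · rw [OL.F_quad hnav]
          have hp := OL.lev_mix_pf hnav v u
          have hmix := S.mix_symm n v u
          refine main v u _ ?_ ?_
          · cases hsv : S.side v <;> cases hsu : S.side u
            · rw [hsv, hsu] at hs; exact absurd rfl hs
            · simp only [sg_false, sg_true]; linarith [hp.pm]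
            · simp only [sg_false, sg_true]; linarith [hp.mp]
            · rw [hsv, hsu] at hs; exact absurd rfl hs
          · simp only [hfac]
            rw [if_pos hv, if_pos hu, if_pos hv, if_pos hu, ← hmix]
            cases hsv : S.side v <;> cases hsu : S.side u
            · rw [hsv, hsu] at hs; exact absurd rfl hs
            · simp only [sg_false, sg_true]
              have hq := sqrt_shared hp.flip
              refine le_trans (le_of_eq ?_) (le_trans hq (le_of_eq ?_))
              · congr 1; ring
              · ring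
            · simp only [sg_false, sg_true]
              have hq := sqrt_shared hp.neg.flip
              refine le_trans (le_of_eq ?_) (le_trans hq (le_of_eq ?_))
              · congr 1; ring
              · ring
            · rw [hsv, hsu] at hs; exact absurd rfl hs
      · simp only [hv, hu, if_true, if_false]
        exact hside v u hv hu
      · simp only [hv, hu, if_true, if_false]
        have := hside u v hu hv
        rw [S.F_symm, S.C_symm, mul_comm (w' v u)]
        exact this
      · simp only [hv, hu, if_false]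
        have h1 := h.prod v u
        simp only [hw', hfac]
        rw [if_neg hv, if_neg hu, mul_one, mul_one]
        exact h1
  · intro v
    dsimp only
    split_ifs <;> omega
  · obtain ⟨v, hv⟩ := hU
    exact ⟨v, by simp only [hv, if_true]; omega⟩

/-- If there is no core, the vertices can be ordered so that each vertex sees little mixed
weight towards the later vertices. -/
lemma exists_rank {V : Type*} [Fintype V] [DecidableEq V] (a : V → V → ℝ) (t : V → ℝ)
    (ha : ∀ v, a v v = 0)
    (h : ∀ U : Finset V, U.Nonempty → ∃ v ∈ U, ∑ u ∈ U, a v u < t v) :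
    ∃ rk : V → ℕ, Function.Injective rk ∧
      ∀ v, ∑ u, (if rk v < rk u then a v u else 0) ≤ t v := by
  have key : ∀ k : ℕ, ∀ U : Finset V, U.card = k → ∃ rk : V → ℕ, Set.InjOn rk U ∧
      ∀ v ∈ U, ∑ u ∈ U, (if rk v < rk u then a v u else 0) ≤ t v := by
    intro k
    induction k with
    | zero =>
      intro U hU
      rw [Finset.card_eq_zero] at hU
      subst hU
      exact ⟨fun _ => 0, by simp, by simp⟩
    | succ k ih =>
      intro U hU
      have hne : U.Nonempty := by
        rw [← Finset.card_pos]; omega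
      obtain ⟨v, hv, hlt⟩ := h U hne
      obtain ⟨rk, hinj, hrk⟩ := ih (U.erase v) (by rw [Finset.card_erase_of_mem hv]; omega)
      refine ⟨fun u => if u = v then 0 else rk u + 1, ?_, ?_⟩
      · intro x hx y hy hxy
        simp only at hxy
        by_cases hxv : x = v <;> by_cases hyv : y = v
        · rw [hxv, hyv]
        · rw [if_pos hxv, if_neg hyv] at hxy; omega
        · rw [if_neg hxv, if_pos hyv] at hxy; omega
        · rw [if_neg hxv, if_neg hyv] at hxy
          refine hinj ?_ ?_ (by omega)
          · exact Finset.mem_coe.mpr (Finset.mem_erase.mpr ⟨hxv, hx⟩)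
          · exact Finset.mem_coe.mpr (Finset.mem_erase.mpr ⟨hyv, hy⟩)
      · intro x hx
        by_cases hxv : x = v
        · subst hxv
          refine le_of_lt (lt_of_le_of_lt (le_of_eq ?_) hlt)
          refine Finset.sum_congr rfl fun u _ => ?_
          simp only [if_true]
          by_cases hux : u = x
          · subst hux
            simp [ha]
          · rw [if_neg hux, if_pos (by omega)]
        · have h1 := hrk x (Finset.mem_erase.mpr ⟨hxv, hx⟩)
          refine le_trans (le_of_eq ?_) h1
          rw [← Finset.add_sum_erase _ _ hv]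
          simp only [if_true, hxv, if_false]
          rw [if_neg (by omega), zero_add]
          refine Finset.sum_congr rfl fun u hu => ?_
          rw [if_neg (Finset.ne_of_mem_erase hu)]
          by_cases hlt' : rk x < rk u
          · rw [if_pos (by omega), if_pos hlt']
          · rw [if_neg (by omega), if_neg hlt']
  obtain ⟨rk, hinj, hrk⟩ := key _ Finset.univ rfl
  refine ⟨rk, ?_, ?_⟩
  · intro x y hxy
    exact hinj (by simp) (by simp) hxy
  · intro v
    exact hrk v (Finset.mem_univ v)

/-- Splitting at a happy state without core. -/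
lemma split_state (hav : ∀ v, M < μ v + S.av v) (h : St S ε η M μ m q w)
    (hgood : ∀ v, |∑ u, w v u * S.lev (fun v => (m v, q v)) v u| / 2 +
      (∑ u, w v u * (S.lev (fun v => (m v, q v)) v u) ^ 2) / 12 ≤ tau ε η (μ v + m v))
    (hnocore : ∀ U : Finset V, U.Nonempty → ∃ v ∈ U,
      ∑ u ∈ U, w v u * S.mix (fun v => (m v, q v)) v u < 52 * tau ε η (μ v + m v)) :
    ∃ wb : Bool → V → V → ℝ, (∀ b v u, 0 ≤ wb b v u) ∧
      (∀ b v, ∑ u, wb b v u ≤ 1 - gf ε η (μ v + m v) + 38 * tau ε η (μ v + m v)) ∧
      ∀ b v u, S.Cf v u * Real.sqrt (S.F v u (ch (m v, q v) b) (ch (m u, q u) b)) ≤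
        wb b v u * wb b u v := by
  set n : V → ℕ × ℕ := fun v => (m v, q v) with hn
  have hnav : ∀ v, (n v).1 < S.av v := by
    intro v
    have h1 := h.le v
    have h2 := hav v
    simp only [hn]
    omega
  obtain ⟨rk, hinj, hrk⟩ := exists_rank (fun v u => w v u * S.mix n v u)
    (fun v => 52 * tau ε η (μ v + m v))
    (fun v => by simp only [S.mix_same n v v rfl, mul_zero]) hnocore
  set fac : Bool → V → V → ℝ := fun b v u =>
    1 + sg b * S.lev n v u / 2 + (S.lev n v u) ^ 2 +
      (if rk v < rk u then S.mix n v u / 2 else 0) with hfac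
  have hfac0 : ∀ b v u, 0 ≤ fac b v u := by
    intro b v u
    have hp := OL.lev_mix_pf hnav v u
    have h1 := hp.R_le
    have h2 := hp.R_ge
    simp only [hfac]
    cases b <;> split_ifs <;> simp only [sg_false, sg_true]
    · nlinarith [sq_nonneg (S.lev n v u), hp.pp, hp.pm, hp.mp, hp.mm]
    · nlinarith [sq_nonneg (S.lev n v u)]
    · nlinarith [sq_nonneg (S.lev n v u), hp.pp, hp.pm, hp.mp, hp.mm]
    · nlinarith [sq_nonneg (S.lev n v u)]
  refine ⟨fun b v u => w v u * fac b v u, ?_, ?_, ?_⟩
  · intro b v u
    exact mul_nonneg (h.w_nonneg v u) (hfac0 b v u)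
  · intro b v
    have h1 : ∑ u, w v u * fac b v u = ∑ u, w v u + sg b * (∑ u, w v u * S.lev n v u) / 2 +
        ∑ u, w v u * (S.lev n v u) ^ 2 +
        (∑ u, (if rk v < rk u then w v u * S.mix n v u else 0)) / 2 := by
      rw [Finset.sum_div, mul_div_assoc, Finset.sum_div, Finset.mul_sum,
        ← Finset.sum_add_distrib, ← Finset.sum_add_distrib, ← Finset.sum_add_distrib]
      refine Finset.sum_congr rfl fun u _ => ?_
      simp only [hfac]
      split_ifs <;> ring
    have h2 : sg b * (∑ u, w v u * S.lev n v u) / 2 ≤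
        |∑ u, w v u * S.lev n v u| / 2 := by
      have h3 := le_abs_self (∑ u, w v u * S.lev n v u)
      have h4 := neg_abs_le (∑ u, w v u * S.lev n v u)
      cases b
      · simp only [sg_false]; linarith
      · simp only [sg_true]; linarith
    have h5 := h.sum_le v
    have h6 := hgood v
    have h7 := hrk v
    have h9 := abs_nonneg (∑ u, w v u * S.lev n v u)
    rw [h1]
    linarith
  · have main : ∀ b v u, rk v < rk u →
        S.Cf v u * Real.sqrt (S.F v u (ch (n v) b) (ch (n u) b)) ≤
          (w v u * fac b v u) * (w u v * fac b u v) := by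
      intro b v u hvu
      rw [OL.F_quad hnav, Real.sqrt_mul (S.F_nonneg _ _ _ _)]
      have hp := OL.lev_mix_pf hnav v u
      have hmix := S.mix_symm n v u
      have h1 := h.prod v u
      have h2 : 0 ≤ w v u * w u v := mul_nonneg (h.w_nonneg _ _) (h.w_nonneg _ _)
      have h3 : Real.sqrt (1 + sg b * S.lev n v u + sg b * S.lev n u v +
          sg b * sg b * S.mix n v u) ≤ fac b v u * fac b u v := by
        simp only [hfac]
        rw [if_pos hvu, if_neg (by omega), add_zero]
        cases b
        · simp only [sg_false]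
          have hq := sqrt_paid hp.swap
          refine le_trans (le_of_eq ?_) (le_trans hq (le_of_eq ?_))
          · congr 1; ring
          · ring
        · simp only [sg_true]
          have hq := sqrt_paid hp.swap.neg
          refine le_trans (le_of_eq ?_) (le_trans hq (le_of_eq ?_))
          · congr 1; ring
          · ring
      calc S.Cf v u * (Real.sqrt (S.F v u (n v) (n u)) * Real.sqrt (1 + sg b * S.lev n v u +
            sg b * S.lev n u v + sg b * sg b * S.mix n v u))
          = S.Cf v u * Real.sqrt (S.F v u (m v, q v) (m u, q u)) *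
            Real.sqrt (1 + sg b * S.lev n v u +
            sg b * S.lev n u v + sg b * sg b * S.mix n v u) := by
            simp only [hn]; ring
        _ ≤ (w v u * w u v) * (fac b v u * fac b u v) :=
            mul_le_mul h1 h3 (Real.sqrt_nonneg _) h2
        _ = _ := by ring
    intro b v u
    rcases lt_trichotomy (rk v) (rk u) with hlt | heq | hgt
    · exact main b v u hlt
    · have hvu := hinj heq
      subst hvu
      rw [S.F_same v v _ _ rfl, Real.sqrt_zero, mul_zero]
      exact mul_nonneg (mul_nonneg (h.w_nonneg _ _) (hfac0 _ _ _))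
        (mul_nonneg (h.w_nonneg _ _) (hfac0 _ _ _))
    · have := main b u v hgt
      rw [S.F_symm, S.C_symm, mul_comm (w v u * fac b v u)]
      exact this

/-- The one-level lemma. -/
theorem one_level (S : OL V) {ε η : ℝ} (hε : 0 ≤ ε) (hη : 0 ≤ η) {M : ℕ}
    (hM : 1 < gf ε η (M + 1)) {μ : V → ℕ} (hav : ∀ v, M < μ v + S.av v) (hμ : ∀ v, μ v ≤ M)
    (w : V → V → ℝ) (hw0 : ∀ v u, 0 ≤ w v u) (hsum : ∀ v, ∑ u, w v u ≤ 1 - gf ε η (μ v))
    (hprod : ∀ v u, S.Cf v u * Real.sqrt (S.F v u (0, 0) (0, 0)) ≤ w v u * w u v) :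
    ∃ (m q : V → ℕ) (w' : V → V → ℝ) (wb : Bool → V → V → ℝ), St S ε η M μ m q w' ∧
      (∀ b v u, 0 ≤ wb b v u) ∧
      (∀ b v, ∑ u, wb b v u ≤ 1 - gf ε η (μ v + m v) + 38 * tau ε η (μ v + m v)) ∧
      ∀ b v u, S.Cf v u * Real.sqrt (S.F v u (ch (m v, q v) b) (ch (m u, q u) b)) ≤
        wb b v u * wb b u v := by
  have key : ∀ (k : ℕ) (m q : V → ℕ) (w : V → V → ℝ), St S ε η M μ m q w →
      ∑ v, (M - (μ v + m v)) = k →
      ∃ (m q : V → ℕ) (w' : V → V → ℝ) (wb : Bool → V → V → ℝ), St S ε η M μ m q w' ∧
      (∀ b v u, 0 ≤ wb b v u) ∧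
      (∀ b v, ∑ u, wb b v u ≤ 1 - gf ε η (μ v + m v) + 38 * tau ε η (μ v + m v)) ∧
      ∀ b v u, S.Cf v u * Real.sqrt (S.F v u (ch (m v, q v) b) (ch (m u, q u) b)) ≤
        wb b v u * wb b u v := by
    intro k
    induction k using Nat.strong_induction_on with
    | _ k ih =>
      intro m q w h hk
      have hnext : (∃ m' q' w', St S ε η M μ m' q' w' ∧ (∀ v, m v ≤ m' v) ∧ ∃ v, m v < m' v) →
          ∃ (m q : V → ℕ) (w' : V → V → ℝ) (wb : Bool → V → V → ℝ), St S ε η M μ m q w' ∧
          (∀ b v u, 0 ≤ wb b v u) ∧
          (∀ b v, ∑ u, wb b v u ≤ 1 - gf ε η (μ v + m v) + 38 * tau ε η (μ v + m v)) ∧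
          ∀ b v u, S.Cf v u * Real.sqrt (S.F v u (ch (m v, q v) b) (ch (m u, q u) b)) ≤
            wb b v u * wb b u v := by
        rintro ⟨m', q', w', h', hle, v0, hv0⟩
        refine ih (∑ v, (M - (μ v + m' v))) ?_ m' q' w' h' rfl
        rw [← hk]
        refine Finset.sum_lt_sum (fun v _ => ?_) ⟨v0, Finset.mem_univ _, ?_⟩
        · have := hle v
          omega
        · have := h'.le v0
          omega
      by_cases hgood : ∀ v, |∑ u, w v u * S.lev (fun v => (m v, q v)) v u| / 2 +
          (∑ u, w v u * (S.lev (fun v => (m v, q v)) v u) ^ 2) / 12 ≤ tau ε η (μ v + m v)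
      · by_cases hnocore : ∀ U : Finset V, U.Nonempty → ∃ v ∈ U,
            ∑ u ∈ U, w v u * S.mix (fun v => (m v, q v)) v u < 52 * tau ε η (μ v + m v)
        · obtain ⟨wb, h1, h2, h3⟩ := split_state hav h hgood hnocore
          exact ⟨m, q, w, wb, h, h1, h2, h3⟩
        · push Not at hnocore
          obtain ⟨U, hU, hcore⟩ := hnocore
          exact hnext (core_move hε hη hM hav h hgood U hU hcore)
      · push Not at hgood
        obtain ⟨v0, hv0⟩ := hgood
        exact hnext (single_move hε hη hM hav h v0 hv0.le)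
  refine key _ (fun _ => 0) (fun _ => 0) w ?_ rfl
  constructor
  · intro v
    simpa using hμ v
  · intro v
    simp
  · exact hw0
  · intro v
    simpa using hsum v
  · exact hprod

end State

end Pool.Agent.helper336_cube
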