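import Mathlib
import Pool.Agent.helper336_cube.Transversal
import Pool.Agent.helper336_cube.OneLevel

set_option autoImplicit false

namespace Pool.Agent.helper336_cube

open Finset

/-- Small row sums give good weights. -/
lemma good_of_sum {V : Type*} [Fintype V] [DecidableEq V] {W : V → V → ℝ}
    (hW : ∀ a b, W a b = W b a) (hW0 : ∀ a b, 0 ≤ W a b) {z : ℝ} (hz : 0 < z)
    (hsum : ∀ a, ∑ b, W a b ≤ z ^ 2 / 4) : Good W z := by
  have key : ∀ (n : ℕ) (S : Finset V), S.card = n → 0 < mu W z S ∧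
      ∀ a ∈ S, mu W z (S.erase a) ≤ 2 / z * mu W z S := by
    intro n
    induction n with
    | zero =>
      intro S hS
      rw [Finset.card_eq_zero] at hS
      subst hS
      rw [mu_empty]
      exact ⟨one_pos, by simp⟩
    | succ n ih =>
      intro S hS
      have main : ∀ a ∈ S, z / 2 * mu W z (S.erase a) ≤ mu W z S ∧ 0 < mu W z (S.erase a) := by
        intro a ha
        have hcard : (S.erase a).card = n := by
          rw [Finset.card_erase_of_mem ha]; omega
        obtain ⟨h1, h2⟩ := ih _ hcard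
        rw [mu_rec' W hW z S ha]
        refine ⟨?_, h1⟩
        have h3 : ∑ b ∈ S.erase a, W a b * mu W z ((S.erase a).erase b) ≤
            ∑ b ∈ S.erase a, W a b * (2 / z * mu W z (S.erase a)) :=
          Finset.sum_le_sum fun b hb => mul_le_mul_of_nonneg_left (h2 b hb) (hW0 a b)
        rw [← Finset.sum_mul] at h3
        have h4 : ∑ b ∈ S.erase a, W a b ≤ z ^ 2 / 4 :=
          le_trans (Finset.sum_le_sum_of_subset_of_nonneg (Finset.subset_univ _)
            fun b _ _ => hW0 a b) (hsum a)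
        have h5 : (∑ b ∈ S.erase a, W a b) * (2 / z * mu W z (S.erase a)) ≤
            z ^ 2 / 4 * (2 / z * mu W z (S.erase a)) :=
          mul_le_mul_of_nonneg_right h4 (by positivity)
        have h6 : z ^ 2 / 4 * (2 / z * mu W z (S.erase a)) = z / 2 * mu W z (S.erase a) := by
          field_simp
          ring
        linarith
      have hne : S.Nonempty := by
        rw [← Finset.card_pos]; omega
      obtain ⟨a0, ha0⟩ := hne
      have hpos : 0 < mu W z S := by
        obtain ⟨h1, h2⟩ := main a0 ha0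
        have : 0 < z / 2 * mu W z (S.erase a0) := by positivity
        linarith
      refine ⟨hpos, fun a ha => ?_⟩
      obtain ⟨h1, _⟩ := main a ha
      calc mu W z (S.erase a) = 2 / z * (z / 2 * mu W z (S.erase a)) := by
            field_simp
        _ ≤ 2 / z * mu W z S := mul_le_mul_of_nonneg_left h1 (by positivity)
  intro S
  exact (key _ S rfl).1

lemma dens2_harm (K : ℕ → ℕ → ℝ) (s s' : Bool) (w w' a : ℕ × ℕ) (ha : a.1 < w.1) :
    dens2 K s s' (desc w a.1 a.2) w' =
      (dens2 K s s' (desc w (ch a false).1 (ch a false).2) w' +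
        dens2 K s s' (desc w (ch a true).1 (ch a true).2) w') / 2 := by
  have e : desc w a.1 a.2 = (w.1 - (a.1 + 1) + 1, w.2 * 2 ^ a.1 + a.2) := by
    unfold desc
    congr 1
    omega
  have e1 : desc w (ch a false).1 (ch a false).2 =
      (w.1 - (a.1 + 1), 2 * (w.2 * 2 ^ a.1 + a.2)) := by
    unfold desc ch
    simp only [Bool.toNat_false]
    congr 1
    ring
  have e2 : desc w (ch a true).1 (ch a true).2 =
      (w.1 - (a.1 + 1), 2 * (w.2 * 2 ^ a.1 + a.2) + 1) := by
    unfold desc ch
    simp only [Bool.toNat_true]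
    congr 1
    ring
  unfold dens2
  rw [e, e1, e2, dens_row]

/-- The data of one level of the cube. -/
noncomputable def cubeOL (K : ℕ → ℕ → ℝ) (hK : ∀ i j, 0 ≤ K i j) (c D : ℝ) (hc : 0 ≤ c)
    (hD : 0 ≤ D) {k : ℕ} (Win : VV k → ℕ × ℕ) : OL (VV k) where
  F := fun v u a b => dens2 K v.2 u.2 (desc (Win v) a.1 a.2) (desc (Win u) b.1 b.2)
  Cf := fun v u => c * cc D (hammingDist v.1 u.1)
  side := fun v => v.2
  av := fun v => (Win v).1
  F_nonneg := fun _ _ _ _ => dens2_nonneg K hK _ _ _ _
  F_symm := fun _ _ _ _ => dens2_symm K _ _ _ _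
  F_same := by
    intro v u a b h
    rw [h]
    exact dens2_same K _ _ _
  F_harm := fun v u a b ha => dens2_harm K _ _ _ _ a ha
  C_nonneg := fun _ _ => mul_nonneg hc (cc_nonneg hD _)
  C_symm := fun _ _ => by rw [hammingDist_comm]

lemma sum_VV_succ {k : ℕ} (f : VV (k + 1) → ℝ) :
    ∑ Y, f Y = ∑ c : Bool, ∑ y : VV k, f ((Fin.snoc y.1 c : Fin (k + 1) → Bool), y.2) := by
  rw [← Fintype.sum_prod_type' (f := fun (c : Bool) (y : VV k) =>
    f ((Fin.snoc y.1 c : Fin (k + 1) → Bool), y.2))]
  symm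
  refine Fintype.sum_equiv
    { toFun := fun p : Bool × VV k => (((Fin.snoc p.2.1 p.1 : Fin (k + 1) → Bool), p.2.2) : VV (k + 1))
      invFun := fun Y => (Y.1 (Fin.last k), ((Fin.init Y.1 : Fin k → Bool), Y.2))
      left_inv := ?_
      right_inv := ?_ } _ _ (fun _ => rfl)
  · rintro ⟨c, y1, y2⟩
    simp
  · rintro ⟨Y1, Y2⟩
    simp

lemma gf_scale {ε η : ℝ} (hε : 0 ≤ ε) (hη : 0 ≤ η) (m c : ℕ) :
    (1 + ε) ^ c * gf ε η m ≤ gf ε η (m + c) := by
  induction c with
  | zero => simp
  | succ c ih =>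
    rw [← Nat.add_assoc, gf_succ, pow_succ]
    have h1 := gf_nonneg hε hη (m + c)
    have h2 : (1 + ε) * ((1 + ε) ^ c * gf ε η m) ≤ (1 + ε) * gf ε η (m + c) :=
      mul_le_mul_of_nonneg_left ih (by linarith)
    nlinarith

/-- The invariants at level `k`. -/
structure Lev (K : ℕ → ℕ → ℝ) (D κ ε η : ℝ) (M Cd d : ℕ) (L : Bool → ℕ) (k : ℕ)
    (Win : VV k → ℕ × ℕ) (μ : VV k → ℕ) (w : VV k → VV k → ℝ) : Prop where
  av : ∀ x, (d - k) * (Cd + 1) + M < μ x + (Win x).1
  le : ∀ x, μ x ≤ M
  w0 : ∀ x y, 0 ≤ w x y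
  sum : ∀ x, ∑ y, w x y ≤ 1 - gf ε η (μ x)
  prod : ∀ x y, (16 * (1 + κ) ^ (2 * (d - k))) * cc D (hammingDist x.1 y.1) *
    Real.sqrt (dens2 K x.2 y.2 (Win x) (Win y)) ≤ w x y * w y x
  ord : ∀ u v s, vl k u < vl k v → hi (Win (u, s)) ≤ lo (Win (v, s))
  top : ∀ x, hi (Win x) ≤ 2 ^ L x.2

theorem lev_step {K : ℕ → ℕ → ℝ} (hK : ∀ i j, 0 ≤ K i j) {D κ ε η : ℝ} (hD : 0 < D)
    (hε : 0 ≤ ε) (hε2 : 38 * ε ≤ 1 / 2) (hη : 0 ≤ η) (hκ : 38 * η + Real.sqrt (2 / D) ≤ κ)
    (hκ1 : κ ≤ 1) {M Cd : ℕ} (hCd : 4 ≤ (1 + ε) ^ Cd) (hM : 1 < gf ε η (M + 1))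
    {d : ℕ} {L : Bool → ℕ} {k : ℕ} (hk : k + 1 ≤ d)
    {Win : VV k → ℕ × ℕ} {μ : VV k → ℕ} {w : VV k → VV k → ℝ}
    (h : Lev K D κ ε η M Cd d L k Win μ w) :
    ∃ Win' μ' w', Lev K D κ ε η M Cd d L (k + 1) Win' μ' w' := by
  have hκ0 : 0 ≤ κ := le_trans (by positivity) hκ
  have hp0 : 0 < 1 + κ := by linarith
  set c : ℝ := 16 * (1 + κ) ^ (2 * (d - k)) with hc
  have hc0 : 0 ≤ c := by positivity
  set S := cubeOL K hK c D hc0 hD.le Win with hS
  have hav : ∀ v, M < μ v + S.av v := by
    intro v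
    have := h.av v
    change M < μ v + (Win v).1
    omega
  obtain ⟨m, q, w', wb, hst, hwb0, hwbs, hwbp⟩ := one_level S hε hη hM hav h.le w h.w0 h.sum
    (by
      intro v u
      have := h.prod v u
      change c * cc D (hammingDist v.1 u.1) *
        Real.sqrt (dens2 K v.2 u.2 (desc (Win v) 0 0) (desc (Win u) 0 0)) ≤ _
      rw [desc_zero, desc_zero]
      exact this)
  set s : VV k → (_ : ℕ) × ℕ := fun x => ⟨m x, q x⟩ with hs
  have hmlt : ∀ x, m x + 1 ≤ (Win x).1 := by
    intro x
    have h1 := hst.le x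
    have h2 := h.av x
    omega
  have hqlt : ∀ (x : VV k) (b : Bool), 2 * q x + b.toNat < 2 ^ (m x + 1) := by
    intro x b
    have h1 := hst.q_lt x
    have h2 : b.toNat ≤ 1 := Bool.toNat_le _
    rw [pow_succ]
    omega
  set px : VV (k + 1) → VV k := fun X => ((Fin.init X.1 : Fin k → Bool), X.2) with hpx
  set ρ : ℝ := Real.sqrt (2 / D) with hρ
  have hρ0 : 0 ≤ ρ := Real.sqrt_nonneg _
  have hρ2 : ρ * ρ = 2 / D := Real.mul_self_sqrt (by positivity)
  set w2 : VV (k + 1) → VV (k + 1) → ℝ := fun X Y => (1 + κ)⁻¹ *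
    (if X.1 (Fin.last k) = Y.1 (Fin.last k) then wb (X.1 (Fin.last k)) (px X) (px Y)
      else if (Fin.init X.1 : Fin k → Bool) = Fin.init Y.1 then ρ * w' (px X) (px Y) else 0)
    with hw2
  refine ⟨newWin Win s, fun X => μ (px X) + m (px X) - Cd, w2, ?_⟩
  constructor
  · -- available depth
    intro X
    have h1 := h.av (px X)
    have h2 : (d - k) * (Cd + 1) = (d - (k + 1)) * (Cd + 1) + (Cd + 1) := by
      have : d - k = (d - (k + 1)) + 1 := by omega
      rw [this]; ring
    have h3 : (newWin Win s X).1 = (Win (px X)).1 - (m (px X) + 1) := rfl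
    have h4 := hmlt (px X)
    rw [h3]
    omega
  · intro X
    have := hst.le (px X)
    omega
  · intro X Y
    simp only [hw2]
    refine mul_nonneg (inv_nonneg.mpr hp0.le) ?_
    split_ifs
    · exact hwb0 _ _ _
    · exact mul_nonneg hρ0 (hst.w_nonneg _ _)
    · exact le_rfl
  · -- sums
    intro X
    have e1 : ∑ Y, w2 X Y = (1 + κ)⁻¹ * (∑ y, wb (X.1 (Fin.last k)) (px X) y +
        ∑ y : VV k, (if (Fin.init X.1 : Fin k → Bool) = y.1 then ρ * w' (px X) y else 0)) := by
      rw [sum_VV_succ, Fintype.sum_bool, mul_add, Finset.mul_sum, Finset.mul_sum]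
      simp only [hw2, hpx, Fin.snoc_last, Fin.init_snoc]
      cases hb : X.1 (Fin.last k)
      · simp only [Bool.false_eq_true, if_false, if_true]
        rw [add_comm]
      · simp only [if_true, Bool.true_eq_false, if_false]
    have e2 : ∑ y : VV k, (if (Fin.init X.1 : Fin k → Bool) = y.1 then ρ * w' (px X) y else 0) ≤
        ρ := by
      calc ∑ y : VV k, (if (Fin.init X.1 : Fin k → Bool) = y.1 then ρ * w' (px X) y else 0)
          ≤ ∑ y : VV k, ρ * w' (px X) y := by
            refine Finset.sum_le_sum fun y _ => ?_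
            split_ifs
            · exact le_rfl
            · exact mul_nonneg hρ0 (hst.w_nonneg _ _)
        _ = ρ * ∑ y : VV k, w' (px X) y := by rw [Finset.mul_sum]
        _ ≤ ρ * 1 := by
            refine mul_le_mul_of_nonneg_left ?_ hρ0
            have h1 := hst.sum_le (px X)
            have h2 := gf_nonneg hε hη (μ (px X) + m (px X))
            linarith
        _ = ρ := mul_one _
    have e3 := hwbs (X.1 (Fin.last k)) (px X)
    have g0 := gf_nonneg hε hη (μ (px X) + m (px X))
    have e4 : ∑ Y, w2 X Y ≤ (1 + κ)⁻¹ * (1 + κ - gf ε η (μ (px X) + m (px X)) / 2) := by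
      rw [e1]
      refine mul_le_mul_of_nonneg_left ?_ (inv_nonneg.mpr hp0.le)
      unfold tau at e3
      nlinarith
    refine le_trans e4 ?_
    have e5 : gf ε η (μ (px X) + m (px X) - Cd) ≤ gf ε η (μ (px X) + m (px X)) / 4 := by
      rcases Nat.lt_or_ge (μ (px X) + m (px X)) Cd with hlt | hge
      · have : μ (px X) + m (px X) - Cd = 0 := by omega
        rw [this]
        have h0 : gf ε η 0 = 0 := rfl
        rw [h0]
        positivity
      · obtain ⟨j, hj⟩ := Nat.exists_eq_add_of_le hge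
        have hj' : μ (px X) + m (px X) = j + Cd := by omega
        rw [hj', Nat.add_sub_cancel]
        have h1 := gf_scale hε hη j Cd
        have h2 := gf_nonneg hε hη j
        nlinarith
    rw [inv_mul_le_iff₀ hp0]
    nlinarith
  · -- products
    intro X Y
    have hcc : 16 * (1 + κ) ^ (2 * (d - (k + 1))) = (1 + κ)⁻¹ * (1 + κ)⁻¹ * c := by
      have e : 2 * (d - k) = 2 * (d - (k + 1)) + 2 := by omega
      rw [hc, e, pow_add]
      field_simp
    rw [hcc, hd_split X.1 Y.1]
    simp only [hw2]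
    by_cases hl : X.1 (Fin.last k) = Y.1 (Fin.last k)
    · rw [if_pos hl, if_pos hl, if_pos hl.symm, add_zero]
      have h1 := hwbp (X.1 (Fin.last k)) (px X) (px Y)
      change c * cc D (hammingDist (Fin.init X.1 : Fin k → Bool) (Fin.init Y.1)) *
        Real.sqrt (dens2 K X.2 Y.2 (desc (Win (px X)) (m (px X) + 1)
          (2 * q (px X) + (X.1 (Fin.last k)).toNat)) (desc (Win (px Y)) (m (px Y) + 1)
          (2 * q (px Y) + (X.1 (Fin.last k)).toNat))) ≤ _ at h1
      have h2 : dens2 K X.2 Y.2 (newWin Win s X) (newWin Win s Y) =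
          dens2 K X.2 Y.2 (desc (Win (px X)) (m (px X) + 1)
          (2 * q (px X) + (X.1 (Fin.last k)).toNat)) (desc (Win (px Y)) (m (px Y) + 1)
          (2 * q (px Y) + (X.1 (Fin.last k)).toNat)) := by
        unfold newWin
        rw [← hl]
      rw [h2, ← hl]
      have h3 : 0 ≤ (1 + κ)⁻¹ * (1 + κ)⁻¹ := by positivity
      have h4 := mul_le_mul_of_nonneg_left h1 h3
      refine le_trans (le_of_eq ?_) (le_trans h4 (le_of_eq ?_))
      · ring
      · ring
    · have hl' : ¬ Y.1 (Fin.last k) = X.1 (Fin.last k) := fun h' => hl h'.symm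
      rw [if_neg hl, if_neg hl, if_neg hl']
      by_cases hin : (Fin.init X.1 : Fin k → Bool) = Fin.init Y.1
      · rw [if_pos hin, if_pos hin.symm, hin, hammingDist_self]
        have hcc1 : cc D (0 + 1) = 1 := by simp [cc]
        rw [hcc1, mul_one]
        have hn : ∀ v, (m v, q v).1 < S.av v := hmlt
        have hp := hst.prod (px X) (px Y)
        change c * cc D (hammingDist (Fin.init X.1 : Fin k → Bool) (Fin.init Y.1)) *
          Real.sqrt (S.F (px X) (px Y) (m (px X), q (px X)) (m (px Y), q (px Y))) ≤ _ at hp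
        rw [hin, hammingDist_self] at hp
        have hcc0 : cc D 0 = D := by simp [cc]
        rw [hcc0] at hp
        have hF : dens2 K X.2 Y.2 (newWin Win s X) (newWin Win s Y) =
            S.F (px X) (px Y) (ch (m (px X), q (px X)) (X.1 (Fin.last k)))
              (ch (m (px Y), q (px Y)) (Y.1 (Fin.last k))) := rfl
        have h4 : S.F (px X) (px Y) (ch (m (px X), q (px X)) (X.1 (Fin.last k)))
              (ch (m (px Y), q (px Y)) (Y.1 (Fin.last k))) ≤
            4 * S.F (px X) (px Y) (m (px X), q (px X)) (m (px Y), q (px Y)) := by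
          have a1 := S.F_harm (px X) (px Y) (m (px X), q (px X)) (m (px Y), q (px Y)) (hn _)
          have a2 := S.F_harm' (px X) (px Y) (ch (m (px X), q (px X)) (X.1 (Fin.last k)))
            (m (px Y), q (px Y)) (hn _)
          have b1 := S.F_nonneg (px X) (px Y) (ch (m (px X), q (px X)) false) (m (px Y), q (px Y))
          have b2 := S.F_nonneg (px X) (px Y) (ch (m (px X), q (px X)) true) (m (px Y), q (px Y))
          have b3 := S.F_nonneg (px X) (px Y) (ch (m (px X), q (px X)) (X.1 (Fin.last k)))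
            (ch (m (px Y), q (px Y)) false)
          have b4 := S.F_nonneg (px X) (px Y) (ch (m (px X), q (px X)) (X.1 (Fin.last k)))
            (ch (m (px Y), q (px Y)) true)
          have a3 : S.F (px X) (px Y) (ch (m (px X), q (px X)) (X.1 (Fin.last k)))
            (m (px Y), q (px Y)) ≤
            2 * S.F (px X) (px Y) (m (px X), q (px X)) (m (px Y), q (px Y)) := by
            cases X.1 (Fin.last k) <;> linarith
          cases hYb : Y.1 (Fin.last k) <;> linarith
        have h5 : Real.sqrt (dens2 K X.2 Y.2 (newWin Win s X) (newWin Win s Y)) ≤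
            2 * Real.sqrt (S.F (px X) (px Y) (m (px X), q (px X)) (m (px Y), q (px Y))) := by
          rw [hF]
          refine le_trans (Real.sqrt_le_sqrt h4) (le_of_eq ?_)
          rw [Real.sqrt_mul (by norm_num)]
          congr 1
          rw [show (4 : ℝ) = 2 ^ 2 by norm_num]
          exact Real.sqrt_sq (by norm_num)
        have h6 : 0 ≤ (1 + κ)⁻¹ * (1 + κ)⁻¹ * c := by positivity
        have h7 := mul_le_mul_of_nonneg_left h5 h6
        refine le_trans h7 ?_
        have h8 : 0 ≤ (1 + κ)⁻¹ * (1 + κ)⁻¹ * (2 / D) := by positivity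
        have h9 := mul_le_mul_of_nonneg_left hp h8
        refine le_trans (le_of_eq ?_) (le_trans h9 (le_of_eq ?_))
        · field_simp
        · rw [← hρ2]
          ring
      · have h1 : hammingDist (Fin.init X.1 : Fin k → Bool) (Fin.init Y.1) ≠ 0 := by
          rw [Ne, hammingDist_eq_zero]
          exact hin
        have h2 : cc D (hammingDist (Fin.init X.1 : Fin k → Bool) (Fin.init Y.1) + 1) = 0 := by
          unfold cc
          rw [if_neg (by omega), if_neg (by omega)]
        rw [h2, if_neg hin, if_neg (fun h' => hin h'.symm)]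
        simp
  · -- order
    intro u v sd huv
    rw [vl_succ, vl_succ] at huv
    have hu1 : (u (Fin.last k)).toNat ≤ 1 := Bool.toNat_le _
    have hv1 : (v (Fin.last k)).toNat ≤ 1 := Bool.toNat_le _
    rcases Nat.lt_or_ge (vl k (Fin.init u)) (vl k (Fin.init v)) with hlt | hge
    · have h1 := h.ord (Fin.init u) (Fin.init v) sd hlt
      have h2 : hi (newWin Win s (u, sd)) ≤ hi (Win (Fin.init u, sd)) :=
        hi_desc _ _ _ (hmlt _) (hqlt _ _)
      have h3 : lo (Win (Fin.init v, sd)) ≤ lo (newWin Win s (v, sd)) :=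
        lo_desc _ _ _ (hmlt _)
      omega
    · have heq : vl k (Fin.init u) = vl k (Fin.init v) := by omega
      have hin := vl_inj k _ _ heq
      have hbu : (u (Fin.last k)).toNat = 0 := by omega
      have hbv : (v (Fin.last k)).toNat = 1 := by omega
      unfold newWin desc hi lo
      simp only
      rw [hin, hbu, hbv]
      refine Nat.mul_le_mul_right _ (le_of_eq ?_)
      ring
  · intro x
    refine le_trans ?_ (h.top (Fin.init x.1, x.2))
    exact hi_desc _ _ _ (hmlt _) (hqlt _ _)

end Pool.Agent.helper336_cube
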