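import Mathlib
import Pool.Agent.helper336_cube.Cascade

set_option autoImplicit false

namespace Pool.Agent.helper336_cube

open Finset

lemma gf_formula (ε η : ℝ) (m : ℕ) : ε * gf ε η m + η = η * (1 + ε) ^ m := by
  induction m with
  | zero =>
    have h0 : gf ε η 0 = 0 := rfl
    rw [h0]; ring
  | succ m ih =>
    rw [gf_succ, pow_succ, ← mul_assoc, ← ih]
    ring

lemma growth54 : (2 : ℝ) ≤ (1 + 1 / 76) ^ 54 := by norm_num

lemma gf_big (d l : ℕ) (hl : d + 2 < 2 ^ l) :
    1 < gf (1 / 76) (1 / (76 * ((d : ℝ) + 1))) (54 * l) := by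
  have h1 := gf_formula (1 / 76) (1 / (76 * ((d : ℝ) + 1))) (54 * l)
  have h2 : ((d : ℝ) + 2) < (1 + 1 / 76) ^ (54 * l) := by
    calc ((d : ℝ) + 2) < 2 ^ l := by exact_mod_cast hl
      _ ≤ ((1 + 1 / 76) ^ 54) ^ l := pow_le_pow_left₀ (by norm_num) growth54 l
      _ = (1 + 1 / 76) ^ (54 * l) := by rw [pow_mul]
  have hd : (0 : ℝ) < (d : ℝ) + 1 := by positivity
  have h3 : 1 / (76 * ((d : ℝ) + 1)) * (1 + 1 / 76) ^ (54 * l) >
      1 / (76 * ((d : ℝ) + 1)) * ((d : ℝ) + 2) :=
    mul_lt_mul_of_pos_left h2 (by positivity)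
  have h4 : 1 / (76 * ((d : ℝ) + 1)) * ((d : ℝ) + 2) = 1 / 76 + 1 / (76 * ((d : ℝ) + 1)) := by
    field_simp
    ring
  rw [h4, ← h1] at h3
  linarith

/-- The one-sided theorem: in a bad relation of density at most `2 ^ (-2 f)`, where
`1024 (d + 1) ^ 2 ≤ 2 ^ f`, there is an ordered copy of the cube avoiding all bad pairs. -/
theorem sparse_transversal (d l f : ℕ) (hl : d + 2 < 2 ^ l) (hf : 1024 * (d + 1) ^ 2 ≤ 2 ^ f)
    (L0 L1 : ℕ) (hL0 : 109 * d + 54 * l ≤ L0) (hL1 : 109 * d + 54 * l ≤ L1) (bad : ℕ → ℕ → Bool)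
    (hbad : ∀ j, j < 2 ^ L1 →
      2 ^ (2 * f) * ((Finset.range (2 ^ L0)).filter (fun i => bad i j = true)).card ≤ 2 ^ L0) :
    ∃ i j : (Fin d → Bool) → ℕ, (∀ u, i u < 2 ^ L0) ∧ (∀ u, j u < 2 ^ L1) ∧
      (∀ u v, vl d u < vl d v → i u < i v) ∧ (∀ u v, vl d u < vl d v → j u < j v) ∧
      ∀ u v, hammingDist u v = 1 → bad (i u) (j v) = false := by
  set K : ℕ → ℕ → ℝ := fun i j => if bad i j = true then 1 else 0 with hKdef
  have hK : ∀ i j, 0 ≤ K i j := by
    intro i j
    simp only [hKdef]
    split_ifs <;> norm_num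
  have hK1 : ∀ i j, K i j ≤ 1 := by
    intro i j
    simp only [hKdef]
    split_ifs <;> norm_num
  have hd1 : (0 : ℝ) < (d : ℝ) + 1 := by positivity
  set D : ℝ := 8 * ((d : ℝ) + 1) ^ 2 with hD
  have hD0 : 0 < D := by positivity
  set κ : ℝ := 1 / ((d : ℝ) + 1) with hκdef
  have hκ0 : 0 ≤ κ := by positivity
  set ε : ℝ := 1 / 76 with hε
  set η : ℝ := 1 / (76 * ((d : ℝ) + 1)) with hη
  have hε0 : 0 ≤ ε := by norm_num [hε]
  have hη0 : 0 ≤ η := by positivity
  have hl1 : 1 ≤ l := by
    by_contra h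
    have : l = 0 := by omega
    rw [this] at hl
    simp at hl
  obtain ⟨M, hMdef⟩ : ∃ M, M + 1 = 54 * l := ⟨54 * l - 1, by omega⟩
  have hM : 1 < gf ε η (M + 1) := by
    rw [hMdef]
    exact gf_big d l hl
  -- the density
  have hdens : dens K (L0, 0) (L1, 0) ≤ 1 / 2 ^ (2 * f) := by
    unfold dens
    simp only [Nat.zero_mul, Nat.zero_add]
    rw [div_le_div_iff₀ (by positivity) (by positivity), one_mul, Finset.sum_comm, Finset.sum_mul]
    have hterm : ∀ j ∈ Finset.range (2 ^ L1),
        (∑ r ∈ Finset.range (2 ^ L0), K r j) * 2 ^ (2 * f) ≤ 2 ^ L0 := by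
      intro j hj
      have h1 := hbad j (Finset.mem_range.mp hj)
      have h2 : ∑ r ∈ Finset.range (2 ^ L0), K r j =
          (((Finset.range (2 ^ L0)).filter (fun i => bad i j = true)).card : ℝ) := by
        simp only [hKdef]
        rw [Finset.sum_ite, Finset.sum_const_zero, add_zero, Finset.sum_const, nsmul_eq_mul,
          mul_one]
      rw [h2]
      have h3 : ((2 ^ (2 * f) *
          ((Finset.range (2 ^ L0)).filter (fun i => bad i j = true)).card : ℕ) : ℝ)
          ≤ ((2 ^ L0 : ℕ) : ℝ) := by exact_mod_cast h1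
      push_cast at h3
      linarith
    refine le_trans (Finset.sum_le_sum hterm) ?_
    rw [Finset.sum_const, Finset.card_range, nsmul_eq_mul]
    push_cast
    rw [mul_comm]
  have hsq : Real.sqrt (dens K (L0, 0) (L1, 0)) ≤ 1 / 2 ^ f := by
    refine Real.sqrt_le_iff.mpr ⟨by positivity, ?_⟩
    refine le_trans hdens (le_of_eq ?_)
    rw [one_div_pow, ← pow_mul, mul_comm f 2]
  have hgrow : (1 + κ) ^ (2 * d) ≤ 8 := by
    have h1 : 1 + κ ≤ Real.exp κ := by
      have := Real.add_one_le_exp κ
      linarith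
    have h2 : (1 + κ) ^ (2 * d) ≤ Real.exp κ ^ (2 * d) :=
      pow_le_pow_left₀ (by positivity) h1 _
    have h3 : Real.exp κ ^ (2 * d) = Real.exp ((2 * d : ℕ) * κ) := by
      rw [← Real.exp_nat_mul]
    have h4 : ((2 * d : ℕ) : ℝ) * κ ≤ 2 := by
      rw [hκdef, mul_one_div, div_le_iff₀ hd1]
      push_cast
      linarith
    have h5 : Real.exp (2 : ℝ) ≤ 8 := by
      have e1 : Real.exp (2 : ℝ) = Real.exp 1 * Real.exp 1 := by
        rw [← Real.exp_add]; norm_num
      have e2 := Real.exp_one_lt_d9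
      have e3 := Real.exp_pos 1
      rw [e1]
      nlinarith
    calc (1 + κ) ^ (2 * d) ≤ Real.exp κ ^ (2 * d) := h2
      _ = Real.exp ((2 * d : ℕ) * κ) := h3
      _ ≤ Real.exp 2 := Real.exp_le_exp.mpr h4
      _ ≤ 8 := h5
  have hsqrtD : Real.sqrt (2 / D) = 1 / (2 * ((d : ℝ) + 1)) := by
    have : 2 / D = (1 / (2 * ((d : ℝ) + 1))) ^ 2 := by
      rw [hD]
      field_simp
      norm_num
    rw [this, Real.sqrt_sq (by positivity)]
  have hκ : 38 * η + Real.sqrt (2 / D) ≤ κ := by
    rw [hsqrtD, hη, hκdef]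
    refine le_of_eq ?_
    field_simp
    norm_num
  have hκ1 : κ ≤ 1 := by
    rw [hκdef, div_le_one hd1]
    have : (0 : ℝ) ≤ d := Nat.cast_nonneg d
    linarith
  have hCd : (4 : ℝ) ≤ (1 + ε) ^ 108 := by
    have h1 := growth54
    have h2 : (1 + ε) ^ 108 = ((1 + 1 / 76 : ℝ) ^ 54) ^ 2 := by
      rw [← pow_mul]
    rw [h2]
    nlinarith
  set L : Bool → ℕ := fun b => if b then L1 else L0 with hL
  have hLb : ∀ b, 109 * d + 54 * l ≤ L b := by
    intro b
    cases b
    · exact hL0
    · exact hL1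
  -- all levels
  have hlev : ∀ k, k ≤ d → ∃ Win μ w, Lev K D κ ε η M 108 d L k Win μ w := by
    intro k
    induction k with
    | zero =>
      intro _
      refine ⟨fun x => (L x.2, 0), fun _ => 0, fun x y => if x = y then 0 else 1, ?_⟩
      constructor
      · intro x
        have := hLb x.2
        simp only [Nat.sub_zero]
        omega
      · intro x
        exact Nat.zero_le _
      · intro x y
        split_ifs <;> norm_num
      · intro x
        have h0 : gf ε η 0 = 0 := rfl
        rw [h0, sub_zero]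
        have e1 : ∑ y : VV 0, (if x = y then (0 : ℝ) else 1) =
            ((Finset.univ.filter (fun y : VV 0 => ¬ x = y)).card : ℝ) := by
          rw [Finset.sum_ite, Finset.sum_const_zero, zero_add, Finset.sum_const, nsmul_eq_mul,
            mul_one]
        rw [e1]
        have e2 : (Finset.univ.filter (fun y : VV 0 => ¬ x = y)).card ≤ 1 := by
          have h1 : (Finset.univ.filter (fun y : VV 0 => ¬ x = y)) ⊆
              (Finset.univ : Finset (VV 0)).erase x := by
            intro y hy
            rw [Finset.mem_filter] at hy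
            exact Finset.mem_erase.mpr ⟨fun h => hy.2 h.symm, Finset.mem_univ _⟩
          refine le_trans (Finset.card_le_card h1) ?_
          rw [Finset.card_erase_of_mem (Finset.mem_univ _)]
          simp [VV]
        exact_mod_cast e2
      · intro x y
        by_cases hxy : x = y
        · subst hxy
          rw [dens2_same]
          simp
        · rw [if_neg hxy, if_neg (fun h => hxy h.symm), mul_one]
          have h1 : x.1 = y.1 := Subsingleton.elim _ _
          have h2 : x.2 ≠ y.2 := by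
            intro h
            exact hxy (Prod.ext h1 h)
          rw [h1, hammingDist_self]
          have hc0 : cc D 0 = D := by simp [cc]
          rw [hc0]
          have h3 : dens2 K x.2 y.2 (L x.2, 0) (L y.2, 0) = dens K (L false, 0) (L true, 0) := by
            cases ha : x.2 <;> cases hb : y.2
            · rw [ha, hb] at h2; exact absurd rfl h2
            · rfl
            · rw [dens2_symm]; rfl
            · rw [ha, hb] at h2; exact absurd rfl h2
          rw [h3, Nat.sub_zero]
          have h4 : Real.sqrt (dens K (L false, 0) (L true, 0)) ≤ 1 / 2 ^ f := hsq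
          have h5 : 0 ≤ Real.sqrt (dens K (L false, 0) (L true, 0)) := Real.sqrt_nonneg _
          have h6 : 16 * (1 + κ) ^ (2 * d) * D ≤ 1024 * ((d : ℝ) + 1) ^ 2 := by
            rw [hD]
            have : 0 ≤ 8 * ((d : ℝ) + 1) ^ 2 := by positivity
            nlinarith
          have h7 : (1024 * ((d : ℝ) + 1) ^ 2) ≤ 2 ^ f := by exact_mod_cast hf
          calc 16 * (1 + κ) ^ (2 * d) * D * Real.sqrt (dens K (L false, 0) (L true, 0))
              ≤ 2 ^ f * (1 / 2 ^ f) := by
                refine mul_le_mul (le_trans h6 h7) h4 h5 (by positivity)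
            _ = 1 := by field_simp
      · intro u v s h
        simp [vl] at h
      · intro x
        simp [hi]
    | succ k ih =>
      intro hk
      obtain ⟨Win, μ, w, h⟩ := ih (by omega)
      refine lev_step hK hD0 hε0 ?_ hη0 hκ hκ1 hCd hM hk h
      norm_num [hε]
  obtain ⟨Win, μ, w, h⟩ := hlev d le_rfl
  have hG : Good (lw K (1 / 2) D Win) (1 / 2) := by
    refine good_of_sum (lw_symm Win) (lw_nonneg hK hD0.le Win) (by norm_num) ?_
    intro x
    have h1 : ∀ y, lw K (1 / 2) D Win x y ≤ w x y / 16 := by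
      intro y
      have h2 := h.prod x y
      rw [Nat.sub_self, mul_zero, pow_zero, mul_one] at h2
      have h3 : w y x ≤ 1 := by
        have h4 := h.sum y
        have h5 := gf_nonneg hε0 hη0 (μ y)
        have h6 : w y x ≤ ∑ u, w y u :=
          Finset.single_le_sum (f := fun u => w y u) (fun u _ => h.w0 y u) (Finset.mem_univ x)
        linarith
      have h7 : w x y * w y x ≤ w x y * 1 := mul_le_mul_of_nonneg_left h3 (h.w0 x y)
      unfold lw
      rw [← Real.sqrt_eq_rpow]
      linarith
    calc ∑ y, lw K (1 / 2) D Win x y ≤ ∑ y, w x y / 16 := Finset.sum_le_sum fun y _ => h1 y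
      _ = (∑ y, w x y) / 16 := by rw [Finset.sum_div]
      _ ≤ (1 / 2 : ℝ) ^ 2 / 4 := by
          have h4 := h.sum x
          have h5 := gf_nonneg hε0 hη0 (μ x)
          linarith
  obtain ⟨s, hs, hlt⟩ := leaves hK hK1 hD0 (by norm_num) le_rfl Win (z := 1 / 2) (δ := 1 / 2)
    (by norm_num) (by norm_num) (by norm_num) hG
  have hin : ∀ x, lo (Win x) + s x < hi (Win x) := by
    intro x
    have h1 := hs x
    unfold lo hi
    rw [Nat.add_mul, one_mul]
    omega
  refine ⟨fun u => lo (Win (u, false)) + s (u, false), fun u => lo (Win (u, true)) + s (u, true),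
    ?_, ?_, ?_, ?_, ?_⟩
  · intro u
    exact lt_of_lt_of_le (hin _) (h.top (u, false))
  · intro u
    exact lt_of_lt_of_le (hin _) (h.top (u, true))
  · intro u v huv
    exact lt_of_lt_of_le (hin _) (le_trans (h.ord u v false huv) (Nat.le_add_right _ _))
  · intro u v huv
    exact lt_of_lt_of_le (hin _) (le_trans (h.ord u v true huv) (Nat.le_add_right _ _))
  · intro u v huv
    have h1 := hlt u v huv
    simp only [hKdef] at h1
    by_contra hne
    have hbt : bad (lo (Win (u, false)) + s (u, false)) (lo (Win (v, true)) + s (v, true)) = true := by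
      simpa using hne
    rw [if_pos hbt] at h1
    exact lt_irrefl _ h1

end Pool.Agent.helper336_cube
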