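import Mathlib
import Pool.Agent.helper336_cube.Greedy
import Pool.Agent.helper336_cube.Sparse

set_option autoImplicit false

namespace Pool.Agent.helper336_cube

open Finset

/-- Every bad relation of density at most `2 ^ (-e)` per column, on sets of sizes at least
`2 ^ A`, is avoided by an ordered copy of the cube. -/
def SparseOK (d A e : ℕ) : Prop :=
  ∀ L0 L1 : ℕ, A ≤ L0 → A ≤ L1 → ∀ bad : ℕ → ℕ → Bool,
    (∀ j, j < 2 ^ L1 →
      2 ^ e * ((Finset.range (2 ^ L0)).filter (fun i => bad i j = true)).card ≤ 2 ^ L0) →
    ∃ i j : (Fin d → Bool) → ℕ, (∀ u, i u < 2 ^ L0) ∧ (∀ u, j u < 2 ^ L1) ∧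
      (∀ u v, vl d u < vl d v → i u < i v) ∧ (∀ u v, vl d u < vl d v → j u < j v) ∧
      ∀ u v, hammingDist u v = 1 → bad (i u) (j v) = false

lemma sparseOK_of {d l f : ℕ} (hl : d + 2 < 2 ^ l) (hf : 1024 * (d + 1) ^ 2 ≤ 2 ^ f) :
    SparseOK d (109 * d + 54 * l) (2 * f) :=
  fun L0 L1 h0 h1 bad hbad => sparse_transversal d l f hl hf L0 L1 h0 h1 bad hbad

/-- The second alternative: a sparse pair of sets yields a copy in colour `false`. -/
lemma sparse_case2 {d A e N L0 S : ℕ} (hSp : SparseOK d A e)
    {σ : Fin (2 ^ d) ≃ (Fin d → Bool)} (hσ : ∀ p q, p < q → rk d (σ p) < rk d (σ q))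
    (hN : 2 ^ d * S ≤ N) (f : Fin N → Fin N → Bool)
    (hL0 : A ≤ L0) (u0 v0 : Fin d → Bool) (hu0 : pr d u0 = false) (hv0 : pr d v0 = true)
    (X Y : Finset ℕ) (hX : X ⊆ block σ S u0) (hY : Y ⊆ block σ S v0)
    (hXc : X.card = 2 ^ L0) (hYc : Y.card = 2 ^ A)
    (hsp : ∀ y ∈ Y, 2 ^ e * (X.filter (fun x => ext f x y = true)).card ≤ X.card) :
    HasCopy σ f := by
  set xs := X.orderEmbOfFin hXc with hxs
  set ys := Y.orderEmbOfFin hYc with hys
  have hxm : ∀ i, xs i ∈ X := fun i => Finset.orderEmbOfFin_mem X hXc i
  have hym : ∀ i, ys i ∈ Y := fun i => Finset.orderEmbOfFin_mem Y hYc i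
  set bad : ℕ → ℕ → Bool := fun i j =>
    if h : i < 2 ^ L0 ∧ j < 2 ^ A then ext f (xs ⟨i, h.1⟩) (ys ⟨j, h.2⟩) else false with hbad
  have hb : ∀ j, j < 2 ^ A →
      2 ^ e * ((Finset.range (2 ^ L0)).filter (fun i => bad i j = true)).card ≤ 2 ^ L0 := by
    intro j hj
    have h1 := hsp (ys ⟨j, hj⟩) (hym _)
    rw [hXc] at h1
    refine le_trans (Nat.mul_le_mul_left _ ?_) h1
    refine Finset.card_le_card_of_injOn
      (fun i => if h : i < 2 ^ L0 then xs ⟨i, h⟩ else 0) ?_ ?_
    · intro i hi
      have hi' := Finset.mem_filter.mp (Finset.mem_coe.mp hi)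
      have hilt := Finset.mem_range.mp hi'.1
      have h2 := hi'.2
      simp only [hbad] at h2
      rw [dif_pos ⟨hilt, hj⟩] at h2
      simp only
      rw [dif_pos hilt]
      exact Finset.mem_coe.mpr (Finset.mem_filter.mpr ⟨hxm _, h2⟩)
    · intro i hi i' hi' heq
      have h1 := Finset.mem_range.mp (Finset.mem_filter.mp (Finset.mem_coe.mp hi)).1
      have h2 := Finset.mem_range.mp (Finset.mem_filter.mp (Finset.mem_coe.mp hi')).1
      simp only at heq
      rw [dif_pos h1, dif_pos h2] at heq
      have := xs.injective heq
      simpa using this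
  obtain ⟨i, j, hi, hj, hmi, hmj, hgood⟩ := hSp L0 A hL0 le_rfl bad hb
  refine hasCopy_of hσ f (fun v => if pr d v = false then xs ⟨i v, hi v⟩ else ys ⟨j v, hj v⟩)
    ?_ ?_ false ?_
  · intro v
    split_ifs
    · exact block_lt_N σ hN (hX (hxm _))
    · exact block_lt_N σ hN (hY (hym _))
  · intro u v huv
    have hlt1 := vl_lt d u
    have hlt2 := vl_lt d v
    have hlt3 := vl_lt d u0
    cases h1 : pr d u <;> cases h2 : pr d v
    · rw [if_pos rfl, if_pos rfl]
      rw [rk_even h1, rk_even h2] at huv
      exact xs.strictMono (hmi u v huv)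
    · rw [if_pos rfl, if_neg (by simp)]
      refine block_lt hσ ?_ (hX (hxm _)) (hY (hym _))
      rw [rk_even hu0, rk_odd hv0]
      omega
    · rw [rk_odd h1, rk_even h2] at huv
      omega
    · rw [if_neg (by simp), if_neg (by simp)]
      rw [rk_odd h1, rk_odd h2] at huv
      exact ys.strictMono (hmj u v (by omega))
  · intro u v hu hv huv
    rw [if_pos hu, if_neg (by simp [hv])]
    have := hgood u v huv
    simp only [hbad] at this
    rw [dif_pos ⟨hi u, hj v⟩] at this
    exact this

theorem greedy2 {d A e N : ℕ} (hSp : SparseOK d A e) (he1 : 1 ≤ e)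
    {σ : Fin (2 ^ d) ≃ (Fin d → Bool)} (hσ : ∀ p q, p < q → rk d (σ p) < rk d (σ q))
    (hN : 2 ^ d * 2 ^ (A + e * d) ≤ N) (f : Fin N → Fin N → Bool) :
    HasCopy σ f := by
  set S := 2 ^ (A + e * d) with hS
  by_contra hno
  have key : ∀ B : Finset (Fin d → Bool), (∀ v ∈ B, pr d v = true) →
      ∃ (y : (Fin d → Bool) → ℕ) (X : (Fin d → Bool) → Finset ℕ),
        (∀ v ∈ B, y v ∈ block σ S v) ∧
        (∀ u, pr d u = false → X u ⊆ block σ S u ∧
          (X u).card = 2 ^ (A + e * (d - (nb u ∩ B).card)) ∧
          ∀ v ∈ B, hammingDist u v = 1 → ∀ x ∈ X u, ext f x (y v) = true) := by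
    intro B
    induction B using Finset.induction_on with
    | empty =>
      intro _
      refine ⟨fun _ => 0, fun u => block σ S u, by simp, ?_⟩
      intro u _
      refine ⟨le_rfl, ?_, by simp⟩
      rw [card_block, hS]
      simp
    | insert v B hvB ih =>
      intro hodd
      obtain ⟨y, X, hy, hX⟩ := ih (fun w hw => hodd w (Finset.mem_insert_of_mem hw))
      have hvodd : pr d v = true := hodd v (Finset.mem_insert_self v B)
      have hlt : ∀ u, hammingDist u v = 1 → (nb u ∩ B).card + 1 ≤ d := by
        intro u huv
        have h1 : insert v (nb u ∩ B) ⊆ nb u := by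
          intro w hw
          rcases Finset.mem_insert.mp hw with h | h
          · rw [h]; exact mem_nb.mpr huv
          · exact (Finset.mem_inter.mp h).1
        have h2 := Finset.card_le_card h1
        rw [Finset.card_insert_of_notMem (fun h => hvB (Finset.mem_inter.mp h).2)] at h2
        exact le_trans h2 (card_nb u)
      by_cases hcase : ∃ y0 ∈ block σ S v, ∀ u, pr d u = false → hammingDist u v = 1 →
          (X u).card ≤ 2 ^ e * ((X u).filter (fun x => ext f x y0 = true)).card
      · obtain ⟨y0, hy0, hy0X⟩ := hcase
        have hex : ∀ u, ∃ X' : Finset ℕ, pr d u = false → X' ⊆ X u ∧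
            X'.card = 2 ^ (A + e * (d - (nb u ∩ insert v B).card)) ∧
            (hammingDist u v = 1 → ∀ x ∈ X', ext f x y0 = true) := by
          intro u
          by_cases hu : pr d u = false
          · obtain ⟨_, hXc, _⟩ := hX u hu
            by_cases huv : hammingDist u v = 1
            · have h1 := hy0X u hu huv
              have h2 := hlt u huv
              have h3 : (nb u ∩ insert v B).card = (nb u ∩ B).card + 1 := by
                rw [Finset.inter_insert_of_mem (mem_nb.mpr huv)]
                exact Finset.card_insert_of_notMem (fun h => hvB (Finset.mem_inter.mp h).2)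
              have h4 : 2 ^ (A + e * (d - (nb u ∩ insert v B).card)) ≤
                  ((X u).filter (fun x => ext f x y0 = true)).card := by
                rw [hXc] at h1
                have h5 : A + e * (d - (nb u ∩ B).card) =
                    e + (A + e * (d - (nb u ∩ insert v B).card)) := by
                  rw [h3]
                  have : d - (nb u ∩ B).card = (d - ((nb u ∩ B).card + 1)) + 1 := by omega
                  rw [this]
                  ring
                rw [h5, pow_add] at h1
                exact Nat.le_of_mul_le_mul_left h1 (by positivity)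
              obtain ⟨X', hX'1, hX'2⟩ := Finset.exists_subset_card_eq h4
              refine ⟨X', fun _ => ⟨?_, hX'2, ?_⟩⟩
              · exact hX'1.trans (Finset.filter_subset _ _)
              · intro _ x hx
                exact (Finset.mem_filter.mp (hX'1 hx)).2
            · refine ⟨X u, fun _ => ⟨le_rfl, ?_, fun h => absurd h huv⟩⟩
              have h3 : nb u ∩ insert v B = nb u ∩ B :=
                Finset.inter_insert_of_notMem (fun h => huv (mem_nb.mp h))
              rw [h3]
              exact hXc
          · exact ⟨∅, fun h => absurd h hu⟩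
        choose X' hX' using hex
        refine ⟨Function.update y v y0, X', ?_, ?_⟩
        · intro w hw
          by_cases hwv : w = v
          · subst hwv
            rw [Function.update_self]
            exact hy0
          · rw [Function.update_of_ne hwv]
            rcases Finset.mem_insert.mp hw with h | h
            · exact absurd h hwv
            · exact hy w h
        · intro u hu
          obtain ⟨hXs, _, hXe⟩ := hX u hu
          obtain ⟨h1, h2, h3⟩ := hX' u hu
          refine ⟨h1.trans hXs, h2, ?_⟩
          intro w hw huw x hx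
          by_cases hwv : w = v
          · subst hwv
            rw [Function.update_self]
            exact h3 huw x hx
          · rw [Function.update_of_ne hwv]
            rcases Finset.mem_insert.mp hw with h | h
            · exact absurd h hwv
            · exact hXe w h huw x (h1 hx)
      · exfalso
        apply hno
        push Not at hcase
        have hcase' : ∀ y0 : ℕ, ∃ u : Fin d → Bool, y0 ∈ block σ S v →
            pr d u = false ∧ hammingDist u v = 1 ∧
            2 ^ e * ((X u).filter (fun x => ext f x y0 = true)).card < (X u).card := by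
          intro y0
          by_cases h : y0 ∈ block σ S v
          · obtain ⟨u, hu⟩ := hcase y0 h
            exact ⟨u, fun _ => hu⟩
          · exact ⟨v, fun h' => absurd h' h⟩
        choose U hU using hcase'
        have hmaps : ∀ a ∈ block σ S v, U a ∈ nb v := by
          intro a ha
          rw [mem_nb, hammingDist_comm]
          exact (hU a ha).2.1
        have hSpos : 0 < S := by rw [hS]; positivity
        have hbne : (block σ S v).Nonempty := by
          rw [← Finset.card_pos, card_block]
          exact hSpos
        obtain ⟨a0, ha0⟩ := hbne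
        have hne : (nb v).Nonempty := ⟨_, hmaps a0 ha0⟩
        have hcnt : (nb v).card * 2 ^ A ≤ (block σ S v).card := by
          rw [card_block, hS, pow_add, mul_comm]
          refine Nat.mul_le_mul_left _ ?_
          refine le_trans (card_nb v) ?_
          have h1 : d < 2 ^ d := Nat.lt_two_pow_self
          have h2 : 2 ^ d ≤ 2 ^ (e * d) := Nat.pow_le_pow_right (by norm_num) (by nlinarith)
          omega
        obtain ⟨u, _, hufib⟩ := Finset.exists_le_card_fiber_of_mul_le_card_of_maps_to hmaps hne hcnt
        obtain ⟨Y, hYs, hYc⟩ := Finset.exists_subset_card_eq hufib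
        have hYsub : ∀ a ∈ Y, a ∈ block σ S v ∧ U a = u := by
          intro a ha
          exact Finset.mem_filter.mp (hYs ha)
        obtain ⟨a1, ha1⟩ : Y.Nonempty := by
          rw [← Finset.card_pos, hYc]; positivity
        have hu : pr d u = false := by
          have := (hU a1 (hYsub a1 ha1).1).1
          rw [(hYsub a1 ha1).2] at this
          exact this
        obtain ⟨hXs, hXc, _⟩ := hX u hu
        refine sparse_case2 hSp hσ hN f (L0 := A + e * (d - (nb u ∩ B).card))
          (Nat.le_add_right _ _) u v hu hvodd (X u) Y hXs (fun a ha => (hYsub a ha).1) hXc hYc ?_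
        intro a ha
        obtain ⟨h1, h2⟩ := hYsub a ha
        have := (hU a h1).2.2
        rw [h2] at this
        exact this.le
  obtain ⟨y, X, hy, hX⟩ := key (Finset.univ.filter (fun v => pr d v = true))
    (fun v hv => (Finset.mem_filter.mp hv).2)
  have hxe : ∀ u, ∃ x, pr d u = false → x ∈ X u := by
    intro u
    by_cases hu : pr d u = false
    · obtain ⟨_, hXc, _⟩ := hX u hu
      have : (X u).Nonempty := by
        rw [← Finset.card_pos, hXc]; positivity
      obtain ⟨x, hx⟩ := this
      exact ⟨x, fun _ => hx⟩
    · exact ⟨0, fun h => absurd h hu⟩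
  choose x hx using hxe
  apply hno
  have hblk : ∀ v, (if pr d v = false then x v else y v) ∈ block σ S v := by
    intro v
    cases h : pr d v
    · rw [if_pos rfl]
      exact (hX v h).1 (hx v h)
    · rw [if_neg (by simp)]
      exact hy v (Finset.mem_filter.mpr ⟨Finset.mem_univ _, h⟩)
  refine hasCopy_of hσ f (fun v => if pr d v = false then x v else y v) ?_ ?_ true ?_
  · intro v
    exact block_lt_N σ hN (hblk v)
  · intro u v huv
    exact block_lt hσ huv (hblk u) (hblk v)
  · intro u v hu hv huv
    rw [if_pos hu, if_neg (by simp [hv])]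
    exact (hX u hu).2.2 v (Finset.mem_filter.mpr ⟨Finset.mem_univ _, hv⟩) huv (x u) (hx u hu)

end Pool.Agent.helper336_cube
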